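import Pool.Agent.H27.E7.GrpA

/-!
# E7-13: the order of `U` is a power of 4

More generally let `W ≤ U` be a subgroup such that `B` is non degenerate on `W`
(for `u ∈ W`, `u ≠ 1` there is `v ∈ W` with `B(u,v) = 1`).  By strong induction on `|W|` it is
a power of 4: if `W ≠ 1` take `u ∈ W`, `u ≠ 1`, `v ∈ W`, `B(u, v) = 1`, and
`W' = {w ∈ W : B(u, w) = 0, B(v, w) = 0}`.  The map `W → (ZMod 2)²`, `w ↦ (B(u,w), B(v,w))` is a
surjective homomorphism with kernel `W'`, so `|W| = 4 |W'|`; `B` is non degenerate on `W'`: let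
`w ∈ W'`, `w ≠ 1`, `B(w, w2) = 1`, `w2 ∈ W`; multiply `w2` by `u` and/or `v` to get it into `W'`
without changing `B(w, ·)`.
-/

namespace Pool.Agent.H27.E7

variable {G : Type} [Group G] {M U : Subgroup G} {B : G → G → ZMod 2}

theorem SyF_mul_right (S : Symp M U B) {u v w : G} (hu : u ∈ U) (hv : v ∈ U) (hw : w ∈ U) :
    B w (u * v) = B w u + B w v := by
  rw [S.symm w hw _ (U.mul_mem hu hv), S.mul_left u hu v hv w hw, S.symm u hu w hw,
    S.symm v hv w hw]

theorem SyF_one (S : Symp M U B) {w : G} (hw : w ∈ U) : B w 1 = 0 := by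
  have h := SyF_mul_right S U.one_mem U.one_mem hw
  rw [one_mul] at h
  exact left_eq_add.1 h

theorem SyF_zmod (a : ZMod 2) : a = 0 ∨ a = 1 := by
  revert a
  decide

theorem SyF_aux [Finite G] (S : Symp M U B) (n : ℕ) : ∀ W : Subgroup G, W ≤ U →
    Nat.card W = n → (∀ u ∈ W, u ≠ 1 → ∃ v ∈ W, B u v = 1) → ∃ k : ℕ, n = 4 ^ k := by
  induction n using Nat.strong_induction_on with
  | _ n ih =>
    intro W hW hn hnd
    by_cases h1 : ∀ u ∈ W, u = 1
    · have hbot : W = ⊥ := (Subgroup.eq_bot_iff_forall W).2 h1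
      refine ⟨0, ?_⟩
      rw [← hn, hbot, Subgroup.card_bot, pow_zero]
    · push Not at h1
      obtain ⟨u, hu, hu1⟩ := h1
      obtain ⟨v, hv, huv⟩ := hnd u hu hu1
      have huU := hW hu
      have hvU := hW hv
      have hvu : B v u = 1 := by rw [S.symm v hvU u huU, huv]
      let f : W →* Multiplicative (ZMod 2 × ZMod 2) :=
        { toFun := fun w => Multiplicative.ofAdd (B u w.1, B v w.1)
          map_one' := by
            show Multiplicative.ofAdd (B u 1, B v 1) = 1
            rw [SyF_one S huU, SyF_one S hvU]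
            rfl
          map_mul' := by
            intro a b
            show Multiplicative.ofAdd (B u (a.1 * b.1), B v (a.1 * b.1)) = _
            rw [SyF_mul_right S (hW a.2) (hW b.2) huU, SyF_mul_right S (hW a.2) (hW b.2) hvU]
            rfl }
      have hf : ∀ w : W, f w = Multiplicative.ofAdd (B u w.1, B v w.1) := fun _ => rfl
      have hsurj : f.range = ⊤ := by
        rw [MonoidHom.range_eq_top]
        intro y
        obtain ⟨⟨a, b⟩, rfl⟩ := Multiplicative.ofAdd.surjective y
        rcases SyF_zmod a with rfl | rfl <;> rcases SyF_zmod b with rfl | rfl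
        · exact ⟨1, f.map_one⟩
        · refine ⟨⟨u, hu⟩, ?_⟩
          rw [hf]
          show Multiplicative.ofAdd (B u u, B v u) = _
          rw [S.self u huU, hvu]
        · refine ⟨⟨v, hv⟩, ?_⟩
          rw [hf]
          show Multiplicative.ofAdd (B u v, B v v) = _
          rw [S.self v hvU, huv]
        · refine ⟨⟨u, hu⟩ * ⟨v, hv⟩, ?_⟩
          rw [hf]
          show Multiplicative.ofAdd (B u (u * v), B v (u * v)) = _
          rw [SyF_mul_right S huU hvU huU, SyF_mul_right S huU hvU hvU, S.self u huU,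
            S.self v hvU, huv, hvu, zero_add, add_zero]
      have hcard : Nat.card f.ker * 4 = n := by
        have h2 := Subgroup.card_mul_index f.ker
        rw [Subgroup.index_ker, hsurj, hn] at h2
        have h3 : Nat.card (⊤ : Subgroup (Multiplicative (ZMod 2 × ZMod 2))) = 4 := by
          rw [Subgroup.card_top, Nat.card_eq_fintype_card]
          rfl
        rw [h3] at h2
        exact h2
      have hmem : ∀ w : G, w ∈ f.ker.map W.subtype ↔ w ∈ W ∧ B u w = 0 ∧ B v w = 0 := by
        intro w
        rw [Subgroup.mem_map]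
        constructor
        · rintro ⟨x, hx, rfl⟩
          rw [MonoidHom.mem_ker, hf] at hx
          have h4 : (B u x.1, B v x.1) = (0, 0) := Multiplicative.ofAdd.injective hx
          rw [Prod.mk.injEq] at h4
          exact ⟨x.2, h4.1, h4.2⟩
        · rintro ⟨hw, h4, h5⟩
          refine ⟨⟨w, hw⟩, ?_, rfl⟩
          rw [MonoidHom.mem_ker, hf]
          show Multiplicative.ofAdd (B u w, B v w) = 1
          rw [h4, h5]
          rfl
      have hcard2 : Nat.card (f.ker.map W.subtype : Subgroup G) = Nat.card f.ker :=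
        (Nat.card_congr
          (f.ker.equivMapOfInjective W.subtype W.subtype_injective).toEquiv).symm
      have hpos : 0 < Nat.card f.ker := Nat.card_pos
      obtain ⟨k, hk⟩ := ih (Nat.card f.ker) (by omega) (f.ker.map W.subtype)
        (fun w hw => hW ((hmem w).1 hw).1) hcard2 (by
          intro w hw hw1
          obtain ⟨hwW, hw2, hw3⟩ := (hmem w).1 hw
          have hwU := hW hwW
          obtain ⟨x, hx, hwx⟩ := hnd w hwW hw1
          have hxU := hW hx
          have hwu : B w u = 0 := by rw [S.symm w hwU u huU, hw2]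
          have hwv : B w v = 0 := by rw [S.symm w hwU v hvU, hw3]
          have h11 : (1 : ZMod 2) + 1 = 0 := by decide
          rcases SyF_zmod (B u x) with h4 | h4 <;> rcases SyF_zmod (B v x) with h5 | h5
          · exact ⟨x, (hmem x).2 ⟨hx, h4, h5⟩, hwx⟩
          · refine ⟨x * u, (hmem _).2 ⟨W.mul_mem hx hu, ?_, ?_⟩, ?_⟩
            · rw [SyF_mul_right S hxU huU huU, h4, S.self u huU, add_zero]
            · rw [SyF_mul_right S hxU huU hvU, h5, hvu, h11]
            · rw [SyF_mul_right S hxU huU hwU, hwx, hwu, add_zero]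
          · refine ⟨x * v, (hmem _).2 ⟨W.mul_mem hx hv, ?_, ?_⟩, ?_⟩
            · rw [SyF_mul_right S hxU hvU huU, h4, huv, h11]
            · rw [SyF_mul_right S hxU hvU hvU, h5, S.self v hvU, add_zero]
            · rw [SyF_mul_right S hxU hvU hwU, hwx, hwv, add_zero]
          · have huv' := U.mul_mem huU hvU
            refine ⟨x * (u * v), (hmem _).2 ⟨W.mul_mem hx (W.mul_mem hu hv), ?_, ?_⟩, ?_⟩
            · rw [SyF_mul_right S hxU huv' huU, SyF_mul_right S huU hvU huU, h4, S.self u huU,
                huv, zero_add, h11]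
            · rw [SyF_mul_right S hxU huv' hvU, SyF_mul_right S huU hvU hvU, h5, S.self v hvU,
                hvu, add_zero, h11]
            · rw [SyF_mul_right S hxU huv' hwU, SyF_mul_right S huU hvU hwU, hwx, hwu, hwv,
                add_zero, add_zero])
      refine ⟨k + 1, ?_⟩
      rw [← hcard, hk, pow_succ]

theorem card_pow [Finite G] (c : Cfg M U) (S : Symp M U B) : ∃ k : ℕ, Nat.card U = 4 ^ k := by
  have _ := c.top
  exact SyF_aux S _ U le_rfl rfl S.nondeg

end Pool.Agent.H27.E7
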