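import Pool.Agent.H27.E7.SyQ
import Pool.Agent.H27.E7.SyF

/-!
# E7-17: the order of `UQ`

`π : ℤ^n → QF F`, `y ↦ cl (hd C y (-1))` is a homomorphism (from `Multiplicative (Fin n → ℤ)`;
`hd_add`, `hd_mem_T1`), its range is `UQ` (contained in it: `(hd y (-1))² = 1`; onto by `n1`), so
`|UQ|` is the index of its kernel (as an additive subgroup of `ℤ^n`).  The kernel contains
`Rad2 C`: for `y ∈ Rad2 C` all weights `(-1)^(ip y b)` are 1, so `hd y (-1) = 1` (`TT_ext`).  So
`|UQ|` divides `(Rad2 C).index = 64` (`AddSubgroup.index_dvd_of_le`).  `|UQ| ≥ 8` (`card8`) and it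
is a power of 4 (`card_pow` with `symp`), so it is 16 or 64.
`|UQ| = 64` iff the kernel is `Rad2 C`.  If all `uu c ∉ Z`: let `y` be in the kernel; by `H7.r63`
`y ∈ Rad2 C` or `y - c ∈ Rad2 C` for a root `c`, and then `hd y (-1) = uu c` (`hd_add`), not in `Z`,
contradiction; so the kernel is `Rad2 C`.  Conversely if `uu c ∈ Z` then `c` is in the kernel and
not in `Rad2 C` (`exists_one`), so the index of the kernel is smaller than 64
(`AddSubgroup.relIndex...`, or: the index of `Rad2` is the product of the relative index `≥ 2` and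
the index of the kernel).
-/

namespace Pool.Agent.H27.E7

open Pool.Agent.H33.EL

variable {n : ℕ} {C : Matrix (Fin n) (Fin n) ℤ} {K : Type} [Field K] [Fintype (Rt C)]
variable {F : Subgroup (LL C K ≃ₗ[K] LL C K)}

private theorem cu_hdE (H : Hyp C K) (X : Ctx F) (y : Fin n → ℤ) : hd C y (-1) ∈ EE F := by
  have h1 : hd C y (-1) ∈ T1 C K := hd_mem_T1 H _ _
  have h2 := T1_le_TT H h1
  refine ⟨X.hT h1, h2, ?_⟩
  have h3 : (hd C y (-1) : LL C K ≃ₗ[K] LL C K) * hd C y (-1) = 1 := by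
    refine TT_ext H (mul_mem h2 h2) (one_mem _) fun b => ?_
    rw [wt_mul H h2 h2, wt_hd, wt_one, ← Units.val_mul, ← mul_zpow]
    simp
  rw [h3]
  exact one_mem _

omit [Fintype (Rt C)] in
private theorem cu_congr {f g : LL C K ≃ₗ[K] LL C K} (hf : f ∈ F) (hg : g ∈ F) (h : f = g) :
    cl hf = cl hg := by
  subst h
  rfl

private def cu_pi (H : Hyp C K) (X : Ctx F) : Multiplicative (Fin n → ℤ) →* QF F where
  toFun y := cl (cu_hdE H X y.toAdd).1
  map_one' := by
    rw [cl_one_iff]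
    have h : (hd C (Multiplicative.toAdd (1 : Multiplicative (Fin n → ℤ))) (-1) :
        LL C K ≃ₗ[K] LL C K) = 1 := TorA_hd_zero (-1)
    rw [h]
    exact one_mem _
  map_mul' := by
    intro a b
    rw [cl_mul]
    exact cu_congr _ _ (hd_add _ _ _)

private theorem cu_range (H : Hyp C K) (X : Ctx F) (hb : Big F) :
    (cu_pi H X).range = UQ H F := by
  apply le_antisymm
  · rintro _ ⟨y, rfl⟩
    exact (cl_UQ H X (cu_hdE H X y.toAdd).1).2 (cu_hdE H X y.toAdd)
  · intro q hq
    obtain ⟨f, hf, rfl⟩ := cl_surj q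
    have hE : f ∈ EE F := (cl_UQ H X hf).1 hq
    by_cases hZ : f ∈ Zc F
    · rw [(cl_one_iff hf).2 hZ]
      exact one_mem _
    · obtain ⟨a, ha, h1⟩ := n1 H X hb hE hZ
      refine ⟨Multiplicative.ofAdd a.1, ?_⟩
      have h2 : cl (uu_EE H X a).1 = cl hf := by
        apply Eq.symm
        rw [cl_eq_iff]
        have h3 : (uu K a)⁻¹ = uu K a := inv_eq_of_mul_eq_one_left (uu_sq H a)
        rw [h3]
        exact h1
      exact h2

private theorem cu_index (H : Hyp C K) (X : Ctx F) (hb : Big F) :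
    (cu_pi H X).ker.index = Nat.card (UQ H F) := by
  rw [Subgroup.index_ker, cu_range H X hb]

private theorem cu_one (H : Hyp C K) {y : Fin n → ℤ} (hy : y ∈ Rad2 C) :
    (hd C y (-1) : LL C K ≃ₗ[K] LL C K) = 1 := by
  refine TT_ext H (hd_mem_TT H _ _) (one_mem _) fun b => ?_
  rw [wt_hd, wt_one, (hy b).neg_one_zpow, Units.val_one]

private theorem cu_mem_ker (H : Hyp C K) (X : Ctx F) (y : Fin n → ℤ) :
    Multiplicative.ofAdd y ∈ (cu_pi H X).ker ↔ (hd C y (-1) : LL C K ≃ₗ[K] LL C K) ∈ Zc F :=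
  (MonoidHom.mem_ker).trans (cl_one_iff (cu_hdE H X y).1)

private theorem cu_le (H : Hyp C K) (X : Ctx F) :
    AddSubgroup.toSubgroup (Rad2 C) ≤ (cu_pi H X).ker := by
  intro y hy
  have h1 : y.toAdd ∈ Rad2 C := hy
  have h2 : Multiplicative.ofAdd y.toAdd ∈ (cu_pi H X).ker := by
    rw [cu_mem_ker, cu_one H h1]
    exact one_mem _
  exact h2

theorem cardU (H : Hyp C K) (X : Ctx F) (hb : Big F) (h7 : H7 C) :
    Nat.card (UQ H F) = 16 ∨ Nat.card (UQ H F) = 64 := by
  have h0 : Finite (QF F) := QF_finite H F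
  have h1 : Nat.card (UQ H F) ∣ 64 := by
    rw [← cu_index H X hb, ← h7.idx]
    exact Subgroup.index_dvd_of_le (cu_le H X)
  have h2 := card8 H X hb.ind
  obtain ⟨k, hk⟩ := card_pow (cfg H X hb.ind) (symp H X hb)
  have h3 := Nat.le_of_dvd (by norm_num) h1
  rw [hk] at h2 h3 ⊢
  have h4 : k ≤ 3 := by
    by_contra h
    have h5 : 4 ^ 4 ≤ 4 ^ k := Nat.pow_le_pow_right (by norm_num) (by omega)
    norm_num at h5
    omega
  interval_cases k
  · norm_num at h2
  · norm_num at h2
  · left; norm_num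
  · right; norm_num

theorem cardU64 (H : Hyp C K) (X : Ctx F) (hb : Big F) (h7 : H7 C) :
    Nat.card (UQ H F) = 64 ↔ ∀ c : Rt C, uu K c ∉ Zc F := by
  constructor
  · intro h c hc
    have h1 : (AddSubgroup.toSubgroup (Rad2 C)).relIndex (cu_pi H X).ker *
        (cu_pi H X).ker.index = (AddSubgroup.toSubgroup (Rad2 C)).index :=
      Subgroup.relIndex_mul_index (cu_le H X)
    have h2 : (AddSubgroup.toSubgroup (Rad2 C)).index = 64 := h7.idx
    rw [cu_index H X hb, h, h2] at h1
    have h3 : (AddSubgroup.toSubgroup (Rad2 C)).relIndex (cu_pi H X).ker = 1 := by omega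
    have h4 := Subgroup.relIndex_eq_one.1 h3 ((cu_mem_ker H X c.1).2 hc)
    have h5 : c.1 ∈ Rad2 C := h4
    obtain ⟨y, hy⟩ := exists_one H c
    have h6 := h5 y
    rw [ip_comm H.symm, hy] at h6
    exact absurd h6 (by decide)
  · intro h
    have h1 : (cu_pi H X).ker ≤ AddSubgroup.toSubgroup (Rad2 C) := by
      intro y hy
      have h2 : (hd C y.toAdd (-1) : LL C K ≃ₗ[K] LL C K) ∈ Zc F :=
        (cu_mem_ker H X y.toAdd).1 hy
      rcases h7.r63 y.toAdd with h3 | ⟨a, h3⟩
      · exact h3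
      · exfalso
        refine h a ?_
        have h4 : (hd C y.toAdd (-1) : LL C K ≃ₗ[K] LL C K) = uu K a := by
          have h5 : y.toAdd = (y.toAdd - a.1) + a.1 := (sub_add_cancel _ _).symm
          rw [h5, hd_add, cu_one H h3, one_mul]
          rfl
        rw [← h4]
        exact h2
    have h2 := le_antisymm h1 (cu_le H X)
    rw [← cu_index H X hb, h2]
    exact h7.idx

end Pool.Agent.H27.E7
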