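import Pool.Agent.H27.E7.Defs

/-!
# E7-01: basic facts on configurations

`G/M` is the set of points; `g⁻¹ i g ∈ M` says that `i` fixes the point `g M`.

* `II_M`: `i = x u x⁻¹ ∈ M` gives `x ∈ M` by `star`, then `nrm`.
* `fix_unique`: `v = g⁻¹ i g ∈ M` is in `II U`, so `v ∈ U`, `v ≠ 1` (`II_M`), and
  `k⁻¹ i k = (k⁻¹ g) v (k⁻¹ g)⁻¹ ∈ M`; so `k⁻¹ g ∈ M` by `star`.
* `odd_index`: take `u ∈ U`, `u ≠ 1`.  The group `zpowers u` of order 2 acts on `G ⧸ M` with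
  exactly one fixed point, the point `M` (`fix_unique` with `k = 1`), so `|G/M|` is odd
  (`IsPGroup.card_modEq_card_fixedPoints`).
* `pfix`: a 2-group acting on a set of odd size has a fixed point
  (`IsPGroup.nonempty_fixed_point_of_prime_not_dvd_card`).
-/

namespace Pool.Agent.H27.E7

variable {G : Type} [Group G] {M U : Subgroup G}

theorem II_ne {i : G} (hi : i ∈ II U) : i ≠ 1 := by
  obtain ⟨x, u, _, h1, rfl⟩ := hi
  intro h
  apply h1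
  rw [mul_inv_eq_one] at h
  exact mul_eq_left.1 h

theorem mem_II {u : G} (hu : u ∈ U) (h1 : u ≠ 1) : u ∈ II U := by
  exact ⟨1, u, hu, h1, by group⟩

theorem II_conj {i : G} (hi : i ∈ II U) (g : G) : g * i * g⁻¹ ∈ II U := by
  obtain ⟨x, u, hu, h1, rfl⟩ := hi
  exact ⟨g * x, u, hu, h1, by group⟩

theorem II_sq (c : Cfg M U) {i : G} (hi : i ∈ II U) : i * i = 1 := by
  obtain ⟨x, u, hu, h1, rfl⟩ := hi
  have h2 : x * u * x⁻¹ * (x * u * x⁻¹) = x * (u * u) * x⁻¹ := by group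
  rw [h2, c.sq u hu, mul_one, mul_inv_cancel]

theorem II_inv (c : Cfg M U) {i : G} (hi : i ∈ II U) : i⁻¹ = i := by
  exact inv_eq_of_mul_eq_one_right (II_sq c hi)

theorem II_M (c : Cfg M U) {i : G} (hi : i ∈ II U) (hM : i ∈ M) : i ∈ U ∧ i ≠ 1 := by
  refine ⟨?_, II_ne hi⟩
  obtain ⟨x, u, hu, h1, rfl⟩ := hi
  exact c.nrm x (c.star u hu h1 x hM) u hu

theorem U_comm (c : Cfg M U) {u v : G} (hu : u ∈ U) (hv : v ∈ U) : u * v = v * u := by
  have h1 : u⁻¹ = u := inv_eq_of_mul_eq_one_right (c.sq u hu)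
  have h2 : v⁻¹ = v := inv_eq_of_mul_eq_one_right (c.sq v hv)
  have h3 : (u * v)⁻¹ = u * v := inv_eq_of_mul_eq_one_right (c.sq _ (U.mul_mem hu hv))
  rw [← h3, mul_inv_rev, h1, h2]

theorem fix_unique (c : Cfg M U) {i g k : G} (hi : i ∈ II U) (hg : g⁻¹ * i * g ∈ M)
    (hk : k⁻¹ * i * k ∈ M) : g⁻¹ * k ∈ M := by
  have h1 : g⁻¹ * i * g ∈ II U := by
    have h2 := II_conj hi g⁻¹
    rw [inv_inv] at h2
    exact h2
  obtain ⟨h3, h4⟩ := II_M c h1 hg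
  have h5 : k⁻¹ * g * (g⁻¹ * i * g) * (k⁻¹ * g)⁻¹ ∈ M := by
    have h6 : k⁻¹ * g * (g⁻¹ * i * g) * (k⁻¹ * g)⁻¹ = k⁻¹ * i * k := by group
    rw [h6]
    exact hk
  have h7 := M.inv_mem (c.star _ h3 h4 _ h5)
  rw [mul_inv_rev, inv_inv] at h7
  exact h7

theorem GrpA_smul {g p : G} : (p • (g : G ⧸ M) = (g : G ⧸ M)) ↔ g⁻¹ * p * g ∈ M := by
  have h1 : p • (g : G ⧸ M) = ((p * g : G) : G ⧸ M) := rfl
  rw [h1, QuotientGroup.eq, ← M.inv_mem_iff]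
  have h2 : ((p * g)⁻¹ * g)⁻¹ = g⁻¹ * p * g := by group
  rw [h2]

theorem odd_index [Finite G] (c : Cfg M U) : ¬ 2 ∣ M.index := by
  obtain ⟨u, hu, h1⟩ := c.ne
  have hf : Fact (Nat.Prime 2) := ⟨Nat.prime_two⟩
  have hP : IsPGroup 2 (Subgroup.zpowers u) := by
    rintro ⟨g, k, rfl⟩
    refine ⟨1, Subtype.ext ?_⟩
    show (u ^ k) ^ (2 ^ 1) = 1
    rw [pow_one, pow_two]
    exact c.sq _ (U.zpow_mem hu k)
  have hcard := hP.card_modEq_card_fixedPoints (G ⧸ M)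
  have hfix : Nat.card (MulAction.fixedPoints (Subgroup.zpowers u) (G ⧸ M)) = 1 := by
    rw [Nat.card_eq_one_iff_unique]
    constructor
    · constructor
      rintro ⟨x, hx⟩ ⟨y, hy⟩
      apply Subtype.ext
      show x = y
      obtain ⟨g, rfl⟩ := QuotientGroup.mk_surjective x
      obtain ⟨k, rfl⟩ := QuotientGroup.mk_surjective y
      have hgu := hx ⟨u, Subgroup.mem_zpowers u⟩
      have hku := hy ⟨u, Subgroup.mem_zpowers u⟩
      rw [QuotientGroup.eq]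
      exact fix_unique c (mem_II hu h1) (GrpA_smul.1 hgu) (GrpA_smul.1 hku)
    · refine ⟨⟨((1 : G) : G ⧸ M), ?_⟩⟩
      rintro ⟨p, hp⟩
      show p • ((1 : G) : G ⧸ M) = ((1 : G) : G ⧸ M)
      rw [GrpA_smul, inv_one, one_mul, mul_one]
      exact (Subgroup.zpowers_le.2 (c.le hu)) hp
  rw [hfix] at hcard
  intro h2
  have h3 : Nat.card (G ⧸ M) = M.index := rfl
  rw [h3] at hcard
  unfold Nat.ModEq at hcard
  omega

theorem pfix [Finite G] (c : Cfg M U) (P : Subgroup G) (hP : IsPGroup 2 P) :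
    ∃ g : G, ∀ p ∈ P, g⁻¹ * p * g ∈ M := by
  have hf : Fact (Nat.Prime 2) := ⟨Nat.prime_two⟩
  obtain ⟨x, hx⟩ := hP.nonempty_fixed_point_of_prime_not_dvd_card (G ⧸ M) (odd_index c)
  obtain ⟨g, rfl⟩ := QuotientGroup.mk_surjective x
  exact ⟨g, fun p hp => GrpA_smul.1 (hx ⟨p, hp⟩)⟩

end Pool.Agent.H27.E7
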