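import Pool.Agent.H33.EL.Defs

/-!
# The special hypotheses for type E_7 (helper27)

`Rad2` and `H7` are now in `H33/EL/Defs.lean`.
-/
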