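import Pool.Agent.H33.EL.CCd
import Pool.Agent.H27.E7.GrpA
import Pool.Agent.H27.E7.HH7

/-!
# E7-14: the quotient group `F / Z`

`QF F = F / Z`, `MQ F` the image of `F ⊓ NN`, `UQ H F` the image of `EE F`; `cl hf` is the class of
`f ∈ F`.  Compare with the file `H33/EL/CCc.lean` (private lemmas `ccc_normal`, `ccc_mem`, ...), where
exactly these facts are proved inside `trans`.
`card8`: `Ind3 F` gives 8 different elements of `UQ`.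
-/

namespace Pool.Agent.H27.E7

open Pool.Agent.H33.EL

variable {n : ℕ} {C : Matrix (Fin n) (Fin n) ℤ} {K : Type} [Field K] [Fintype (Rt C)]

instance zc_normal (F : Subgroup (LL C K ≃ₗ[K] LL C K)) : ((Zc F).subgroupOf F).Normal := by
  refine ⟨fun z hz f => ?_⟩
  rw [Subgroup.mem_subgroupOf] at hz ⊢
  have h : (f : LL C K ≃ₗ[K] LL C K) * z * (f : LL C K ≃ₗ[K] LL C K)⁻¹ = z := by
    have h := (Subgroup.mem_centralizer_iff.1 (Subgroup.mem_inf.1 hz).2) f f.2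
    rw [h, mul_assoc, mul_inv_cancel, mul_one]
  show (f : LL C K ≃ₗ[K] LL C K) * z * (f : LL C K ≃ₗ[K] LL C K)⁻¹ ∈ Zc F
  rw [h]
  exact hz

/-- the quotient of `F` by its centre -/
abbrev QF (F : Subgroup (LL C K ≃ₗ[K] LL C K)) : Type := ↥F ⧸ (Zc F).subgroupOf F

/-- the class of `f ∈ F` -/
def cl {F : Subgroup (LL C K ≃ₗ[K] LL C K)} {f : LL C K ≃ₗ[K] LL C K} (hf : f ∈ F) : QF F :=
  QuotientGroup.mk ⟨f, hf⟩

/-- the image of `F ⊓ NN` -/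
def MQ (F : Subgroup (LL C K ≃ₗ[K] LL C K)) : Subgroup (QF F) :=
  ((NN C K).subgroupOf F).map (QuotientGroup.mk' ((Zc F).subgroupOf F))

/-- the image of `EE F` -/
def UQ (H : Hyp C K) (F : Subgroup (LL C K ≃ₗ[K] LL C K)) : Subgroup (QF F) :=
  ((CCd_E H F).subgroupOf F).map (QuotientGroup.mk' ((Zc F).subgroupOf F))

variable {F : Subgroup (LL C K ≃ₗ[K] LL C K)}

theorem QF_finite (H : Hyp C K) (F : Subgroup (LL C K ≃ₗ[K] LL C K)) : Finite (QF F) := by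
  have hfin : Finite (LL C K ≃ₗ[K] LL C K) := finite_group H
  infer_instance

theorem cl_surj (q : QF F) : ∃ (f : LL C K ≃ₗ[K] LL C K) (hf : f ∈ F), q = cl hf := by
  obtain ⟨x, rfl⟩ := QuotientGroup.mk_surjective q
  exact ⟨x.1, x.2, rfl⟩

theorem cl_mul {f g : LL C K ≃ₗ[K] LL C K} (hf : f ∈ F) (hg : g ∈ F) :
    cl hf * cl hg = cl (mul_mem hf hg) := rfl

theorem cl_inv {f : LL C K ≃ₗ[K] LL C K} (hf : f ∈ F) : (cl hf)⁻¹ = cl (inv_mem hf) := rfl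

theorem cl_one_iff {f : LL C K ≃ₗ[K] LL C K} (hf : f ∈ F) : cl hf = 1 ↔ f ∈ Zc F := by
  unfold cl
  rw [QuotientGroup.eq_one_iff, Subgroup.mem_subgroupOf]

theorem cl_eq_iff {f g : LL C K ≃ₗ[K] LL C K} (hf : f ∈ F) (hg : g ∈ F) :
    cl hf = cl hg ↔ f * g⁻¹ ∈ Zc F := by
  rw [← mul_inv_eq_one, cl_inv, cl_mul, cl_one_iff]

theorem QF_mem {A : Subgroup (LL C K ≃ₗ[K] LL C K)} (hZ : Zc F ≤ A)
    {f : LL C K ≃ₗ[K] LL C K} (hf : f ∈ F) :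
    cl hf ∈ (A.subgroupOf F).map (QuotientGroup.mk' ((Zc F).subgroupOf F)) ↔ f ∈ A := by
  constructor
  · rintro ⟨y, hy, hyx⟩
    have hy' : (y : LL C K ≃ₗ[K] LL C K) ∈ A := hy
    have h1 : (y : F)⁻¹ * ⟨f, hf⟩ ∈ (Zc F).subgroupOf F := QuotientGroup.eq.1 hyx
    rw [Subgroup.mem_subgroupOf] at h1
    have h2 : (y : LL C K ≃ₗ[K] LL C K) * ((y⁻¹ * ⟨f, hf⟩ : F) : LL C K ≃ₗ[K] LL C K) ∈ A :=
      A.mul_mem hy' (hZ h1)
    simpa using h2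
  · intro hx
    exact ⟨⟨f, hf⟩, hx, rfl⟩

theorem cl_MQ (H : Hyp C K) (X : Ctx F) {f : LL C K ≃ₗ[K] LL C K} (hf : f ∈ F) :
    cl hf ∈ MQ F ↔ f ∈ NN C K :=
  QF_mem ((Zc_le_TT H X).trans TT_le_NN) hf

theorem cl_UQ (H : Hyp C K) (X : Ctx F) {f : LL C K ≃ₗ[K] LL C K} (hf : f ∈ F) :
    cl hf ∈ UQ H F ↔ f ∈ EE F :=
  QF_mem (A := CCd_E H F) (fun z hz => CCd_Z H X hz) hf

theorem QF_conj {m s : LL C K ≃ₗ[K] LL C K} (hm : m ∈ F) (hs : s ∈ F) :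
    cl hm * cl hs * (cl hm)⁻¹ = cl (mul_mem (mul_mem hm hs) (inv_mem hm)) := rfl

theorem cfg (H : Hyp C K) (X : Ctx F) (h3 : Ind3 F) : Cfg (MQ F) (UQ H F) := by
  refine ⟨?_, ?_, ?_, ?_, ?_, ?_⟩
  · intro htop
    apply X.hN
    intro x hx
    rw [← cl_MQ H X hx, htop]
    exact Subgroup.mem_top _
  · intro q hq
    obtain ⟨f, hf, rfl⟩ := cl_surj q
    rw [cl_UQ H X] at hq
    rw [cl_MQ H X]
    exact TT_le_NN hq.2.1
  · intro m hm u hu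
    obtain ⟨f, hf, rfl⟩ := cl_surj m
    obtain ⟨s, hs, rfl⟩ := cl_surj u
    rw [cl_MQ H X] at hm
    rw [cl_UQ H X] at hu
    rw [QF_conj, cl_UQ H X]
    refine ⟨mul_mem (mul_mem hf hs) (inv_mem hf), NN_conj_TT H hm _ hu.2.1, ?_⟩
    have h1 : f * s * f⁻¹ * (f * s * f⁻¹) = f * (s * s) * f⁻¹ := by group
    have h2 : f * (s * s) * f⁻¹ = s * s := by
      rw [CCa_comm hu.2.2 hf, mul_inv_cancel_right]
    rw [h1, h2]
    exact hu.2.2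
  · intro u hu
    obtain ⟨s, hs, rfl⟩ := cl_surj u
    rw [cl_UQ H X] at hu
    rw [cl_mul, cl_one_iff]
    exact hu.2.2
  · obtain ⟨e1, h1, e2, h2, e3, h3, n1, -⟩ := h3
    refine ⟨cl h1.1, (cl_UQ H X h1.1).2 h1, fun h => n1 ((cl_one_iff h1.1).1 h)⟩
  · intro u hu hu1 x hx
    obtain ⟨s, hs, rfl⟩ := cl_surj u
    obtain ⟨f, hf, rfl⟩ := cl_surj x
    rw [cl_UQ H X] at hu
    rw [QF_conj, cl_MQ H X] at hx
    rw [cl_MQ H X]
    exact hprop H X h3 hu (fun h => hu1 ((cl_one_iff hs).2 h)) hf hx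

theorem card8 (H : Hyp C K) (X : Ctx F) (h3 : Ind3 F) : 8 ≤ Nat.card (UQ H F) := by
  have hfin : Finite (QF F) := QF_finite H F
  have c := cfg H X h3
  obtain ⟨e1, h1, e2, h2, e3, h3, n1, n2, n3, n12, n13, n23, n123⟩ := h3
  have m1 : cl h1.1 ∈ UQ H F := (cl_UQ H X h1.1).2 h1
  have m2 : cl h2.1 ∈ UQ H F := (cl_UQ H X h2.1).2 h2
  have m3 : cl h3.1 ∈ UQ H F := (cl_UQ H X h3.1).2 h3
  have k1 : cl h1.1 ≠ 1 := fun h => n1 ((cl_one_iff _).1 h)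
  have k2 : cl h2.1 ≠ 1 := fun h => n2 ((cl_one_iff _).1 h)
  have k3 : cl h3.1 ≠ 1 := fun h => n3 ((cl_one_iff _).1 h)
  have k12 : cl h1.1 * cl h2.1 ≠ 1 := fun h => n12 ((cl_one_iff (mul_mem h1.1 h2.1)).1 h)
  have k13 : cl h1.1 * cl h3.1 ≠ 1 := fun h => n13 ((cl_one_iff (mul_mem h1.1 h3.1)).1 h)
  have k23 : cl h2.1 * cl h3.1 ≠ 1 := fun h => n23 ((cl_one_iff (mul_mem h2.1 h3.1)).1 h)
  have k123 : cl h1.1 * cl h2.1 * cl h3.1 ≠ 1 := fun h =>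
    n123 ((cl_one_iff (mul_mem (mul_mem h1.1 h2.1) h3.1)).1 h)
  generalize cl h1.1 = a at *
  generalize cl h2.1 = b at *
  generalize cl h3.1 = d at *
  have inv : ∀ u ∈ UQ H F, u⁻¹ = u := fun u hu => inv_eq_of_mul_eq_one_left (c.sq u hu)
  have cm : ∀ u ∈ UQ H F, ∀ v ∈ UQ H F, u * v = v * u := fun u hu v hv => U_comm c hu hv
  let f : Fin 2 × Fin 2 × Fin 2 → UQ H F := fun p =>
    ⟨a ^ (p.1 : ℕ) * (b ^ (p.2.1 : ℕ) * d ^ (p.2.2 : ℕ)),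
      mul_mem (pow_mem m1 _) (mul_mem (pow_mem m2 _) (pow_mem m3 _))⟩
  have pw : ∀ u : QF F, u * u = 1 → ∀ i j : Fin 2,
      u ^ (i : ℕ) * u ^ (j : ℕ) = u ^ ((i + j : Fin 2) : ℕ) := by
    intro u hu i j
    fin_cases i <;> fin_cases j <;> simp [hu]
  have fm : ∀ p q, ((f p : UQ H F) : QF F) * (f q : UQ H F) = (f (p + q) : UQ H F) := by
    intro p q
    show a ^ (p.1 : ℕ) * (b ^ (p.2.1 : ℕ) * d ^ (p.2.2 : ℕ)) *
      (a ^ (q.1 : ℕ) * (b ^ (q.2.1 : ℕ) * d ^ (q.2.2 : ℕ))) =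
      a ^ ((p.1 + q.1 : Fin 2) : ℕ) * (b ^ ((p.2.1 + q.2.1 : Fin 2) : ℕ) *
        d ^ ((p.2.2 + q.2.2 : Fin 2) : ℕ))
    have e1 : Commute (b ^ (p.2.1 : ℕ) * d ^ (p.2.2 : ℕ)) (a ^ (q.1 : ℕ)) :=
      cm _ (mul_mem (pow_mem m2 _) (pow_mem m3 _)) _ (pow_mem m1 _)
    have e2 : Commute (d ^ (p.2.2 : ℕ)) (b ^ (q.2.1 : ℕ)) := cm _ (pow_mem m3 _) _ (pow_mem m2 _)
    rw [e1.mul_mul_mul_comm, e2.mul_mul_mul_comm, pw a (c.sq a m1), pw b (c.sq b m2),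
      pw d (c.sq d m3)]
  have f1 : ∀ p, p ≠ 0 → ((f p : UQ H F) : QF F) ≠ 1 := by
    rintro ⟨i, j, k⟩ hp
    show a ^ (i : ℕ) * (b ^ (j : ℕ) * d ^ (k : ℕ)) ≠ 1
    fin_cases i <;> fin_cases j <;> fin_cases k <;> simp
    · exact hp rfl
    · exact k3
    · exact k2
    · exact k23
    · exact k1
    · exact k13
    · exact k12
    · rw [← mul_assoc]
      exact k123
  have hf : Function.Injective f := by
    intro p q hpq
    by_contra hne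
    have h4 : p + q ≠ 0 := by
      intro h5
      apply hne
      clear hpq hne
      revert h5
      revert p q
      decide
    apply f1 _ h4
    rw [← fm, hpq]
    exact c.sq _ (f q).2
  have hcard := Nat.card_le_card_of_injective f hf
  simpa using hcard

end Pool.Agent.H27.E7
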