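import Pool.Agent.H33.EL.CCe
import Pool.Agent.H27.E7.QF

/-!
# E7-15: the big case, (N1)-(N3) of note 1310

`uu a = h_a(-1)`, an involution of `T1 ≤ F`, in `EE F` (`hd_neg_mem`); its weight at `b` is
`(-1)^(ip a b)` (`wt_hd`).
`uu_conj`: `NN_conj_hd`.
`n1`: let `a0, b0 ∈ PZ F` with product `-1`.  `uu a0 ∉ Z` as its weight at `b0 ∈ PZ F` is `-1`.
By `trans` there is `m ∈ F ⊓ NN` with `m (uu a0) m⁻¹ s⁻¹ ∈ Z`; `m (uu a0) m⁻¹ = uu a`,
`a = w a0 ∈ PZ F` (`NN_perm`, `PZ_perm`, `uu_conj`).  So `uu a * s⁻¹ ∈ Z` and with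
`s * s ∈ Z`, `uu a * uu a = 1` and commutativity (`TT_comm`) `s * uu a ∈ Z`.
`n2`: suppose `uu a ∈ Z`, `a ∈ PZ F`.  `even1`: `s ∈ EE F` with `wt s a ≠ 1`, so `s ∉ Z`
(`a ∈ PZ F`).  By `n1` `s * uu c ∈ Z`, `c ∈ PZ F`; so `wt s a = (wt (uu c) a)⁻¹ = (-1)^(ip c a)`.
But `wt (uu a) c = 1` (`c ∈ PZ F`, `uu a ∈ Z`), so `ip a c` is even and `wt s a = 1`,
contradiction.
`n3`: `uu a * uu b ∈ Z`.  For `s ∈ EE F` we show `wt s a = wt s b`; then `even2` applies.  If `s ∈ Z`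
both are 1.  Otherwise `s * uu c ∈ Z`, `wt s a = (-1)^(ip c a)`, `wt s b = (-1)^(ip c b)` (inverses
of signs), and `wt (uu a * uu b) c = 1` says that `ip a c + ip b c` is even.
-/

namespace Pool.Agent.H27.E7

open Pool.Agent.H33.EL

variable {n : ℕ} {C : Matrix (Fin n) (Fin n) ℤ} {K : Type} [Field K] [Fintype (Rt C)]
variable {F : Subgroup (LL C K ≃ₗ[K] LL C K)}

/-- the big case: three independent involutions and two non orthogonal roots -/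
structure Big (F : Subgroup (LL C K ≃ₗ[K] LL C K)) : Prop where
  ind : Ind3 F
  pr : ∃ a ∈ PZ F, ∃ b ∈ PZ F, ip C a.1 b.1 = -1

/-- the involution `h_a(-1)` -/
def uu (K : Type) [Field K] {C : Matrix (Fin n) (Fin n) ℤ} [Fintype (Rt C)] (a : Rt C) :
    LL C K ≃ₗ[K] LL C K := hd C a.1 (-1)

theorem uu_EE (H : Hyp C K) (X : Ctx F) (a : Rt C) : uu K a ∈ EE F := hd_neg_mem H X a

theorem uu_TT (H : Hyp C K) (a : Rt C) : uu K a ∈ TT C K := hd_mem_TT H _ _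

theorem uu_sq (H : Hyp C K) (a : Rt C) : uu K a * uu K a = 1 := by
  refine TT_ext H (mul_mem (uu_TT H a) (uu_TT H a)) (one_mem _) fun b => ?_
  rw [wt_mul H (uu_TT H a) (uu_TT H a), uu, wt_hd, wt_one, ← Units.val_mul, ← mul_zpow]
  simp

theorem wt_uu (H : Hyp C K) (a b : Rt C) : wt (uu K a) b = 1 ↔ Even (ip C a.1 b.1) := by
  rw [uu, wt_hd, CCe_neg_pow H]

theorem wt_uu' (H : Hyp C K) (a b : Rt C) : wt (uu K a) b = 1 ∨ wt (uu K a) b = -1 := by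
  rcases Int.even_or_odd (ip C a.1 b.1) with h | h
  · exact Or.inl ((wt_uu H a b).2 h)
  · right
    rw [uu, wt_hd, h.neg_one_zpow, Units.val_neg, Units.val_one]

theorem uu_conj (H : Hyp C K) {m : LL C K ≃ₗ[K] LL C K} (hm : m ∈ NN C K) {a b : Rt C} {k : K}
    (h : m (e K a) = k • e K b) : m * uu K a * m⁻¹ = uu K b := by
  refine NN_conj_hd H hm h (fun h0 => ?_) (-1)
  rw [h0, zero_smul] at h
  exact e_ne_zero a ((map_eq_zero_iff m m.injective).1 h)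

theorem n1 (H : Hyp C K) (X : Ctx F) (hb : Big F) {s : LL C K ≃ₗ[K] LL C K} (hs : s ∈ EE F)
    (hsZ : s ∉ Zc F) : ∃ a ∈ PZ F, s * uu K a ∈ Zc F := by
  obtain ⟨a0, ha0, b0, hb0, hab⟩ := hb.pr
  have hZ : uu K a0 ∉ Zc F := by
    intro h
    have h1 := hb0 _ h
    rw [wt_uu H, hab] at h1
    exact absurd h1 (by decide)
  obtain ⟨m, hmF, hmN, hm⟩ := trans H X hb.ind (uu_EE H X a0) hZ hs hsZ
  obtain ⟨w, k, -, hw, -⟩ := NN_perm H hmN
  refine ⟨w a0, (PZ_perm H X hmF (hw a0)).1 ha0, ?_⟩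
  rw [uu_conj H hmN (hw a0)] at hm
  have h1 := mul_mem hm hs.2.2
  have h2 : uu K (w a0) * s⁻¹ * (s * s) = s * uu K (w a0) := by
    rw [TT_comm H hs.2.1 (uu_TT H (w a0))]
    group
  rwa [h2] at h1

theorem n2 (H : Hyp C K) (X : Ctx F) (hb : Big F) {a : Rt C} (ha : a ∈ PZ F) :
    uu K a ∉ Zc F := by
  intro hZ
  obtain ⟨s, hs, hsa⟩ := even1 H X a
  obtain ⟨c, hc, hsc⟩ := n1 H X hb hs (fun h => hsa (ha _ h))
  have h1 := ha _ hsc
  rw [wt_mul H hs.2.1 (uu_TT H c)] at h1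
  have h2 := hc _ hZ
  rw [wt_uu H, ip_comm H.symm, ← wt_uu (K := K) H] at h2
  rw [h2, mul_one] at h1
  exact hsa h1

theorem n3 (H : Hyp C K) (X : Ctx F) (hb : Big F) {a b : Rt C} (ha : a ∈ PZ F) (hb' : b ∈ PZ F)
    (h : uu K a * uu K b ∈ Zc F) : b = a ∨ b = ng a := by
  refine even2 H X fun s hs => ?_
  by_cases hsZ : s ∈ Zc F
  · rw [ha _ hsZ, hb' _ hsZ]
  obtain ⟨c, hc, hsc⟩ := n1 H X hb hs hsZ
  have h1 := ha _ hsc
  have h2 := hb' _ hsc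
  rw [wt_mul H hs.2.1 (uu_TT H c)] at h1 h2
  have h3 := hc _ h
  rw [wt_mul H (uu_TT H a) (uu_TT H b)] at h3
  have h4 : wt (uu K c) a = wt (uu K c) b := by
    have e1 : wt (uu K c) a = 1 ↔ wt (uu K a) c = 1 := by
      rw [wt_uu H, wt_uu H, ip_comm H.symm]
    have e2 : wt (uu K c) b = 1 ↔ wt (uu K b) c = 1 := by
      rw [wt_uu H, wt_uu H, ip_comm H.symm]
    have e3 : wt (uu K a) c = 1 ↔ wt (uu K b) c = 1 := by
      constructor
      · intro h5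
        rwa [h5, one_mul] at h3
      · intro h5
        rwa [h5, mul_one] at h3
    have e4 : wt (uu K c) a = 1 ↔ wt (uu K c) b = 1 := e1.trans (e3.trans e2.symm)
    rcases wt_uu' H c a with h5 | h5
    · rw [h5, e4.1 h5]
    · rcases wt_uu' H c b with h6 | h6
      · rw [h6, e4.2 h6]
      · rw [h5, h6]
  rw [← h4] at h2
  have h5 : wt (uu K c) a ≠ 0 := by
    intro h0
    rw [h0, mul_zero] at h1
    exact zero_ne_one h1
  exact mul_right_cancel₀ h5 (h1.trans h2.symm)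

end Pool.Agent.H27.E7
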