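import Pool.Agent.H33.EL.CCe
import Pool.Agent.H27.E7.NA

/-!
# E7-24: classification of `PZ F` for type E_7 (Step 0 of note 1310)

`q8_nine`: for nine elements there is a square root of `-1`, and the elements `h_s(i)` with `s` in
the radical modulo 2 exclude relations `a + b + c = s` of norm 6 modulo 8.
`cl7`: without three independent characters and with two non orthogonal roots `PZ F` is of type A_2.
-/

namespace Pool.Agent.H27.E7

open Pool.Agent.H33.EL

variable {n : ℕ} {C : Matrix (Fin n) (Fin n) ℤ} {K : Type} [Field K] [Fintype (Rt C)]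
variable {F : Subgroup (LL C K ≃ₗ[K] LL C K)}

theorem q8_nine (H : Hyp C K) (X : Ctx F) (h7 : H7 C) (hK : Nat.card K = 9) : Q8 F := by
  intro a b c h
  have hrad : a.1 + b.1 + c.1 ∈ Rad2 C := by
    intro g
    rw [ip_add_left, ip_add_left]
    exact CCe_key3 H X h g
  rcases h7.nrm _ hrad with h1 | h1
  · exact ⟨ip C (a.1 + b.1 + c.1) (a.1 + b.1 + c.1) / 8, by omega⟩
  exfalso
  have : Finite K := Nat.finite_of_card_ne_zero (by rw [hK]; norm_num)
  let _ : Fintype K := Fintype.ofFinite K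
  obtain ⟨i, hi⟩ : IsSquare (-1 : K) := by
    rw [FiniteField.isSquare_neg_one_iff, ← Nat.card_eq_fintype_card, hK]
    norm_num
  have hi0 : i ≠ 0 := by
    rintro rfl
    simp at hi
  obtain ⟨u, hu⟩ : ∃ u : Kˣ, u * u = -1 := by
    refine ⟨Units.mk0 i hi0, ?_⟩
    ext
    simp [← hi]
  obtain ⟨s, hs⟩ : ∃ s, s = a.1 + b.1 + c.1 := ⟨_, rfl⟩
  rw [← hs] at hrad h1
  have h2 : hd C s u ∈ T1 C K := hd_mem_T1 H _ _
  have h3 := T1_le_TT H h2
  have h4 : (hd C s u : LL C K ≃ₗ[K] LL C K) * hd C s u = 1 := by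
    refine TT_ext H (mul_mem h3 h3) (one_mem _) fun g => ?_
    rw [wt_mul H h3 h3, wt_hd, wt_one, ← Units.val_mul, ← mul_zpow, hu, CCe_neg_pow H]
    exact hrad g
  have h5 : hd C s u ∈ EE F := ⟨X.hT h2, h3, by rw [h4]; exact one_mem _⟩
  have h6 := h _ h5
  rw [wt_hd, wt_hd, wt_hd, ← Units.val_mul, ← Units.val_mul, ← zpow_add, ← zpow_add,
    ← ip_add_right, ← ip_add_right, ← hs] at h6
  obtain ⟨q, hq⟩ : ∃ q, ip C s s = 2 * q := ⟨ip C s s / 2, by omega⟩
  rw [hq, zpow_mul, zpow_two, hu, CCe_neg_pow H, Int.even_iff] at h6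
  omega

/-- the classification for type E_7 -/
theorem cl7 (H : Hyp C K) (X : Ctx F) :
    (∀ a ∈ PZ F, ∀ b ∈ PZ F, ip C a.1 b.1 ≠ -1) ∨
    (∃ a b c : Rt C, c.1 = a.1 + b.1 ∧ PZ F = {a, ng a, b, ng b, c, ng c}) ∨ Big F := by
  by_cases h1 : ∀ a ∈ PZ F, ∀ b ∈ PZ F, ip C a.1 b.1 ≠ -1
  · exact Or.inl h1
  right
  push Not at h1
  obtain ⟨a, ha, b, hb, hab⟩ := h1
  by_cases h2 : Ind3 F
  · exact Or.inr ⟨h2, a, ha, b, hb, hab⟩
  · exact Or.inl (classify3 H X h2 ha hb hab)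

end Pool.Agent.H27.E7
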