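import Pool.Agent.H33.EL.GrpS

/-!
# Torus overgroups in type E_7: definitions for the abstract group theory (helper27, MP_a408f4_al)

Paper proof: note 1310 (steps 5-8).
-/

namespace Pool.Agent.H27.E7

/-- `U ≤ M < G`, `U` an elementary abelian 2-group normalised by `M`, and every element which
conjugates a non trivial element of `U` into `M` lies in `M` -/
structure Cfg {G : Type} [Group G] (M U : Subgroup G) : Prop where
  top : M ≠ ⊤
  le : U ≤ M
  nrm : ∀ m ∈ M, ∀ u ∈ U, m * u * m⁻¹ ∈ U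
  sq : ∀ u ∈ U, u * u = 1
  ne : ∃ u ∈ U, u ≠ 1
  star : ∀ u ∈ U, u ≠ 1 → ∀ x : G, x * u * x⁻¹ ∈ M → x ∈ M

/-- the conjugates of the non trivial elements of `U` -/
def II {G : Type} [Group G] (U : Subgroup G) : Set G :=
  {i | ∃ x : G, ∃ u ∈ U, u ≠ 1 ∧ i = x * u * x⁻¹}

/-- the exceptional situation which is excluded in Theorem B -/
def Star2 {G : Type} [Group G] (M U : Subgroup G) : Prop :=
  ∀ e ∈ II U, e ∉ M → ∀ z ∈ M, ∀ h ∈ M, z * z = 1 → z ≠ 1 → z * e = e * z → h ≠ 1 →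
    Odd (orderOf h) → e * h * e = h⁻¹ → z * h * z = h⁻¹ → ∀ u ∈ U, u ≠ 1 → u * h = h * u → False

/-- `B` is a non degenerate alternating `M`-invariant form on the elementary abelian 2-group `U` -/
structure Symp {G : Type} [Group G] (M U : Subgroup G) (B : G → G → ZMod 2) : Prop where
  mul_left : ∀ u ∈ U, ∀ v ∈ U, ∀ w ∈ U, B (u * v) w = B u w + B v w
  symm : ∀ u ∈ U, ∀ v ∈ U, B u v = B v u
  self : ∀ u ∈ U, B u u = 0
  nondeg : ∀ u ∈ U, u ≠ 1 → ∃ v ∈ U, B u v = 1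
  inv : ∀ m ∈ M, ∀ u ∈ U, ∀ v ∈ U, B (m * u * m⁻¹) (m * v * m⁻¹) = B u v

/-- an involution `z` (acting on `U`) with `C_U(z) = [U, z]` and `B(u, u^z) = 0` -/
structure Good {G : Type} [Group G] (U : Subgroup G) (B : G → G → ZMod 2) (z : G) : Prop where
  sq : z * z = 1
  cz : ∀ u ∈ U, z * u = u * z → ∃ v ∈ U, u = v * (z * v * z⁻¹)
  fz : ∀ u ∈ U, B u (z * u * z⁻¹) = 0

end Pool.Agent.H27.E7
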