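import Mathlib

/-!
# E7-07: finite groups with Sylow 2-subgroups of order at most 2

`oddcore`: if `|H|` is odd take `N = ⊤`.  Otherwise let `P` be a Sylow 2-subgroup, `|P| = 2` by the
hypothesis, so the normaliser of `P` centralises `P` (a group of order 2 has no non trivial
automorphism), and `MonoidHom.ker_transferSylow_isComplement'` gives a normal complement `N` of
`P`; `|N|` is odd since `|H| = |N| |P|` and `P` is a Sylow subgroup.  An
element `x` of odd order is in `N`: its image under the transfer homomorphism `H → P` has order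
dividing 2 and dividing `orderOf x`.
`two_grp`: a 2-group `P` with more than 2 elements has order divisible by 4.  If it has an element
`x` with `x² ≠ 1`: some power `y` of `x` has order 4.  Otherwise `P` is elementary abelian: take
`z ≠ 1` in `P` and `z' ∈ P` outside `{1, z}`.
-/

namespace Pool.Agent.H27.E7

theorem oddcore {H : Type} [Group H] [Finite H]
    (h : ∀ P : Subgroup H, IsPGroup 2 P → Nat.card P ≤ 2) :
    ∃ N : Subgroup H, Odd (Nat.card N) ∧ ∀ x : H, Odd (orderOf x) → x ∈ N := by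
  classical
  rcases Nat.even_or_odd (Nat.card H) with hev | hodd
  · have hmin : (Nat.card H).minFac = 2 := (Nat.minFac_eq_two_iff _).2 hev.two_dvd
    have : Fact (Nat.Prime 2) := ⟨Nat.prime_two⟩
    let P : Sylow 2 H := default
    have hPc : Nat.card (P : Subgroup H) ≤ 2 := h P P.2
    have hcyc : IsCyclic (P : Subgroup H) := by
      have hpos : 0 < Nat.card (P : Subgroup H) := Nat.card_pos
      interval_cases hc : Nat.card (P : Subgroup H)
      · have : Subsingleton (P : Subgroup H) := (Nat.card_eq_one_iff_unique.mp hc).1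
        infer_instance
      · exact isCyclic_of_prime_card hc
    have hN := IsCyclic.normalizer_le_centralizer (P := P) hmin hcyc
    refine ⟨(MonoidHom.transferSylow P hN).ker, ?_, ?_⟩
    · rw [← Nat.not_even_iff_odd, even_iff_two_dvd]
      exact MonoidHom.not_dvd_card_ker_transferSylow P hN
    · intro x hx
      rw [MonoidHom.mem_ker]
      have h1 : orderOf (MonoidHom.transferSylow P hN x) ∣ orderOf x :=
        orderOf_map_dvd _ x
      have h2 : Odd (orderOf (MonoidHom.transferSylow P hN x)) := Odd.of_dvd_nat hx h1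
      obtain ⟨k, hk⟩ := IsPGroup.iff_orderOf.mp P.2 (MonoidHom.transferSylow P hN x)
      rw [hk] at h2
      rcases Nat.eq_zero_or_pos k with h0 | h0
      · rw [h0, pow_zero] at hk
        exact orderOf_eq_one_iff.mp hk
      · exact absurd h2 (Nat.not_odd_iff_even.2 (Nat.even_pow.2 ⟨even_two, h0.ne'⟩))
  · exact ⟨⊤, by rwa [Subgroup.card_top], fun x _ => Subgroup.mem_top x⟩

theorem two_grp {H : Type} [Group H] [Finite H] (P : Subgroup H) (hP : IsPGroup 2 P)
    (h2 : 2 < Nat.card P) :
    (∃ y ∈ P, y * y ≠ 1 ∧ (y * y) * (y * y) = 1) ∨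
      ∃ z ∈ P, ∃ z' ∈ P, z * z = 1 ∧ z' * z' = 1 ∧ z ≠ 1 ∧ z' ≠ 1 ∧ z ≠ z' ∧ z * z' = z' * z := by
  classical
  by_cases hx : ∃ x ∈ P, x * x ≠ 1
  · left
    obtain ⟨x, hxP, hx2⟩ := hx
    have : Fact (Nat.Prime 2) := ⟨Nat.prime_two⟩
    obtain ⟨k, hk⟩ := IsPGroup.iff_orderOf.mp hP ⟨x, hxP⟩
    rw [Subgroup.orderOf_mk] at hk
    have hx2' : x ^ 2 ≠ 1 := by rwa [pow_two]
    have hk2 : 2 ≤ k := by
      by_contra hlt
      have : k ≤ 1 := by omega
      apply hx2'
      rw [← orderOf_dvd_iff_pow_eq_one, hk]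
      calc 2 ^ k ∣ 2 ^ 1 := pow_dvd_pow 2 this
        _ = 2 := pow_one 2
    obtain ⟨j, rfl⟩ : ∃ j, k = j + 2 := ⟨k - 2, by omega⟩
    refine ⟨x ^ (2 ^ j), P.pow_mem hxP _, ?_, ?_⟩
    · rw [← pow_add, ← two_mul, ← pow_succ']
      intro h1
      rw [← orderOf_dvd_iff_pow_eq_one, hk, Nat.pow_dvd_pow_iff_le_right (by norm_num)] at h1
      omega
    · have h4 : x ^ (2 ^ (j + 2)) = 1 := by rw [← hk]; exact pow_orderOf_eq_one x
      rw [← pow_add, ← pow_add, ← h4]
      congr 1
      ring
  · right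
    have hx' : ∀ x ∈ P, x * x = 1 := by
      intro x hxP
      by_contra hne
      exact hx ⟨x, hxP, hne⟩
    have : Finite P := inferInstance
    have : Fintype P := Fintype.ofFinite P
    have h3 : 2 < Fintype.card P := by rwa [← Nat.card_eq_fintype_card]
    obtain ⟨a, b, c, hab, hac, hbc⟩ := Fintype.two_lt_card_iff.mp h3
    -- among a, b, c choose two different from 1
    have key : ∃ z z' : P, z ≠ 1 ∧ z' ≠ 1 ∧ z ≠ z' := by
      by_cases ha : a = 1
      · exact ⟨b, c, fun hb => hab (ha.trans hb.symm), fun hc => hac (ha.trans hc.symm), hbc⟩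
      · by_cases hb : b = 1
        · exact ⟨a, c, ha, fun hc => hbc (hb.trans hc.symm), hac⟩
        · exact ⟨a, b, ha, hb, hab⟩
    obtain ⟨z, z', hz, hz', hzz⟩ := key
    refine ⟨z, z.2, z', z'.2, hx' _ z.2, hx' _ z'.2, ?_, ?_, ?_, ?_⟩
    · intro h1; exact hz (Subtype.ext h1)
    · intro h1; exact hz' (Subtype.ext h1)
    · intro h1; exact hzz (Subtype.ext h1)
    · have h1 := hx' (z * z') (P.mul_mem z.2 z'.2)
      have hzi : (z : H)⁻¹ = z := inv_eq_of_mul_eq_one_left (hx' _ z.2)
      have hzi' : (z' : H)⁻¹ = z' := inv_eq_of_mul_eq_one_left (hx' _ z'.2)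
      have h5 : ((z : H) * z')⁻¹ = z * z' := inv_eq_of_mul_eq_one_left h1
      rw [mul_inv_rev, hzi, hzi'] at h5
      exact h5.symm

end Pool.Agent.H27.E7
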