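import Pool.Agent.H27.E7.GrpA

/-!
# E7-06: centralisers of involutions of `M ∩ x M x⁻¹`

`cent_trans`: apply `Pool.Agent.H33.EL.thmS` to the group `C = centralizer {z}` (as a type),
`M' = M.subgroupOf C`, `E' = U.subgroupOf C`.
`M' ≠ ⊤`: `z' = x⁻¹ z x ∈ M` acts on `U` by conjugation, `z' z' = 1`; there is `u0 ∈ U`, `u0 ≠ 1`
which commutes with `z'` (take `v ∈ U`, `v ≠ 1`; if `v` does not commute with `z'` then
`v (z' v z'⁻¹) ≠ 1` does); so `x u0 x⁻¹ ∈ C`, and it is not in `M`, otherwise `x ∈ M` by `star`.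
The other hypotheses are clear.
`cent_dich`: if some `v ∈ U` does not commute with `z` then `u0 = v (z v z⁻¹) ≠ 1` commutes with
`z`.  Let `u ∈ U` commute with `z`.  If `u = 1` take `v = 1`.  Otherwise there is `m ∈ M` commuting
with `z`, `m u0 m⁻¹ = u`, and `u = (m v m⁻¹) (z (m v m⁻¹) z⁻¹)`.
`card_CU`: the map `U → U`, `v ↦ v (z v z⁻¹)` is a homomorphism (`U` is commutative), its kernel is
`C_U(z)` (`v² = 1`) and its image is `C_U(z)`.
-/

namespace Pool.Agent.H27.E7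

variable {G : Type} [Group G] {M U : Subgroup G}

theorem GrpC_comm_iff {a b : G} : a * b = b * a ↔ a * b * a⁻¹ = b := by
  rw [mul_inv_eq_iff_eq_mul]

theorem GrpC_norm (c : Cfg M U) {y v : G} (hy : y ∈ M) (hyy : y * y = 1) (hv : v ∈ U) :
    v * (y * v * y⁻¹) ∈ U ∧ y * (v * (y * v * y⁻¹)) = v * (y * v * y⁻¹) * y := by
  have h1 : y * v * y⁻¹ ∈ U := c.nrm y hy v hv
  refine ⟨U.mul_mem hv h1, ?_⟩
  rw [GrpC_comm_iff]
  have h2 : y * (v * (y * v * y⁻¹)) * y⁻¹ = y * v * y⁻¹ * (y * y * v * (y * y)⁻¹) := by group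
  rw [h2, hyy, U_comm c hv h1]
  group

/-- some `u0 ∈ U`, `u0 ≠ 1`, commutes with `y` -/
theorem GrpC_fix (c : Cfg M U) {y : G} (hy : y ∈ M) (hyy : y * y = 1) :
    ∃ u ∈ U, u ≠ 1 ∧ y * u = u * y := by
  obtain ⟨v, hv, hv1⟩ := c.ne
  by_cases h : y * v = v * y
  · exact ⟨v, hv, hv1, h⟩
  · obtain ⟨h1, h2⟩ := GrpC_norm c hy hyy hv
    refine ⟨_, h1, ?_, h2⟩
    intro h3
    apply h
    rw [GrpC_comm_iff]
    have h4 : v⁻¹ = v := inv_eq_of_mul_eq_one_right (c.sq v hv)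
    have h5 : y * v * y⁻¹ = v⁻¹ := (inv_eq_of_mul_eq_one_right h3).symm
    rw [h5, h4]

theorem cent_trans [Finite G] (c : Cfg M U) {x z : G} (hx : x ∉ M) (hz : z ∈ M)
    (hz' : x⁻¹ * z * x ∈ M) (h2 : z * z = 1) :
    ∀ u ∈ U, u ≠ 1 → z * u = u * z → ∀ u' ∈ U, u' ≠ 1 → z * u' = u' * z →
      ∃ m ∈ M, m * z = z * m ∧ m * u * m⁻¹ = u' := by
  have hzz : x⁻¹ * z * x * (x⁻¹ * z * x) = 1 := by
    have h1 : x⁻¹ * z * x * (x⁻¹ * z * x) = x⁻¹ * (z * z) * x := by group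
    rw [h1, h2]
    group
  obtain ⟨u0, hu0, hu01, hu0c⟩ := GrpC_fix c hz' hzz
  let C : Subgroup G := Subgroup.centralizer {z}
  have hxC : x * u0 * x⁻¹ ∈ C := by
    show x * u0 * x⁻¹ ∈ Subgroup.centralizer {z}
    rw [Subgroup.mem_centralizer_singleton_iff]
    have h1 : x * u0 * x⁻¹ * z = x * (u0 * (x⁻¹ * z * x)) * x⁻¹ := by group
    have h3 : z * (x * u0 * x⁻¹) = x * (x⁻¹ * z * x * u0) * x⁻¹ := by group
    rw [h1, h3, hu0c]
  have hxM : x * u0 * x⁻¹ ∉ M := fun h => hx (c.star u0 hu0 hu01 x h)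
  intro u hu hu1 hzu u' hu' hu1' hzu'
  have huC : u ∈ C := Subgroup.mem_centralizer_singleton_iff.2 hzu.symm
  have huC' : u' ∈ C := Subgroup.mem_centralizer_singleton_iff.2 hzu'.symm
  obtain ⟨m, hm, hmu⟩ := Pool.Agent.H33.EL.thmS (F := C) (M.subgroupOf C) (U.subgroupOf C)
    (by
      intro h
      have h1 : (⟨x * u0 * x⁻¹, hxC⟩ : C) ∈ M.subgroupOf C := by
        rw [h]
        exact Subgroup.mem_top _
      exact hxM (Subgroup.mem_subgroupOf.1 h1))
    (by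
      intro e he
      exact Subgroup.mem_subgroupOf.2 (c.le (Subgroup.mem_subgroupOf.1 he)))
    (by
      intro m hm e he
      exact Subgroup.mem_subgroupOf.2
        (c.nrm _ (Subgroup.mem_subgroupOf.1 hm) _ (Subgroup.mem_subgroupOf.1 he)))
    (by
      intro e he
      exact Subtype.ext (c.sq _ (Subgroup.mem_subgroupOf.1 he)))
    (by
      intro e he he1 y hy
      refine Subgroup.mem_subgroupOf.2 (c.star (e : G) (Subgroup.mem_subgroupOf.1 he) ?_ (y : G)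
        (Subgroup.mem_subgroupOf.1 hy))
      intro h
      exact he1 (Subtype.ext h))
    ⟨u, huC⟩ (Subgroup.mem_subgroupOf.2 hu) (fun h => hu1 (congrArg Subtype.val h))
    ⟨u', huC'⟩ (Subgroup.mem_subgroupOf.2 hu') (fun h => hu1' (congrArg Subtype.val h))
  exact ⟨(m : G), Subgroup.mem_subgroupOf.1 hm, Subgroup.mem_centralizer_singleton_iff.1 m.2,
    congrArg Subtype.val hmu⟩

theorem cent_dich [Finite G] (c : Cfg M U) {x z : G} (hx : x ∉ M) (hz : z ∈ M)
    (hz' : x⁻¹ * z * x ∈ M) (h2 : z * z = 1) :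
    (∀ u ∈ U, z * u = u * z) ∨
      ∀ u ∈ U, z * u = u * z → ∃ v ∈ U, u = v * (z * v * z⁻¹) := by
  by_cases h : ∀ u ∈ U, z * u = u * z
  · exact Or.inl h
  · right
    push Not at h
    obtain ⟨v, hv, hvz⟩ := h
    obtain ⟨h1, h3⟩ := GrpC_norm c hz h2 hv
    have h4 : v * (z * v * z⁻¹) ≠ 1 := by
      intro h5
      apply hvz
      rw [GrpC_comm_iff]
      have h6 : v⁻¹ = v := inv_eq_of_mul_eq_one_right (c.sq v hv)
      have h7 : z * v * z⁻¹ = v⁻¹ := (inv_eq_of_mul_eq_one_right h5).symm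
      rw [h7, h6]
    intro u hu huz
    by_cases hu1 : u = 1
    · refine ⟨1, U.one_mem, ?_⟩
      rw [hu1]
      group
    · obtain ⟨m, hm, hmz, hmu⟩ := cent_trans c hx hz hz' h2 _ h1 h4 h3 u hu hu1 huz
      refine ⟨m * v * m⁻¹, c.nrm m hm v hv, ?_⟩
      have h8 : z * (m * v * m⁻¹) * z⁻¹ = m * (z * v * z⁻¹) * m⁻¹ := by
        have h9 : z * (m * v * m⁻¹) * z⁻¹ = z * m * v * (z * m)⁻¹ := by group
        have h10 : m * (z * v * z⁻¹) * m⁻¹ = m * z * v * (m * z)⁻¹ := by group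
        rw [h9, h10, hmz]
      rw [h8, ← hmu]
      group

theorem card_CU [Finite G] (c : Cfg M U) {z : G} (hz : z ∈ M) (h2 : z * z = 1)
    (hC : ∀ u ∈ U, z * u = u * z → ∃ v ∈ U, u = v * (z * v * z⁻¹)) :
    Nat.card (U ⊓ Subgroup.centralizer {z} : Subgroup G) ^ 2 = Nat.card U := by
  have hmem : ∀ v : U, (v : G) * (z * (v : G) * z⁻¹) ∈ U := fun v =>
    (GrpC_norm c hz h2 v.2).1
  let f : U →* U :=
    { toFun := fun v => ⟨(v : G) * (z * (v : G) * z⁻¹), hmem v⟩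
      map_one' := by
        apply Subtype.ext
        show (1 : G) * (z * 1 * z⁻¹) = 1
        group
      map_mul' := by
        intro a b
        apply Subtype.ext
        show (a : G) * b * (z * ((a : G) * b) * z⁻¹)
          = (a : G) * (z * (a : G) * z⁻¹) * ((b : G) * (z * (b : G) * z⁻¹))
        have h1 : (a : G) * b * (z * ((a : G) * b) * z⁻¹)
            = (a : G) * ((b : G) * (z * (a : G) * z⁻¹)) * (z * (b : G) * z⁻¹) := by group
        rw [h1, U_comm c b.2 (c.nrm z hz _ a.2)]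
        group }
  have hker : f.ker = (U ⊓ Subgroup.centralizer {z} : Subgroup G).subgroupOf U := by
    ext v
    rw [MonoidHom.mem_ker, Subgroup.mem_subgroupOf, Subgroup.mem_inf,
      Subgroup.mem_centralizer_singleton_iff]
    have h4 : (v : G)⁻¹ = v := inv_eq_of_mul_eq_one_right (c.sq v v.2)
    constructor
    · intro h
      refine ⟨v.2, ?_⟩
      have h3 : (v : G) * (z * (v : G) * z⁻¹) = 1 := congrArg Subtype.val h
      have h5 : z * (v : G) * z⁻¹ = (v : G)⁻¹ := (inv_eq_of_mul_eq_one_right h3).symm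
      rw [h4] at h5
      exact (GrpC_comm_iff.2 h5).symm
    · rintro ⟨_, h⟩
      apply Subtype.ext
      show (v : G) * (z * (v : G) * z⁻¹) = 1
      rw [GrpC_comm_iff.1 h.symm]
      exact c.sq v v.2
  have hran : f.range = (U ⊓ Subgroup.centralizer {z} : Subgroup G).subgroupOf U := by
    ext v
    rw [MonoidHom.mem_range, Subgroup.mem_subgroupOf, Subgroup.mem_inf,
      Subgroup.mem_centralizer_singleton_iff]
    constructor
    · rintro ⟨w, rfl⟩
      exact ⟨hmem w, ((GrpC_norm c hz h2 w.2).2).symm⟩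
    · rintro ⟨_, h⟩
      obtain ⟨w, hw, hvw⟩ := hC v v.2 h.symm
      exact ⟨⟨w, hw⟩, Subtype.ext hvw.symm⟩
  have h5 : Nat.card f.ker * f.ker.index = Nat.card U := f.ker.card_mul_index
  rw [Subgroup.index_ker, hran, hker] at h5
  have h6 : Nat.card ((U ⊓ Subgroup.centralizer {z} : Subgroup G).subgroupOf U)
      = Nat.card (U ⊓ Subgroup.centralizer {z} : Subgroup G) :=
    Nat.card_congr (Subgroup.subgroupOfEquivOfLe inf_le_left).toEquiv
  rw [h6] at h5
  rw [pow_two]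
  exact h5

end Pool.Agent.H27.E7
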