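import Pool.Agent.H27.E7.GrpA

/-!
# E7-04: counting

The map `II U → G ⧸ M`, `i ↦` the unique fixed point (`fix_unique`), is surjective and its fibre
over `g M` is `g U# g⁻¹` (`II_M`, `II_conj`), so `|II U| = |G/M| * |U#|`, `U# = U - {1}`.
(Or: the map `(G ⧸ M) × U# → II U`, `(q, u) ↦ q.out * u * q.out⁻¹` is bijective: surjective by
`nrm`, injective by `fix_unique`.)
The map `φ : II U → G ⧸ M`, `i ↦ i M`.  The fibre of `φ` over the base point `M` is `U#` (`II_M`,
`mem_II`).  So the sum of the sizes of the fibres over the other `|G/M| - 1 ≥ 1` points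
(`M ≠ ⊤`) is `(|G/M| - 1) * |U#|`, and there is a point `α ≠ M` whose fibre has at least
`|U#| ≥ 1` elements.  Take `e` in it: `e ∉ M`, and the fibre is `{i ∈ II U : e⁻¹ i ∈ M}`,
`e⁻¹ = e` (`II_inv`).
-/

namespace Pool.Agent.H27.E7

variable {G : Type} [Group G] {M U : Subgroup G}

theorem card_II [Finite G] (c : Cfg M U) :
    Nat.card {i : G // i ∈ II U} = Nat.card (G ⧸ M) * Nat.card {u : G // u ∈ U ∧ u ≠ 1} := by
  rw [← Nat.card_prod]
  symm
  have hin : ∀ p : (G ⧸ M) × {u : G // u ∈ U ∧ u ≠ 1},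
      p.1.out * p.2.1 * p.1.out⁻¹ ∈ II U := by
    rintro ⟨q, u, hu, h1⟩
    exact ⟨q.out, u, hu, h1, rfl⟩
  refine Nat.card_congr (Equiv.ofBijective
    (fun p => (⟨p.1.out * p.2.1 * p.1.out⁻¹, hin p⟩ : {i : G // i ∈ II U})) ⟨?_, ?_⟩)
  · rintro ⟨q, u, hu, h1⟩ ⟨q', u', hu', h1'⟩ h
    have h2 : q.out * u * q.out⁻¹ = q'.out * u' * q'.out⁻¹ := congrArg Subtype.val h
    have hm1 : q.out⁻¹ * (q.out * u * q.out⁻¹) * q.out ∈ M := by
      have : q.out⁻¹ * (q.out * u * q.out⁻¹) * q.out = u := by group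
      rw [this]
      exact c.le hu
    have hm2 : q'.out⁻¹ * (q.out * u * q.out⁻¹) * q'.out ∈ M := by
      have : q'.out⁻¹ * (q'.out * u' * q'.out⁻¹) * q'.out = u' := by group
      rw [h2, this]
      exact c.le hu'
    have h3 := fix_unique c (hin (q, ⟨u, hu, h1⟩)) hm1 hm2
    have h4 : q = q' := by
      rw [← Quotient.out_eq' q, ← Quotient.out_eq' q']
      exact QuotientGroup.eq.2 h3
    subst h4
    have h5 : u = u' := by
      have h6 : q.out * u = q.out * u' := mul_right_cancel h2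
      exact mul_left_cancel h6
    subst h5
    rfl
  · rintro ⟨i, x, u, hu, h1, rfl⟩
    obtain ⟨m, hm⟩ := QuotientGroup.mk_out_eq_mul M x
    have hx : x = ((x : G ⧸ M)).out * (m : G)⁻¹ := by rw [hm]; group
    have hu' : (m : G)⁻¹ * u * (m : G)⁻¹⁻¹ ∈ U := c.nrm _ (M.inv_mem m.2) u hu
    have h1' : (m : G)⁻¹ * u * (m : G)⁻¹⁻¹ ≠ 1 := by
      intro h
      apply h1
      have h2 : (m : G) * ((m : G)⁻¹ * u * (m : G)⁻¹⁻¹) * (m : G)⁻¹ = (m : G) * 1 * (m : G)⁻¹ := by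
        rw [h]
      have h3 : (m : G) * ((m : G)⁻¹ * u * (m : G)⁻¹⁻¹) * (m : G)⁻¹ = u := by group
      rw [h3] at h2
      rw [h2]
      group
    refine ⟨((x : G ⧸ M), ⟨_, hu', h1'⟩), ?_⟩
    apply Subtype.ext
    change ((x : G ⧸ M)).out * ((m : G)⁻¹ * u * (m : G)⁻¹⁻¹) * ((x : G ⧸ M)).out⁻¹ = x * u * x⁻¹
    rw [hm]
    group

theorem exists_big [Finite G] (c : Cfg M U) :
    ∃ e ∈ II U, e ∉ M ∧
      Nat.card {u : G // u ∈ U ∧ u ≠ 1} ≤ Nat.card {i : G // i ∈ II U ∧ e * i ∈ M} := by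
  classical
  haveI : Fintype (G ⧸ M) := Fintype.ofFinite _
  -- the fibres
  let T : (G ⧸ M) → ℕ := fun q => Nat.card {i : {i : G // i ∈ II U} // ((i.1 : G) : G ⧸ M) = q}
  have hsum : Nat.card {i : G // i ∈ II U} = ∑ q : G ⧸ M, T q := by
    rw [← Nat.card_sigma]
    exact Nat.card_congr (Equiv.sigmaFiberEquiv
      (fun i : {i : G // i ∈ II U} => ((i.1 : G) : G ⧸ M))).symm
  have hone : T ((1 : G) : G ⧸ M) = Nat.card {u : G // u ∈ U ∧ u ≠ 1} := by
    refine Nat.card_congr ⟨fun i => ⟨i.1.1, ?_⟩, fun u => ⟨⟨u.1, mem_II u.2.1 u.2.2⟩, ?_⟩, ?_, ?_⟩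
    · have h1 := i.2
      have h2 : i.1.1 ∈ M := by
        have h3 := QuotientGroup.eq.1 h1.symm
        simpa using h3
      exact II_M c i.1.2 h2
    · apply QuotientGroup.eq.2
      have h1 := M.inv_mem (c.le u.2.1)
      simpa using h1
    · intro i
      rfl
    · intro u
      rfl
  have hcard := card_II c
  rw [hsum, ← Finset.add_sum_erase Finset.univ T (Finset.mem_univ ((1 : G) : G ⧸ M)), hone] at hcard
  set k := Nat.card {u : G // u ∈ U ∧ u ≠ 1} with hk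
  have hk1 : 1 ≤ k := by
    obtain ⟨u, hu, h1⟩ := c.ne
    haveI : Nonempty {u : G // u ∈ U ∧ u ≠ 1} := ⟨⟨u, hu, h1⟩⟩
    exact Nat.card_pos
  -- a point outside of the base point with a large fibre
  have hq : ∃ q : G ⧸ M, q ≠ ((1 : G) : G ⧸ M) ∧ k ≤ T q := by
    by_contra hcon
    push Not at hcon
    have hne : (Finset.univ.erase ((1 : G) : G ⧸ M)).Nonempty := by
      have htop := c.top
      have : ∃ x : G, x ∉ M := by
        by_contra h
        push Not at h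
        exact htop ((Subgroup.eq_top_iff' M).2 h)
      obtain ⟨x, hx⟩ := this
      refine ⟨(x : G ⧸ M), ?_⟩
      rw [Finset.mem_erase]
      refine ⟨?_, Finset.mem_univ _⟩
      intro h
      apply hx
      have h3 := QuotientGroup.eq.1 h.symm
      simpa using h3
    have hlt : ∑ q ∈ Finset.univ.erase ((1 : G) : G ⧸ M), T q
        < ∑ _q ∈ Finset.univ.erase ((1 : G) : G ⧸ M), k := by
      refine Finset.sum_lt_sum_of_nonempty hne ?_
      intro q hq
      exact hcon q (Finset.ne_of_mem_erase hq)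
    rw [Finset.sum_const, Finset.card_erase_of_mem (Finset.mem_univ _), Finset.card_univ,
      smul_eq_mul] at hlt
    have hc : Nat.card (G ⧸ M) = Fintype.card (G ⧸ M) := Nat.card_eq_fintype_card
    rw [hc] at hcard
    have hpos : 1 ≤ Fintype.card (G ⧸ M) := Fintype.card_pos_iff.2 ⟨((1 : G) : G ⧸ M)⟩
    obtain ⟨n, hn⟩ : ∃ n, Fintype.card (G ⧸ M) = n + 1 := ⟨Fintype.card (G ⧸ M) - 1, by omega⟩
    rw [hn] at hcard hlt
    rw [Nat.add_sub_cancel] at hlt
    have : (n + 1) * k = n * k + k := by ring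
    omega
  obtain ⟨q, hq1, hq2⟩ := hq
  have hTpos : 0 < T q := by omega
  have hTne : Nonempty {i : {i : G // i ∈ II U} // ((i.1 : G) : G ⧸ M) = q} :=
    (Nat.card_pos_iff.1 hTpos).1
  obtain ⟨⟨e, he⟩, heq⟩ := hTne
  change (e : G ⧸ M) = q at heq
  refine ⟨e, he, ?_, ?_⟩
  · intro h
    apply hq1
    rw [← heq]
    apply QuotientGroup.eq.2
    have h1 := M.inv_mem h
    simpa using h1
  · refine hq2.trans (le_of_eq ?_)
    refine Nat.card_congr ⟨fun i => ⟨i.1.1, i.1.2, ?_⟩, fun i => ⟨⟨i.1, i.2.1⟩, ?_⟩, ?_, ?_⟩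
    · have h1 : (e : G ⧸ M) = ((i.1.1 : G) : G ⧸ M) := by rw [heq, i.2]
      have h2 := QuotientGroup.eq.1 h1
      rwa [II_inv c he] at h2
    · change ((i.1 : G) : G ⧸ M) = q
      rw [← heq]
      symm
      apply QuotientGroup.eq.2
      rw [II_inv c he]
      exact i.2.2
    · intro i
      rfl
    · intro i
      rfl

end Pool.Agent.H27.E7
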