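import Pool.Agent.H27.E7.GrpA

/-!
# E7-03: property (N)

Let `e ∈ II U`, `e ∉ M`, `h ∈ M` of odd order inverted by `e`, `u ∈ U`, `u ≠ 1` commuting with `h`.
Suppose `h ≠ 1`.  `k = orderOf (u * e)`, `t = u * e`; `u t u = t⁻¹`, `e t e = t⁻¹`.
Every element of `D = closure {u, e}` normalises `zpowers h`, more precisely: for `d ∈ D`,
`d h d⁻¹ = h` or `d h d⁻¹ = h⁻¹` (closure induction).  So if `d u d⁻¹ = e` with `d ∈ D` (or
`d ∈ zpowers t`) then `e = d u d⁻¹` commutes with `d h d⁻¹ = h^±1`, so with `h`; then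
`h = e h e = h⁻¹`, `h² = 1` and `h = 1` since the order is odd.
* `k` odd, `k = 2 j + 1`: `t^j u t^(-j) = t^(2j) u = t⁻¹ u = e u u = e` up to the sign of `j`
  (`u t u = t⁻¹`, so `t^j u = u t^(-j)`, `t^j u t^(-j) = u t^(-2j) = u t = u u e = e`).
  Contradiction.
* `k = 2 j`: `z = t^j`, `z ≠ 1`, `z z = 1`, `z` commutes with `u` and `e` (`u z u = z⁻¹ = z`).
  `z ∈ M` by `star`: `z u z⁻¹ = u ∈ M`.  If `j` is even, `v = t^(j/2)`, `v² = z`:
  `v u v⁻¹ = u v⁻² = u z`; so `u z ∈ II U`, `u z ∈ M`, `u z ∈ U` (`II_M`), `z ∈ U`, `z ≠ 1`; as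
  `e⁻¹ z e = z ∈ M`, `fix_unique` (`i = z`, `g = 1`, `k = e`) gives `e ∈ M`, contradiction.
  So `j` is odd and `u (e z) = t z = t^(1+j)` with `1 + j = 2 l`: `d = t^l` or its inverse:
  `d⁻¹ u d = u d² = u t^(2l) = u t z = e z`.  So `e z` commutes with `h` (as above), so
  `z h z = e (e z h (e z)⁻¹) e`-type computation: `z h z⁻¹ = e⁻¹ h e = e h e = h⁻¹`.
  `Star2` applied to `e, z, h, u` gives the contradiction.
-/

namespace Pool.Agent.H27.E7

variable {G : Type} [Group G] {M U : Subgroup G}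

theorem eq_one_of_comm {e h : G} (he2 : e * e = 1) (ho : Odd (orderOf h))
    (heh : e * h * e = h⁻¹) (hc : e * h = h * e) : h = 1 := by
  have h1 : h = h⁻¹ := by
    rw [hc, mul_assoc, he2, mul_one] at heh
    exact heh
  have h2 : h ^ 2 = 1 := by
    rw [pow_two]
    calc h * h = h * h⁻¹ := by rw [← h1]
      _ = 1 := mul_inv_cancel h
  have h3 : orderOf h ∣ 2 := orderOf_dvd_of_pow_eq_one h2
  rcases (Nat.dvd_prime Nat.prime_two).1 h3 with h4 | h4
  · exact orderOf_eq_one_iff.1 h4
  · rw [h4] at ho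
    exact absurd ho (by decide)

/-- conjugating by `a`: if `b = a * u * a⁻¹`, `u` commutes with `h` and `a * h * a⁻¹ = h ^ ±1`, then
`b` commutes with `h` -/
theorem comm_of_conj {a b u h : G} (hb : b = a * u * a⁻¹) (huh : u * h = h * u)
    (ha : a * h * a⁻¹ = h ∨ a * h * a⁻¹ = h⁻¹) : b * h = h * b := by
  have h1 : Commute u h := huh
  have h2 : Commute (a * u * a⁻¹) (a * h * a⁻¹) := by
    change (a * u * a⁻¹) * (a * h * a⁻¹) = (a * h * a⁻¹) * (a * u * a⁻¹)
    calc (a * u * a⁻¹) * (a * h * a⁻¹) = a * (u * h) * a⁻¹ := by group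
      _ = a * (h * u) * a⁻¹ := by rw [huh]
      _ = (a * h * a⁻¹) * (a * u * a⁻¹) := by group
  rw [← hb] at h2
  rcases ha with ha | ha
  · rw [ha] at h2
    exact h2
  · rw [ha] at h2
    exact (Commute.inv_right_iff.1 h2)

theorem propN [Finite G] (c : Cfg M U) (hB : Star2 M U) {e h u : G} (he : e ∈ II U) (heM : e ∉ M)
    (hM : h ∈ M) (ho : Odd (orderOf h)) (heh : e * h * e = h⁻¹) (hu : u ∈ U) (hu1 : u ≠ 1)
    (huh : u * h = h * u) : h = 1 := by
  by_contra hne
  have he2 : e * e = 1 := II_sq c he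
  have hei : e⁻¹ = e := II_inv c he
  have hu2 : u * u = 1 := c.sq u hu
  have hui : u⁻¹ = u := inv_eq_of_mul_eq_one_left hu2
  obtain ⟨t, ht⟩ : ∃ t, t = u * e := ⟨_, rfl⟩
  have hti : t⁻¹ = e * u := by rw [ht, mul_inv_rev, hei, hui]
  have het : e = u * t := by rw [ht, ← mul_assoc, hu2, one_mul]
  have het' : e = t⁻¹ * u := by rw [hti, mul_assoc, hu2, mul_one]
  have hsc : ∀ n : ℕ, u * (t ^ n)⁻¹ = t ^ n * u := by
    intro n
    have h1 : SemiconjBy u t⁻¹ t := by
      change u * t⁻¹ = t * u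
      rw [hti, ht, mul_assoc]
    have h2 := h1.pow_right n
    rw [inv_pow] at h2
    exact h2
  have hcj : ∀ n : ℕ, t ^ n * u * (t ^ n)⁻¹ = t ^ (2 * n) * u := by
    intro n
    rw [mul_assoc, hsc, ← mul_assoc, two_mul, pow_add]
  have hth : t * h * t⁻¹ = h⁻¹ := by
    rw [hti, ht]
    calc u * e * h * (e * u) = u * (e * h * e) * u := by group
      _ = u * h⁻¹ * u := by rw [heh]
      _ = (u * h * u)⁻¹ := by rw [mul_inv_rev, mul_inv_rev, hui, mul_assoc]
      _ = h⁻¹ := by rw [huh, mul_assoc, hu2, mul_one]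
  have hhp : ∀ n : ℕ, t ^ n * h * (t ^ n)⁻¹ = h ∨ t ^ n * h * (t ^ n)⁻¹ = h⁻¹ := by
    intro n
    induction n with
    | zero => left; simp
    | succ n ih =>
      have h1 : t ^ (n + 1) * h * (t ^ (n + 1))⁻¹ = t ^ n * (t * h * t⁻¹) * (t ^ n)⁻¹ := by
        rw [pow_succ]; group
      rw [h1, hth]
      rcases ih with ih | ih
      · right
        have := congrArg (fun x => x⁻¹) ih
        simp only [mul_inv_rev, inv_inv] at this
        rw [mul_assoc]
        exact this
      · left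
        have := congrArg (fun x => x⁻¹) ih
        simp only [mul_inv_rev, inv_inv] at this
        rw [mul_assoc]
        exact this
  have hk : t ^ orderOf t = 1 := pow_orderOf_eq_one t
  have hk0 : 0 < orderOf t := orderOf_pos t
  rcases Nat.even_or_odd' (orderOf t) with ⟨j, hj | hj⟩
  · -- `orderOf t = 2 j`
    have hj0 : 0 < j := by omega
    obtain ⟨z, hz⟩ : ∃ z, z = t ^ j := ⟨_, rfl⟩
    have hz2 : z * z = 1 := by
      rw [hz, ← pow_add, ← two_mul, ← hj, hk]
    have hz1 : z ≠ 1 := by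
      rw [hz]
      exact pow_ne_one_of_lt_orderOf (by omega) (by omega)
    have hzi : z⁻¹ = z := inv_eq_of_mul_eq_one_left hz2
    have hzu : u * z = z * u := by
      have := hsc j
      rw [← hz, hzi] at this
      exact this
    have hzt : z * t = t * z := by
      rw [hz]
      exact ((Commute.refl t).pow_left j)
    have hze : z * e = e * z := by
      rw [het, ← mul_assoc, ← hzu, mul_assoc, hzt, mul_assoc]
    have hzM : z ∈ M := by
      refine c.star u hu hu1 z ?_
      rw [← hzu, mul_assoc, mul_inv_cancel, mul_one]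
      exact c.le hu
    rcases Nat.even_or_odd' j with ⟨i, hi | hi⟩
    · -- `j = 2 i`
      have h1 : t ^ i * u * (t ^ i)⁻¹ = u * z := by
        rw [hcj, ← hi, ← hz, hzu]
      have h2 : u * z ∈ II U := by
        rw [← h1]
        exact II_conj (mem_II hu hu1) _
      have h3 : u * z ∈ M := M.mul_mem (c.le hu) hzM
      have h4 := (II_M c h2 h3).1
      have h5 : z ∈ U := by
        have := U.mul_mem hu h4
        rwa [← mul_assoc, hu2, one_mul] at this
      have h6 := fix_unique c (i := z) (g := 1) (k := e) (mem_II h5 hz1)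
        (by simpa using hzM)
        (by rw [mul_assoc, hze, ← mul_assoc, inv_mul_cancel, one_mul]; exact hzM)
      rw [inv_one, one_mul] at h6
      exact heM h6
    · -- `j = 2 i + 1`
      have h1 : e * z = t ^ i * u * (t ^ i)⁻¹ := by
        rw [hcj]
        have h2 : t * t ^ (2 * i) = z := by rw [hz, hi, pow_succ']
        rw [het', mul_assoc, hzu, ← h2]
        group
      have h2 := comm_of_conj h1 huh (hhp i)
      have h3 : z * h * z = h⁻¹ := by
        have h4 : z = e * (e * z) := by rw [← mul_assoc, he2, one_mul]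
        calc z * h * z = e * ((e * z) * h) * z := by rw [← mul_assoc e, ← mul_assoc e, he2, one_mul]
          _ = e * (h * (e * z)) * z := by rw [h2]
          _ = e * h * e * (z * z) := by group
          _ = h⁻¹ := by rw [hz2, mul_one, heh]
      exact hB e he heM z hzM h hM hz2 hz1 hze hne ho heh h3 u hu hu1 huh
  · -- `orderOf t = 2 j + 1`
    have h1 : e = t ^ j * u * (t ^ j)⁻¹ := by
      rw [hcj]
      have h2 : t * t ^ (2 * j) = 1 := by rw [← pow_succ', ← hj, hk]
      have h3 : t ^ (2 * j) = t⁻¹ := eq_inv_of_mul_eq_one_right h2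
      rw [h3]
      exact het'
    have h2 := comm_of_conj h1 huh (hhp j)
    exact hne (eq_one_of_comm he2 ho heh h2)

end Pool.Agent.H27.E7
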