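import Pool.Agent.H27.E7.GrpA

/-!
# E7-02: two elements of `II U` which map the base point to the same other point

`r = e e' ∈ M`, `e ∉ M`.  Also `e r e = e' e = r⁻¹ ∈ M`.  Suppose that `o(r) = 2^s k'` is even,
`s ≥ 1`, `k'` odd.  `e'' = e r^(k')`: as `e r = e'` (`e e = 1`), `e'' = e' r^(k' - 1)` and
`k' - 1 = 2 j`, `e' r^(2j) = r^(-j) e' r^j` (since `e' r e' = r⁻¹`), so `e'' ∈ II U` (`II_conj`).
`P = closure {e, e''}` is a 2-group: the subgroup `zpowers (r^k')` of order `2^s` has index `≤ 2`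
in it (all elements of `P` are `(r^k')^i` or `e (r^k')^i`); alternatively: the set
`{(r^k')^i} ∪ {e (r^k')^i}` is a subgroup `P`, of order dividing `2^(s+1)`
(or: every `x ∈ P` has `x^(2^(s+1)) = 1`: `(e (r^k')^i)² = 1` as `e` inverts `r`).
By `pfix` there is `g` with `g⁻¹ e g, g⁻¹ e'' g ∈ M`, so both are in `U` (`II_conj`, `II_M`), and
`w = g⁻¹ (e e'') g = g⁻¹ r^(k') g ∈ U`, `w ≠ 1`; so `i = r^(k') = g w g⁻¹ ∈ II U`.  But `i ∈ M`
and `e⁻¹ i e = e r^(k') e = (r⁻¹)^(k') ∈ M`: `fix_unique` with `g = 1`, `k = e` gives `e ∈ M`,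
contradiction.
-/

namespace Pool.Agent.H27.E7

variable {G : Type} [Group G] {M U : Subgroup G}

theorem oddO [Finite G] (c : Cfg M U) {e e' : G} (he : e ∈ II U) (he' : e' ∈ II U) (heM : e ∉ M)
    (h : e * e' ∈ M) : Odd (orderOf (e * e')) := by
  have hee : e * e = 1 := II_sq c he
  have hee' : e' * e' = 1 := II_sq c he'
  have hei : e⁻¹ = e := II_inv c he
  have hei' : e'⁻¹ = e' := II_inv c he'
  by_contra hodd
  obtain ⟨s, m, hm, hn⟩ := Nat.exists_eq_two_pow_mul_odd (orderOf_pos (e * e')).ne'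
  obtain ⟨j, hj⟩ := hm
  generalize hr : e * e' = r at *
  have her : e * r = e' := by rw [← hr, ← mul_assoc, hee, one_mul]
  have hinv : e * r * e = r⁻¹ := by rw [her, ← hr, mul_inv_rev, hei, hei']
  have hinv' : e' * r * e' = r⁻¹ := by
    rw [← hr, mul_inv_rev, hei, hei', mul_assoc, mul_assoc, hee', mul_one]
  have hconj : ∀ k : ℕ, e * r ^ k * e = (r ^ k)⁻¹ := by
    intro k
    have h1 : e * r ^ k * e = (e * r * e⁻¹) ^ k := by rw [conj_pow, hei]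
    rw [h1, hei, hinv, inv_pow]
  have hconj' : ∀ k : ℕ, e' * r ^ k * e' = (r ^ k)⁻¹ := by
    intro k
    have h1 : e' * r ^ k * e' = (e' * r * e'⁻¹) ^ k := by rw [conj_pow, hei']
    rw [h1, hei', hinv', inv_pow]
  have hρ : ∃ ρ : G, ρ = r ^ m := ⟨_, rfl⟩
  obtain ⟨ρ, hρ⟩ := hρ
  have hρM : ρ ∈ M := by rw [hρ]; exact M.pow_mem h m
  have hρe : e * ρ * e = ρ⁻¹ := by rw [hρ]; exact hconj m
  have hρ2 : ρ ^ (2 ^ s) = 1 := by
    rw [hρ, ← pow_mul, mul_comm, ← hn]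
    exact pow_orderOf_eq_one r
  have hρ1 : ρ ≠ 1 := by
    intro h1
    rw [hρ] at h1
    have h2 := orderOf_dvd_of_pow_eq_one h1
    rw [Nat.not_odd_iff_even] at hodd
    have h3 := hodd.two_dvd.trans h2
    omega
  have he'' : e * ρ ∈ II U := by
    have h1 : e * ρ = (r ^ j)⁻¹ * e' * ((r ^ j)⁻¹)⁻¹ := by
      rw [hρ, hj, pow_succ', two_mul, pow_add, ← mul_assoc, ← mul_assoc, her, inv_inv,
        ← hconj' j, mul_assoc (e' * r ^ j) e' e', hee', mul_one]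
    rw [h1]
    exact II_conj he' _
  have hez : ∀ i : ℤ, e * ρ ^ i * e = ρ ^ (-i) := by
    intro i
    have h1 : e * ρ ^ i * e = (e * ρ * e⁻¹) ^ i := by rw [conj_zpow, hei]
    rw [h1, hei, hρe, inv_zpow, zpow_neg]
  have hze : ∀ i : ℤ, ρ ^ i * e = e * ρ ^ (-i) := by
    intro i
    rw [← hez i, ← mul_assoc, ← mul_assoc, hee, one_mul]
  let P : Subgroup G :=
    { carrier := {x | ∃ i : ℤ, x = ρ ^ i ∨ x = e * ρ ^ i}
      mul_mem' := by
        rintro x y ⟨i, hi | hi⟩ ⟨k, hk | hk⟩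
        · exact ⟨i + k, Or.inl (by rw [hi, hk, zpow_add])⟩
        · exact ⟨-i + k, Or.inr (by rw [hi, hk, ← mul_assoc, hze, mul_assoc, zpow_add])⟩
        · exact ⟨i + k, Or.inr (by rw [hi, hk, mul_assoc, zpow_add])⟩
        · exact ⟨-i + k, Or.inl (by rw [hi, hk, ← mul_assoc, hez, zpow_add])⟩
      one_mem' := ⟨0, Or.inl (by rw [zpow_zero])⟩
      inv_mem' := by
        rintro x ⟨i, hi | hi⟩
        · exact ⟨-i, Or.inl (by rw [hi, zpow_neg])⟩
        · exact ⟨i, Or.inr (by rw [hi, mul_inv_rev, hei, ← zpow_neg, hze, neg_neg])⟩ }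
  have hP : IsPGroup 2 P := by
    rintro ⟨x, i, hi | hi⟩
    · refine ⟨s, Subtype.ext ?_⟩
      show x ^ (2 ^ s) = 1
      rw [hi, ← zpow_natCast, ← zpow_mul, mul_comm, zpow_mul, zpow_natCast, hρ2, one_zpow]
    · refine ⟨1, Subtype.ext ?_⟩
      show x ^ (2 ^ 1) = 1
      rw [hi, pow_one, pow_two, ← mul_assoc, hez, ← zpow_add, neg_add_cancel, zpow_zero]
  obtain ⟨g, hg⟩ := pfix c P hP
  have h1 : g⁻¹ * e * g ∈ M := hg e ⟨0, Or.inr (by rw [zpow_zero, mul_one])⟩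
  have h2 : g⁻¹ * (e * ρ) * g ∈ M := hg (e * ρ) ⟨1, Or.inr (by rw [zpow_one])⟩
  have h3 : g⁻¹ * e * g ∈ U := by
    have h5 := II_conj he g⁻¹
    rw [inv_inv] at h5
    exact (II_M c h5 h1).1
  have h4 : g⁻¹ * (e * ρ) * g ∈ U := by
    have h5 := II_conj he'' g⁻¹
    rw [inv_inv] at h5
    exact (II_M c h5 h2).1
  have hw : g⁻¹ * ρ * g ∈ U := by
    have h5 := U.mul_mem h3 h4
    have h6 : g⁻¹ * e * g * (g⁻¹ * (e * ρ) * g) = g⁻¹ * (e * e * ρ) * g := by group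
    rw [h6, hee, one_mul] at h5
    exact h5
  have hρI : ρ ∈ II U := by
    refine ⟨g, _, hw, ?_, by group⟩
    intro h5
    apply hρ1
    have h6 : ρ = g * (g⁻¹ * ρ * g) * g⁻¹ := by group
    rw [h6, h5, mul_one, mul_inv_cancel]
  have h7 : (1 : G)⁻¹ * ρ * 1 ∈ M := by rw [inv_one, one_mul, mul_one]; exact hρM
  have h8 : e⁻¹ * ρ * e ∈ M := by rw [hei, hρe]; exact M.inv_mem hρM
  have h9 := fix_unique c hρI h7 h8
  rw [inv_one, one_mul] at h9
  exact heM h9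

end Pool.Agent.H27.E7
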