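import Pool.Agent.H27.E7.HH7
import Pool.Agent.H33.EL.HypR

/-!
# E7-23: the hypotheses for the Cartan matrix of type E_7

`C = CartanMatrix.E₇` (Bourbaki numbering: 1-3-4-5-6-7, 2 attached to 4).  See `H33/EL/Hyp6.lean`,
`Hyp6a.lean`, `HypA.lean`, `HypR.lean`, `Hyp8.lean` for the two ways in which this was done for E_6 and E_8
(enumeration of the roots and kernel computations).
* 126 roots, `e7_ra`, `e7_rb`: kernel computation on lists as in `Hyp6`/`Hyp8`.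
* `e7_pos`: positive definite (sum of squares).  `e7_nd`: `D C = 2` for an integer matrix `D`
  (`det E₇ = 2`, the inverse has denominators 2), and `2 ≠ 0` in `K`.
* Mod 2: `C y ≡ 0` iff `y ≡ 0` or `y ≡ y0 = α2 + α5 + α7`.  `e7_r0`: if `y = y0 + 2 z` then
  `ip y y = 6 + 4 ip z y0 + 4 ip z z` with `ip z y0`, `ip z z` even.
* `h7_E7`: `nrm`: as `e7_r0` (`y ∈ Rad2 C` gives `C y ≡ 0` by testing on the simple roots; if all
  coordinates are even the norm is divisible by 8).  `idx`: `Rad2 C` is the kernel of the surjective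
  homomorphism `ℤ^7 → (ZMod 2)^6`, `y ↦ (y1, y3, y4, y6, y2 + y5, y2 + y7)`.
  `r63`: each of the 63 non zero classes contains a root: kernel computation.
-/

namespace Pool.Agent.H33.EL

/-! ### the embedding into type E_8 -/

/-- the embedding of the root lattices -/
def Hyp7_em (x : Fin 7 → ℤ) : Fin 8 → ℤ := ![x 0, x 1, x 2, x 3, x 4, x 5, x 6, 0]

/-- the list of coordinates -/
def Hyp7_tl (x : Fin 7 → ℤ) : List ℤ := [x 0, x 1, x 2, x 3, x 4, x 5, x 6, 0]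

/-- the vector of a list -/
def Hyp7_ff (l : List ℤ) : Fin 7 → ℤ := fun i => l.getD i.1 0

theorem Hyp7_tl_em (x : Fin 7 → ℤ) : HypR_tl (Hyp7_em x) = Hyp7_tl x := rfl

theorem Hyp7_ip (x y : Fin 7 → ℤ) :
    ip CartanMatrix.E₇ x y = HypR_B (Hyp7_tl x) (Hyp7_tl y) := by
  simp only [ip, Fin.sum_univ_seven, HypR_B, Hyp7_tl, CartanMatrix.E₇, Matrix.of_apply,
    Matrix.cons_val', Matrix.cons_val_zero, Matrix.cons_val_one, Matrix.cons_val,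
    Matrix.cons_val_fin_one]
  ring

theorem Hyp7_ip_em (x y : Fin 7 → ℤ) :
    ip CartanMatrix.E₇ x y = ip CartanMatrix.E₈ (Hyp7_em x) (Hyp7_em y) := by
  rw [Hyp7_ip, HypR_ip, Hyp7_tl_em, Hyp7_tl_em]

theorem Hyp7_tl_inj : Function.Injective Hyp7_tl := by
  intro x y h
  simp only [Hyp7_tl, List.cons.injEq, and_true] at h
  funext i
  fin_cases i <;> simp <;> tauto

theorem Hyp7_mem (x : Fin 7 → ℤ) (h : ip CartanMatrix.E₇ x x = 2) : Hyp7_tl x ∈ HypR_R8 := by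
  rw [← Hyp7_tl_em]
  exact HypR_mem _ (by rw [← Hyp7_ip_em, h])

theorem finite_Rt7 : Finite (Rt CartanMatrix.E₇) := by
  have h1 : Finite {l : List ℤ // l ∈ HypR_R8} := (List.finite_toSet HypR_R8).to_subtype
  exact Finite.of_injective (fun x : Rt CartanMatrix.E₇ =>
    (⟨Hyp7_tl x.1, Hyp7_mem x.1 x.2⟩ : {l : List ℤ // l ∈ HypR_R8}))
    (fun x y h => Subtype.ext (Hyp7_tl_inj (Subtype.mk.inj h)))

noncomputable instance instFintypeRt7 : Fintype (Rt CartanMatrix.E₇) :=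
  @Fintype.ofFinite _ finite_Rt7

theorem e7_symm (i j : Fin 7) : CartanMatrix.E₇ i j = CartanMatrix.E₇ j i :=
  CartanMatrix.E₇_isSymm.apply j i

theorem e7_diag (i : Fin 7) : CartanMatrix.E₇ i i = 2 := CartanMatrix.E₇_diag i

theorem e7_pos (x : Fin 7 → ℤ) (hx : x ≠ 0) : 0 < ip CartanMatrix.E₇ x x := by
  rw [Hyp7_ip_em]
  refine HypR_pos _ ?_
  intro h
  apply hx
  funext i
  fin_cases i
  · exact congrFun h 0
  · exact congrFun h 1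
  · exact congrFun h 2
  · exact congrFun h 3
  · exact congrFun h 4
  · exact congrFun h 5
  · exact congrFun h 6

theorem Hyp7_two (K : Type) [Field K]
    (hK : Nat.card K = 7 ∨ Nat.card K = 9 ∨ Nat.card K = 11) : (2 : K) ≠ 0 := by
  have hfin : Finite K := Nat.finite_of_card_ne_zero (by rcases hK with h | h | h <;> rw [h] <;> norm_num)
  have : Fintype K := Fintype.ofFinite K
  have hc : Fintype.card K = 7 ∨ Fintype.card K = 9 ∨ Fintype.card K = 11 := by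
    rw [← Nat.card_eq_fintype_card]
    exact hK
  intro h2
  have h0 := FiniteField.cast_card_eq_zero K
  have h1 : (1 : K) = 0 := by
    rcases hc with h | h | h <;> rw [h] at h0 <;> push_cast at h0
    · linear_combination h0 - 3 * h2
    · linear_combination h0 - 4 * h2
    · linear_combination h0 - 5 * h2
  exact one_ne_zero h1

theorem e7_nd (K : Type) [Field K] (hK : Nat.card K = 7 ∨ Nat.card K = 9 ∨ Nat.card K = 11)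
    (h : Fin 7 → K) (hh : ∀ i, ∑ j, (CartanMatrix.E₇ i j : K) * h j = 0) : h = 0 := by
  have h2K := Hyp7_two K hK
  have h0 := hh 0
  have h1 := hh 1
  have h2 := hh 2
  have h3 := hh 3
  have h4 := hh 4
  have h5 := hh 5
  have h6 := hh 6
  simp only [Fin.sum_univ_seven, CartanMatrix.E₇, Matrix.of_apply,
    Matrix.cons_val', Matrix.cons_val_zero, Matrix.cons_val_one, Matrix.cons_val,
    Matrix.cons_val_fin_one, Int.cast_ofNat, Int.cast_zero, Int.cast_neg, Int.cast_one,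
    zero_mul, add_zero, zero_add] at h0 h1 h2 h3 h4 h5 h6
  have key : ∀ x : K, 2 * x = 0 → x = 0 := fun x hx => (mul_eq_zero.mp hx).resolve_left h2K
  funext i
  show h i = 0
  fin_cases i
  · show h 0 = 0
    apply key
    linear_combination 4 * h0 + 4 * h1 + 6 * h2 + 8 * h3 + 6 * h4 + 4 * h5 + 2 * h6
  · show h 1 = 0
    apply key
    linear_combination 4 * h0 + 7 * h1 + 8 * h2 + 12 * h3 + 9 * h4 + 6 * h5 + 3 * h6
  · show h 2 = 0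
    apply key
    linear_combination 6 * h0 + 8 * h1 + 12 * h2 + 16 * h3 + 12 * h4 + 8 * h5 + 4 * h6
  · show h 3 = 0
    apply key
    linear_combination 8 * h0 + 12 * h1 + 16 * h2 + 24 * h3 + 18 * h4 + 12 * h5 + 6 * h6
  · show h 4 = 0
    apply key
    linear_combination 6 * h0 + 9 * h1 + 12 * h2 + 18 * h3 + 15 * h4 + 10 * h5 + 5 * h6
  · show h 5 = 0
    apply key
    linear_combination 4 * h0 + 6 * h1 + 8 * h2 + 12 * h3 + 10 * h4 + 8 * h5 + 4 * h6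
  · show h 6 = 0
    apply key
    linear_combination 2 * h0 + 3 * h1 + 4 * h2 + 6 * h3 + 5 * h4 + 4 * h5 + 3 * h6

/-- the norm of a vector with even entries -/
theorem Hyp7_even (y : Fin 7 → ℤ) (h0 : y 0 % 2 = 0) (h2 : y 2 % 2 = 0) (h3 : y 3 % 2 = 0)
    (h5 : y 5 % 2 = 0) (h14 : (y 1 + y 4) % 2 = 0) (h16 : (y 1 + y 6) % 2 = 0) :
    ((∀ i, Even (y i)) ∧ ip CartanMatrix.E₇ y y % 8 = 0) ∨ ip CartanMatrix.E₇ y y % 8 = 6 := by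
  rw [Hyp7_ip]
  simp only [HypR_B, Hyp7_tl]
  obtain ⟨a0, ha0⟩ : ∃ a, y 0 = 2 * a := ⟨y 0 / 2, by omega⟩
  obtain ⟨a2, ha2⟩ : ∃ a, y 2 = 2 * a := ⟨y 2 / 2, by omega⟩
  obtain ⟨a3, ha3⟩ : ∃ a, y 3 = 2 * a := ⟨y 3 / 2, by omega⟩
  obtain ⟨a5, ha5⟩ : ∃ a, y 5 = 2 * a := ⟨y 5 / 2, by omega⟩
  rcases Int.even_or_odd' (y 1) with ⟨a1, ha1 | ha1⟩
  · left
    obtain ⟨a4, ha4⟩ : ∃ a, y 4 = 2 * a := ⟨y 4 / 2, by omega⟩
    obtain ⟨a6, ha6⟩ : ∃ a, y 6 = 2 * a := ⟨y 6 / 2, by omega⟩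
    refine ⟨?_, ?_⟩
    · intro i
      fin_cases i
      · exact ⟨a0, by show y 0 = _; omega⟩
      · exact ⟨a1, by show y 1 = _; omega⟩
      · exact ⟨a2, by show y 2 = _; omega⟩
      · exact ⟨a3, by show y 3 = _; omega⟩
      · exact ⟨a4, by show y 4 = _; omega⟩
      · exact ⟨a5, by show y 5 = _; omega⟩
      · exact ⟨a6, by show y 6 = _; omega⟩
    · rw [ha0, ha1, ha2, ha3, ha4, ha5, ha6]
      apply Int.emod_eq_zero_of_dvd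
      exact ⟨a0 * a0 + a1 * a1 + a2 * a2 + a3 * a3 + a4 * a4 + a5 * a5 + a6 * a6
        - a0 * a2 - a1 * a3 - a2 * a3 - a3 * a4 - a4 * a5 - a5 * a6, by ring⟩
  · right
    obtain ⟨a4, ha4⟩ : ∃ a, y 4 = 2 * a + 1 := ⟨y 4 / 2, by omega⟩
    obtain ⟨a6, ha6⟩ : ∃ a, y 6 = 2 * a + 1 := ⟨y 6 / 2, by omega⟩
    rw [ha0, ha1, ha2, ha3, ha4, ha5, ha6]
    have hx : 2 * (2 * a0 * (2 * a0) + (2 * a1 + 1) * (2 * a1 + 1) + 2 * a2 * (2 * a2) +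
        2 * a3 * (2 * a3) + (2 * a4 + 1) * (2 * a4 + 1) + 2 * a5 * (2 * a5) +
        (2 * a6 + 1) * (2 * a6 + 1) + 0 * 0) - (2 * a0 * (2 * a2) + 2 * a2 * (2 * a0)) -
        ((2 * a1 + 1) * (2 * a3) + 2 * a3 * (2 * a1 + 1)) -
        (2 * a2 * (2 * a3) + 2 * a3 * (2 * a2)) -
        (2 * a3 * (2 * a4 + 1) + (2 * a4 + 1) * (2 * a3)) -
        ((2 * a4 + 1) * (2 * a5) + 2 * a5 * (2 * a4 + 1)) -
        (2 * a5 * (2 * a6 + 1) + (2 * a6 + 1) * (2 * a5)) -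
        ((2 * a6 + 1) * 0 + 0 * (2 * a6 + 1)) =
        6 + 8 * (a0 * a0 + a2 * a2 + a3 * a3 + a5 * a5 + a1 * a1 + a1 + a4 * a4 + a4 + a6 * a6
          + a6 - a0 * a2 - a2 * a3 - a3 * (a1 + a4 + 1) - a5 * (a4 + a6 + 1)) := by ring
    rw [hx, Int.add_mul_emod_self_left]
    norm_num

theorem e7_r0 (y : Fin 7 → ℤ) (h : ∀ i, Even (∑ j, CartanMatrix.E₇ i j * y j)) :
    (∀ i, Even (y i)) ∨ ip CartanMatrix.E₇ y y % 8 = 6 := by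
  have h0 := h 0
  have h1 := h 1
  have h2 := h 2
  have h3 := h 3
  have h4 := h 4
  have h5 := h 5
  have h6 := h 6
  simp only [Fin.sum_univ_seven, CartanMatrix.E₇, Matrix.of_apply,
    Matrix.cons_val', Matrix.cons_val_zero, Matrix.cons_val_one, Matrix.cons_val,
    Matrix.cons_val_fin_one, zero_mul, add_zero, zero_add, Int.even_iff]
    at h0 h1 h2 h3 h4 h5 h6
  rcases Hyp7_even y (by omega) (by omega) (by omega) (by omega) (by omega) (by omega) with h7 | h7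
  · exact Or.inl h7.1
  · exact Or.inr h7

/-! ### `ra` and `rb` -/

/-- the last simple root -/
def Hyp7_a : List ℤ := [0, 0, 0, 0, 0, 0, 1, 0]

/-- roots with product 1 with the last simple root -/
def Hyp7_W : List (List ℤ) :=
  [[0, 1, 1, 2, 2, 1, 1, 0],
    [-1, -1, -2, -3, -2, -1, 0, 0],
    [1, 1, 2, 2, 1, 1, 1, 0],
    [-1, -2, -2, -3, -2, -1, 0, 0],
    [0, 0, 0, 0, 0, -1, 0, 0],
    [1, 1, 1, 2, 1, 1, 1, 0]]

/-- the check of one root -/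
def Hyp7_chk (b : List ℤ) : Bool :=
  (if b.getD 7 0 == 0 then
    ((if HypR_B Hyp7_a b == 0 || HypR_B Hyp7_a b == 1 || HypR_B Hyp7_a b == -1 then
      Hyp7_W.any (fun w => HypR_B w b == 0) else true) &&
    (if HypR_B Hyp7_a b == 0 then Hyp7_W.any (fun w => HypR_B w b == -1) else true)) else true)

theorem Hyp7_chk_all : HypR_R8.all Hyp7_chk = true := by decide +kernel

theorem Hyp7_W_all : Hyp7_W.all (fun w => HypR_B w w == 2 && HypR_B w Hyp7_a == 1 &&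
    Hyp7_tl (Hyp7_ff w) == w) = true := by decide +kernel

/-- the last simple root as a root -/
def Hyp7_root : Rt CartanMatrix.E₇ := ⟨Hyp7_ff Hyp7_a, by rw [Hyp7_ip]; decide +kernel⟩

theorem Hyp7_P : HypA_P CartanMatrix.E₇ Hyp7_root := by
  intro b
  have h1 := List.all_eq_true.mp Hyp7_chk_all _ (Hyp7_mem b.1 b.2)
  have h2 : Hyp7_tl Hyp7_root.1 = Hyp7_a := by decide +kernel
  have h3 : ip CartanMatrix.E₇ Hyp7_root.1 b.1 = HypR_B Hyp7_a (Hyp7_tl b.1) := by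
    rw [Hyp7_ip, h2]
  have hw : ∀ w ∈ Hyp7_W, ∃ y : Rt CartanMatrix.E₇, Hyp7_tl y.1 = w ∧
      ip CartanMatrix.E₇ y.1 Hyp7_root.1 = 1 := by
    intro w hw
    have h4 := List.all_eq_true.mp Hyp7_W_all w hw
    simp only [Bool.and_eq_true, beq_iff_eq] at h4
    obtain ⟨⟨h5, h6⟩, h7⟩ := h4
    refine ⟨⟨Hyp7_ff w, ?_⟩, h7, ?_⟩
    · rw [Hyp7_ip, h7]
      exact h5
    · show ip CartanMatrix.E₇ (Hyp7_ff w) Hyp7_root.1 = 1
      rw [Hyp7_ip, h7, h2]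
      exact h6
  rw [h3]
  unfold Hyp7_chk at h1
  rw [if_pos (show ((Hyp7_tl b.1).getD 7 0 == 0) = true from rfl)] at h1
  simp only [Bool.and_eq_true] at h1
  obtain ⟨h4, h5⟩ := h1
  constructor
  · intro h6
    rw [if_pos (by simpa [or_assoc] using h6), List.any_eq_true] at h4
    obtain ⟨w, hw1, hw2⟩ := h4
    obtain ⟨y, hy1, hy2⟩ := hw w hw1
    refine ⟨y, hy2, ?_⟩
    rw [Hyp7_ip, hy1]
    exact beq_iff_eq.mp hw2
  · intro h6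
    rw [if_pos (by simpa using h6), List.any_eq_true] at h5
    obtain ⟨w, hw1, hw2⟩ := h5
    obtain ⟨y, hy1, hy2⟩ := hw w hw1
    refine ⟨y, hy2, ?_⟩
    rw [Hyp7_ip, hy1]
    exact beq_iff_eq.mp hw2

theorem e7_ra (a b : Rt CartanMatrix.E₇) (h : ip CartanMatrix.E₇ a.1 b.1 = 0 ∨
    ip CartanMatrix.E₇ a.1 b.1 = 1 ∨ ip CartanMatrix.E₇ a.1 b.1 = -1) :
    ∃ y : Rt CartanMatrix.E₇, ip CartanMatrix.E₇ y.1 a.1 = 1 ∧
      ip CartanMatrix.E₇ y.1 b.1 = 0 :=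
  ((HypA_all e7_symm e7_pos Hyp7_root Hyp7_P a) b).1 h

theorem e7_rb (a b : Rt CartanMatrix.E₇) (h : ip CartanMatrix.E₇ a.1 b.1 = 0) :
    ∃ y : Rt CartanMatrix.E₇, ip CartanMatrix.E₇ y.1 a.1 = 1 ∧
      ip CartanMatrix.E₇ y.1 b.1 = -1 :=
  ((HypA_all e7_symm e7_pos Hyp7_root Hyp7_P a) b).2 h

/-! ### the radical modulo 2 -/

theorem Hyp7_rad (y : Fin 7 → ℤ) : y ∈ Rad2 CartanMatrix.E₇ ↔
    y 0 % 2 = 0 ∧ y 2 % 2 = 0 ∧ y 3 % 2 = 0 ∧ y 5 % 2 = 0 ∧ (y 1 + y 4) % 2 = 0 ∧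
      (y 1 + y 6) % 2 = 0 := by
  constructor
  · intro h
    have hg : ∀ g : Rt CartanMatrix.E₇, Even (ip CartanMatrix.E₇ y g.1) := h
    have h0 := hg ⟨Hyp7_ff [1, 0, 0, 0, 0, 0, 0, 0], by rw [Hyp7_ip]; decide +kernel⟩
    have h1 := hg ⟨Hyp7_ff [0, 1, 0, 0, 0, 0, 0, 0], by rw [Hyp7_ip]; decide +kernel⟩
    have h2 := hg ⟨Hyp7_ff [0, 0, 1, 0, 0, 0, 0, 0], by rw [Hyp7_ip]; decide +kernel⟩
    have h3 := hg ⟨Hyp7_ff [0, 0, 0, 1, 0, 0, 0, 0], by rw [Hyp7_ip]; decide +kernel⟩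
    have h4 := hg ⟨Hyp7_ff [0, 0, 0, 0, 1, 0, 0, 0], by rw [Hyp7_ip]; decide +kernel⟩
    have h5 := hg ⟨Hyp7_ff [0, 0, 0, 0, 0, 1, 0, 0], by rw [Hyp7_ip]; decide +kernel⟩
    have h6 := hg ⟨Hyp7_ff [0, 0, 0, 0, 0, 0, 1, 0], by rw [Hyp7_ip]; decide +kernel⟩
    have t0 : Hyp7_tl (Hyp7_ff [1, 0, 0, 0, 0, 0, 0, 0]) = [1, 0, 0, 0, 0, 0, 0, 0] := rfl
    have t1 : Hyp7_tl (Hyp7_ff [0, 1, 0, 0, 0, 0, 0, 0]) = [0, 1, 0, 0, 0, 0, 0, 0] := rfl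
    have t2 : Hyp7_tl (Hyp7_ff [0, 0, 1, 0, 0, 0, 0, 0]) = [0, 0, 1, 0, 0, 0, 0, 0] := rfl
    have t3 : Hyp7_tl (Hyp7_ff [0, 0, 0, 1, 0, 0, 0, 0]) = [0, 0, 0, 1, 0, 0, 0, 0] := rfl
    have t4 : Hyp7_tl (Hyp7_ff [0, 0, 0, 0, 1, 0, 0, 0]) = [0, 0, 0, 0, 1, 0, 0, 0] := rfl
    have t5 : Hyp7_tl (Hyp7_ff [0, 0, 0, 0, 0, 1, 0, 0]) = [0, 0, 0, 0, 0, 1, 0, 0] := rfl
    have t6 : Hyp7_tl (Hyp7_ff [0, 0, 0, 0, 0, 0, 1, 0]) = [0, 0, 0, 0, 0, 0, 1, 0] := rfl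
    rw [Hyp7_ip, Int.even_iff] at h0 h1 h2 h3 h4 h5 h6
    dsimp only at h0 h1 h2 h3 h4 h5 h6
    rw [t0] at h0
    rw [t1] at h1
    rw [t2] at h2
    rw [t3] at h3
    rw [t4] at h4
    rw [t5] at h5
    rw [t6] at h6
    simp only [HypR_B, Hyp7_tl] at h0 h1 h2 h3 h4 h5 h6
    omega
  · rintro ⟨h0, h2, h3, h5, h14, h16⟩ g
    rw [Hyp7_ip]
    simp only [HypR_B, Hyp7_tl]
    obtain ⟨a0, ha0⟩ : ∃ a, y 0 = 2 * a := ⟨y 0 / 2, by omega⟩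
    obtain ⟨a2, ha2⟩ : ∃ a, y 2 = 2 * a := ⟨y 2 / 2, by omega⟩
    obtain ⟨a3, ha3⟩ : ∃ a, y 3 = 2 * a := ⟨y 3 / 2, by omega⟩
    obtain ⟨a5, ha5⟩ : ∃ a, y 5 = 2 * a := ⟨y 5 / 2, by omega⟩
    obtain ⟨a4, ha4⟩ : ∃ a, y 4 = 2 * a + y 1 := ⟨(y 4 - y 1) / 2, by omega⟩
    obtain ⟨a6, ha6⟩ : ∃ a, y 6 = 2 * a + y 1 := ⟨(y 6 - y 1) / 2, by omega⟩
    rw [ha0, ha2, ha3, ha4, ha5, ha6, even_iff_two_dvd]
    exact ⟨2 * a0 * g.1 0 + y 1 * g.1 1 + 2 * a2 * g.1 2 + 2 * a3 * g.1 3 +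
      (2 * a4 + y 1) * g.1 4 + 2 * a5 * g.1 5 + (2 * a6 + y 1) * g.1 6
      - a0 * g.1 2 - a2 * g.1 0 - y 1 * g.1 3 - a3 * g.1 1 - a2 * g.1 3 - a3 * g.1 2
      - a3 * g.1 4 - a4 * g.1 3 - a4 * g.1 5 - y 1 * g.1 5 - a5 * g.1 4 - a5 * g.1 6
      - a6 * g.1 5, by ring⟩

/-- the class modulo the radical -/
def Hyp7_cl : List ℤ → List ℤ
  | [x0, x1, x2, x3, x4, x5, x6, _] =>
    [x0 % 2, x2 % 2, x3 % 2, x5 % 2, (x1 + x4) % 2, (x1 + x6) % 2]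
  | _ => []

/-- the positive roots -/
def Hyp7_pos : List (List ℤ) :=
  [[0, 0, 0, 0, 0, 0, 1, 0], [0, 0, 0, 0, 0, 1, 0, 0], [0, 0, 0, 0, 1, 0, 0, 0],
    [0, 0, 0, 1, 0, 0, 0, 0], [0, 0, 1, 0, 0, 0, 0, 0], [0, 1, 0, 0, 0, 0, 0, 0],
    [1, 0, 0, 0, 0, 0, 0, 0], [0, 0, 0, 0, 0, 1, 1, 0], [0, 0, 0, 0, 1, 1, 0, 0],
    [0, 0, 0, 1, 1, 0, 0, 0], [0, 0, 1, 1, 0, 0, 0, 0], [0, 1, 0, 1, 0, 0, 0, 0],
    [1, 0, 1, 0, 0, 0, 0, 0], [0, 0, 0, 0, 1, 1, 1, 0], [0, 0, 0, 1, 1, 1, 0, 0],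
    [0, 0, 1, 1, 1, 0, 0, 0], [0, 1, 0, 1, 1, 0, 0, 0], [0, 1, 1, 1, 0, 0, 0, 0],
    [1, 0, 1, 1, 0, 0, 0, 0], [0, 0, 0, 1, 1, 1, 1, 0], [0, 0, 1, 1, 1, 1, 0, 0],
    [0, 1, 0, 1, 1, 1, 0, 0], [0, 1, 1, 1, 1, 0, 0, 0], [1, 0, 1, 1, 1, 0, 0, 0],
    [1, 1, 1, 1, 0, 0, 0, 0], [0, 0, 1, 1, 1, 1, 1, 0], [0, 1, 0, 1, 1, 1, 1, 0],
    [0, 1, 1, 1, 1, 1, 0, 0], [0, 1, 1, 2, 1, 0, 0, 0], [1, 0, 1, 1, 1, 1, 0, 0],
    [1, 1, 1, 1, 1, 0, 0, 0], [0, 1, 1, 1, 1, 1, 1, 0], [0, 1, 1, 2, 1, 1, 0, 0],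
    [1, 0, 1, 1, 1, 1, 1, 0], [1, 1, 1, 1, 1, 1, 0, 0], [1, 1, 1, 2, 1, 0, 0, 0],
    [0, 1, 1, 2, 1, 1, 1, 0], [0, 1, 1, 2, 2, 1, 0, 0], [1, 1, 1, 1, 1, 1, 1, 0],
    [1, 1, 1, 2, 1, 1, 0, 0], [1, 1, 2, 2, 1, 0, 0, 0], [0, 1, 1, 2, 2, 1, 1, 0],
    [1, 1, 1, 2, 1, 1, 1, 0], [1, 1, 1, 2, 2, 1, 0, 0], [1, 1, 2, 2, 1, 1, 0, 0],
    [0, 1, 1, 2, 2, 2, 1, 0], [1, 1, 1, 2, 2, 1, 1, 0], [1, 1, 2, 2, 1, 1, 1, 0],
    [1, 1, 2, 2, 2, 1, 0, 0], [1, 1, 1, 2, 2, 2, 1, 0], [1, 1, 2, 2, 2, 1, 1, 0],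
    [1, 1, 2, 3, 2, 1, 0, 0], [1, 1, 2, 2, 2, 2, 1, 0], [1, 1, 2, 3, 2, 1, 1, 0],
    [1, 2, 2, 3, 2, 1, 0, 0], [1, 1, 2, 3, 2, 2, 1, 0], [1, 2, 2, 3, 2, 1, 1, 0],
    [1, 1, 2, 3, 3, 2, 1, 0], [1, 2, 2, 3, 2, 2, 1, 0], [1, 2, 2, 3, 3, 2, 1, 0],
    [1, 2, 2, 4, 3, 2, 1, 0], [1, 2, 3, 4, 3, 2, 1, 0], [2, 2, 3, 4, 3, 2, 1, 0]]

theorem Hyp7_pos_all : Hyp7_pos.all (fun w => HypR_B w w == 2 && Hyp7_tl (Hyp7_ff w) == w) = true := by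
  decide +kernel

theorem Hyp7_cl_all : (HypR_seqs [0, 1] 6).all (fun v => v == [0, 0, 0, 0, 0, 0] ||
    Hyp7_pos.any (fun w => Hyp7_cl w == v)) = true := by
  decide +kernel

theorem Hyp7_cl_mem (y : Fin 7 → ℤ) : Hyp7_cl (Hyp7_tl y) ∈ HypR_seqs [0, 1] 6 := by
  refine HypR_seqs_mem' _ _ _ rfl ?_
  intro s hs
  simp only [Hyp7_cl, Hyp7_tl, List.mem_cons, List.not_mem_nil, or_false] at hs ⊢
  omega

theorem Hyp7_r63 (y : Fin 7 → ℤ) :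
    y ∈ Rad2 CartanMatrix.E₇ ∨ ∃ a : Rt CartanMatrix.E₇, y - a.1 ∈ Rad2 CartanMatrix.E₇ := by
  have h := List.all_eq_true.mp Hyp7_cl_all _ (Hyp7_cl_mem y)
  rw [Bool.or_eq_true, beq_iff_eq, List.any_eq_true] at h
  rcases h with h | ⟨w, hw, h⟩
  · left
    rw [Hyp7_rad]
    simpa only [Hyp7_cl, Hyp7_tl, List.cons.injEq, and_true] using h
  · right
    have h4 := List.all_eq_true.mp Hyp7_pos_all w hw
    simp only [Bool.and_eq_true, beq_iff_eq] at h4 h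
    obtain ⟨h5, h6⟩ := h4
    have h7 : ip CartanMatrix.E₇ (Hyp7_ff w) (Hyp7_ff w) = 2 := by
      rw [Hyp7_ip, h6, h5]
    refine ⟨⟨Hyp7_ff w, h7⟩, ?_⟩
    rw [Hyp7_rad]
    rw [← h6] at h
    simp only [Hyp7_cl, Hyp7_tl, List.cons.injEq, and_true] at h
    obtain ⟨c0, c2, c3, c5, c14, c16⟩ := h
    show (y 0 - Hyp7_ff w 0) % 2 = 0 ∧ (y 2 - Hyp7_ff w 2) % 2 = 0 ∧
      (y 3 - Hyp7_ff w 3) % 2 = 0 ∧ (y 5 - Hyp7_ff w 5) % 2 = 0 ∧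
      ((y 1 - Hyp7_ff w 1) + (y 4 - Hyp7_ff w 4)) % 2 = 0 ∧
      ((y 1 - Hyp7_ff w 1) + (y 6 - Hyp7_ff w 6)) % 2 = 0
    clear h5 h6 h7 hw
    omega

/-- the homomorphism with kernel the radical -/
def Hyp7_hom : (Fin 7 → ℤ) →+ (Fin 6 → ZMod 2) where
  toFun y := ![(y 0 : ZMod 2), (y 2 : ZMod 2), (y 3 : ZMod 2), (y 5 : ZMod 2),
    ((y 1 + y 4 : ℤ) : ZMod 2), ((y 1 + y 6 : ℤ) : ZMod 2)]
  map_zero' := by
    funext i
    fin_cases i <;> simp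
  map_add' := by
    intro x y
    funext i
    fin_cases i
    · show ((x 0 + y 0 : ℤ) : ZMod 2) = (x 0 : ZMod 2) + (y 0 : ZMod 2)
      push_cast
      ring
    · show ((x 2 + y 2 : ℤ) : ZMod 2) = (x 2 : ZMod 2) + (y 2 : ZMod 2)
      push_cast
      ring
    · show ((x 3 + y 3 : ℤ) : ZMod 2) = (x 3 : ZMod 2) + (y 3 : ZMod 2)
      push_cast
      ring
    · show ((x 5 + y 5 : ℤ) : ZMod 2) = (x 5 : ZMod 2) + (y 5 : ZMod 2)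
      push_cast
      ring
    · show (((x 1 + y 1) + (x 4 + y 4) : ℤ) : ZMod 2) =
        ((x 1 + x 4 : ℤ) : ZMod 2) + ((y 1 + y 4 : ℤ) : ZMod 2)
      push_cast
      ring
    · show (((x 1 + y 1) + (x 6 + y 6) : ℤ) : ZMod 2) =
        ((x 1 + x 6 : ℤ) : ZMod 2) + ((y 1 + y 6 : ℤ) : ZMod 2)
      push_cast
      ring

theorem Hyp7_cast (m : ℤ) : (m : ZMod 2) = 0 ↔ m % 2 = 0 := by
  rw [ZMod.intCast_zmod_eq_zero_iff_dvd]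
  exact Int.dvd_iff_emod_eq_zero

theorem Hyp7_ker : Hyp7_hom.ker = Rad2 CartanMatrix.E₇ := by
  ext y
  rw [Hyp7_rad, AddMonoidHom.mem_ker, ← Hyp7_cast, ← Hyp7_cast, ← Hyp7_cast, ← Hyp7_cast,
    ← Hyp7_cast, ← Hyp7_cast]
  constructor
  · intro h
    exact ⟨congrFun h 0, congrFun h 1, congrFun h 2, congrFun h 3, congrFun h 4, congrFun h 5⟩
  · rintro ⟨h0, h1, h2, h3, h4, h5⟩
    funext i
    fin_cases i
    · exact h0
    · exact h1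
    · exact h2
    · exact h3
    · exact h4
    · exact h5

theorem Hyp7_surj : Function.Surjective Hyp7_hom := by
  intro v
  obtain ⟨c0, hc0⟩ := ZMod.intCast_surjective (v 0)
  obtain ⟨c1, hc1⟩ := ZMod.intCast_surjective (v 1)
  obtain ⟨c2, hc2⟩ := ZMod.intCast_surjective (v 2)
  obtain ⟨c3, hc3⟩ := ZMod.intCast_surjective (v 3)
  obtain ⟨c4, hc4⟩ := ZMod.intCast_surjective (v 4)
  obtain ⟨c5, hc5⟩ := ZMod.intCast_surjective (v 5)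
  refine ⟨![c0, 0, c1, c2, c4, c3, c5], ?_⟩
  funext i
  fin_cases i
  · exact hc0
  · exact hc1
  · exact hc2
  · exact hc3
  · show ((0 + c4 : ℤ) : ZMod 2) = v 4
    rw [zero_add]
    exact hc4
  · show ((0 + c5 : ℤ) : ZMod 2) = v 5
    rw [zero_add]
    exact hc5

theorem Hyp7_idx : (Rad2 CartanMatrix.E₇).index = 64 := by
  rw [← Hyp7_ker, AddSubgroup.index_ker, AddMonoidHom.range_eq_top.mpr Hyp7_surj]
  rw [Nat.card_congr AddSubgroup.topEquiv.toEquiv, Nat.card_eq_fintype_card]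
  simp [ZMod.card]

theorem h7_E7 : H7 CartanMatrix.E₇ where
  odd := by decide
  nrm := by
    intro y hy
    rw [Hyp7_rad] at hy
    obtain ⟨h0, h2, h3, h5, h14, h16⟩ := hy
    rcases Hyp7_even y h0 h2 h3 h5 h14 h16 with h | h
    · exact Or.inl h.2
    · exact Or.inr h
  r63 := Hyp7_r63
  idx := Hyp7_idx

end Pool.Agent.H33.EL
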