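import Pool.Agent.H27.E7.Hyp7

/-!
# The standing hypotheses for type E_7 (helper27)
-/

namespace Pool.Agent.H33.EL

theorem hyp7 (K : Type) [Field K]
    (hK : Nat.card K = 7 ∨ Nat.card K = 9 ∨ Nat.card K = 11) :
    Hyp CartanMatrix.E₇ K where
  symm := e7_symm
  diag := e7_diag
  pos := e7_pos
  nd := e7_nd K hK
  r0 := e7_r0
  r1 := Or.inr h7_E7
  ra := e7_ra
  rb := e7_rb
  card := hK

end Pool.Agent.H33.EL
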