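import Pool.Agent.H27.E7.GrpC

/-!
# E7-09: good involutions

`conj u := z u z⁻¹`, an involution of the group `U` preserving `B` (`z ∈ M`).
`f(u) = B(u, z u z⁻¹)`.  `f(u v) = f(u) + f(v) + B(u, z v z⁻¹) + B(v, z u z⁻¹)` and
`B(v, z u z⁻¹) = B(z v z⁻¹, z z u z⁻¹ z⁻¹) = B(z v z⁻¹, u) = B(u, z v z⁻¹)`, so `f` is additive; `f(u) = 0` if
`z u = u z`.  `cz` holds by `cent_dich` (the first alternative is excluded by `hne`).
Suppose `f(v) = 1`.  Then `k = v (z v z⁻¹) ≠ 1` commutes with `z`.  `|C_U(z)|² = |U| ≥ 8`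
(`card_CU`), so there is `k' ∈ U` commuting with `z`, `k' ≠ 1`, `k' ≠ k`.  By `cent_trans`
`m k m⁻¹ = k'` and `m' k m'⁻¹ = k k'` with `m, m' ∈ M` commuting with `z`
(`k k' ≠ 1`).  `v' = m v m⁻¹`, `v'' = m' v m'⁻¹`: `f(v') = f(v) = 1`, `f(v'') = 1` (invariance),
`v' (z v' z⁻¹) = k'`, `v'' (z v'' z⁻¹) = k k'`.  `w = v v' v''` has `w (z w z⁻¹) = k k' k k' = 1`,
so `z w = w z` (`w² = 1`), `f(w) = 0`; but `f(w) = 1 + 1 + 1 = 1`.  Contradiction.
-/

namespace Pool.Agent.H27.E7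

variable {G : Type} [Group G] {M U : Subgroup G} {B : G → G → ZMod 2}

theorem SyB_two (x : ZMod 2) : x + x = 0 := by
  revert x; decide

theorem SyB_ne (x : ZMod 2) (h : x ≠ 0) : x = 1 := by
  revert x; decide

theorem good_of [Finite G] (c : Cfg M U) (S : Symp M U B) {x z : G} (hx : x ∉ M) (hz : z ∈ M)
    (hz' : x⁻¹ * z * x ∈ M) (h2 : z * z = 1) (h8 : 8 ≤ Nat.card U)
    (hne : ∃ u ∈ U, z * u ≠ u * z) : Good U B z := by
  have hzi : z⁻¹ = z := inv_eq_of_mul_eq_one_right h2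
  have hcz : ∀ u ∈ U, z * u = u * z → ∃ v ∈ U, u = v * (z * v * z⁻¹) := by
    rcases cent_dich c hx hz hz' h2 with h | h
    · obtain ⟨u, hu, h3⟩ := hne
      exact absurd (h u hu) h3
    · exact h
  have hzU : ∀ u ∈ U, z * u * z⁻¹ ∈ U := fun u hu => c.nrm z hz u hu
  have hzz : ∀ u : G, z * (z * u * z⁻¹) * z⁻¹ = u := by
    intro u
    rw [hzi]
    calc z * (z * u * z) * z = (z * z) * u * (z * z) := by group
      _ = u := by rw [h2, one_mul, mul_one]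
  have hmulr : ∀ u ∈ U, ∀ v ∈ U, ∀ w ∈ U, B w (u * v) = B w u + B w v := by
    intro u hu v hv w hw
    rw [S.symm w hw (u * v) (U.mul_mem hu hv), S.mul_left u hu v hv w hw, S.symm u hu w hw,
      S.symm v hv w hw]
  have hsw : ∀ u ∈ U, ∀ v ∈ U, B v (z * u * z⁻¹) = B u (z * v * z⁻¹) := by
    intro u hu v hv
    have h3 := S.inv z hz v hv (z * u * z⁻¹) (hzU u hu)
    rw [hzz u] at h3
    rw [← h3]
    exact S.symm _ (hzU v hv) _ hu
  have hadd : ∀ u ∈ U, ∀ v ∈ U, B (u * v) (z * (u * v) * z⁻¹) =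
      B u (z * u * z⁻¹) + B v (z * v * z⁻¹) := by
    intro u hu v hv
    have h3 : z * (u * v) * z⁻¹ = (z * u * z⁻¹) * (z * v * z⁻¹) := by group
    rw [h3, S.mul_left u hu v hv _ (U.mul_mem (hzU u hu) (hzU v hv)),
      hmulr _ (hzU u hu) _ (hzU v hv) u hu, hmulr _ (hzU u hu) _ (hzU v hv) v hv,
      hsw u hu v hv]
    have h4 := SyB_two (B u (z * v * z⁻¹))
    calc B u (z * u * z⁻¹) + B u (z * v * z⁻¹) + (B u (z * v * z⁻¹) + B v (z * v * z⁻¹))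
        = B u (z * u * z⁻¹) + B v (z * v * z⁻¹) +
          (B u (z * v * z⁻¹) + B u (z * v * z⁻¹)) := by ring
      _ = B u (z * u * z⁻¹) + B v (z * v * z⁻¹) := by rw [h4, add_zero]
  have hcom : ∀ u ∈ U, u * (z * u * z⁻¹) = 1 → B u (z * u * z⁻¹) = 0 := by
    intro u hu h3
    have h4 : z * u * z⁻¹ = u := by
      rw [← inv_eq_of_mul_eq_one_right h3]
      exact inv_eq_of_mul_eq_one_right (c.sq u hu)
    rw [h4]
    exact S.self u hu
  have hD : ∀ u ∈ U, ∀ v ∈ U, (u * v) * (z * (u * v) * z⁻¹) =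
      (u * (z * u * z⁻¹)) * (v * (z * v * z⁻¹)) := by
    intro u hu v hv
    have h3 : v * (z * u * z⁻¹) = (z * u * z⁻¹) * v := U_comm c hv (hzU u hu)
    calc (u * v) * (z * (u * v) * z⁻¹) = u * (v * (z * u * z⁻¹)) * (z * v * z⁻¹) := by group
      _ = u * ((z * u * z⁻¹) * v) * (z * v * z⁻¹) := by rw [h3]
      _ = (u * (z * u * z⁻¹)) * (v * (z * v * z⁻¹)) := by group
  have hmc : ∀ m : G, m * z = z * m → ∀ v : G,
      z * (m * v * m⁻¹) * z⁻¹ = m * (z * v * z⁻¹) * m⁻¹ := by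
    intro m hm v
    have h3 : m⁻¹ * z⁻¹ = z⁻¹ * m⁻¹ := by
      rw [← mul_inv_rev, ← mul_inv_rev, hm]
    calc z * (m * v * m⁻¹) * z⁻¹ = (z * m) * v * (m⁻¹ * z⁻¹) := by group
      _ = (m * z) * v * (z⁻¹ * m⁻¹) := by rw [hm, h3]
      _ = m * (z * v * z⁻¹) * m⁻¹ := by group
  refine ⟨h2, hcz, ?_⟩
  intro v hv
  by_contra hfv
  have hf1 : B v (z * v * z⁻¹) = 1 := SyB_ne _ hfv
  obtain ⟨k, hk⟩ : ∃ k, k = v * (z * v * z⁻¹) := ⟨_, rfl⟩
  have hkU : k ∈ U := by rw [hk]; exact U.mul_mem hv (hzU v hv)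
  have hk1 : k ≠ 1 := by
    intro h
    rw [hk] at h
    exact hfv (hcom v hv h)
  have hkz : z * k = k * z := by
    have h3 : z * k * z⁻¹ = k := by
      rw [hk]
      calc z * (v * (z * v * z⁻¹)) * z⁻¹ = (z * v * z⁻¹) * (z * (z * v * z⁻¹) * z⁻¹) := by group
        _ = (z * v * z⁻¹) * v := by rw [hzz v]
        _ = v * (z * v * z⁻¹) := U_comm c (hzU v hv) hv
    calc z * k = (z * k * z⁻¹) * z := by group
      _ = k * z := by rw [h3]
  have hcard := card_CU c hz h2 hcz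
  have hex : ∃ k', k' ∈ U ∧ z * k' = k' * z ∧ k' ≠ 1 ∧ k' ≠ k := by
    by_contra hno
    push Not at hno
    have hsub : ((U ⊓ Subgroup.centralizer {z} : Subgroup G) : Set G) ⊆ {1, k} := by
      intro y hy
      have hy1 : y ∈ U := hy.1
      have hy2 : z * y = y * z := Subgroup.mem_centralizer_singleton_iff.1 hy.2 |>.symm
      by_cases h1 : y = 1
      · left; exact h1
      · right; exact hno y hy1 hy2 h1
    have h3 : Nat.card (U ⊓ Subgroup.centralizer {z} : Subgroup G) ≤ 2 := by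
      have h4 : Nat.card (U ⊓ Subgroup.centralizer {z} : Subgroup G) =
          ((U ⊓ Subgroup.centralizer {z} : Subgroup G) : Set G).ncard := by
        rw [← Nat.card_coe_set_eq]
        rfl
      rw [h4]
      refine (Set.ncard_le_ncard hsub (Set.toFinite _)).trans ?_
      exact (Set.ncard_insert_le _ _).trans (by rw [Set.ncard_singleton])
    have h5 : Nat.card (U ⊓ Subgroup.centralizer {z} : Subgroup G) ^ 2 ≤ 2 ^ 2 :=
      Nat.pow_le_pow_left h3 2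
    omega
  obtain ⟨k', hk'U, hk'z, hk'1, hk'k⟩ := hex
  have hkk : k * k = 1 := c.sq k hkU
  have hkk1 : k * k' ≠ 1 := by
    intro h
    apply hk'k
    rw [← inv_eq_of_mul_eq_one_right h]
    exact inv_eq_of_mul_eq_one_right hkk
  have hkk'z : z * (k * k') = (k * k') * z := by
    rw [← mul_assoc, hkz, mul_assoc, hk'z, mul_assoc]
  obtain ⟨m, hmM, hmz, hm⟩ := cent_trans c hx hz hz' h2 k hkU hk1 hkz k' hk'U hk'1 hk'z
  obtain ⟨m', hm'M, hm'z, hm'⟩ := cent_trans c hx hz hz' h2 k hkU hk1 hkz (k * k')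
    (U.mul_mem hkU hk'U) hkk1 hkk'z
  have hfm : ∀ n ∈ M, n * z = z * n →
      B (n * v * n⁻¹) (z * (n * v * n⁻¹) * z⁻¹) = 1 ∧
      (n * v * n⁻¹) * (z * (n * v * n⁻¹) * z⁻¹) = n * k * n⁻¹ := by
    intro n hn hnz
    rw [hmc n hnz v, S.inv n hn v hv _ (hzU v hv)]
    refine ⟨hf1, ?_⟩
    rw [hk]
    group
  obtain ⟨hf2, hD2⟩ := hfm m hmM hmz
  obtain ⟨hf3, hD3⟩ := hfm m' hm'M hm'z
  have hvU1 : m * v * m⁻¹ ∈ U := c.nrm m hmM v hv
  have hvU2 : m' * v * m'⁻¹ ∈ U := c.nrm m' hm'M v hv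
  obtain ⟨v1, hv1⟩ : ∃ v1, v1 = m * v * m⁻¹ := ⟨_, rfl⟩
  obtain ⟨v2, hv2⟩ : ∃ v2, v2 = m' * v * m'⁻¹ := ⟨_, rfl⟩
  rw [← hv1] at hvU1 hf2 hD2
  rw [← hv2] at hvU2 hf3 hD3
  have hw : (v * v1) * v2 ∈ U := U.mul_mem (U.mul_mem hv hvU1) hvU2
  have hDw : ((v * v1) * v2) * (z * ((v * v1) * v2) * z⁻¹) = 1 := by
    rw [hD (v * v1) (U.mul_mem hv hvU1) v2 hvU2, hD v hv v1 hvU1, hD2, hD3, ← hk, hm, hm']
    have h3 : k' * k = k * k' := U_comm c hk'U hkU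
    calc k * k' * (k * k') = k * (k' * k) * k' := by group
      _ = k * (k * k') * k' := by rw [h3]
      _ = (k * k) * (k' * k') := by group
      _ = 1 := by rw [hkk, c.sq k' hk'U, one_mul]
  have hfw := hcom _ hw hDw
  rw [hadd (v * v1) (U.mul_mem hv hvU1) v2 hvU2, hadd v hv v1 hvU1, hf1, hf2, hf3] at hfw
  exact absurd hfw (by decide)

end Pool.Agent.H27.E7
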