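import Pool.Agent.H27.E7.GrpC

/-!
# E7-10: no good involution if `|U| = 64`

`C = C_U(z)`, `|C| = 8` (`card_CU`).  For `x, y ∈ U` let `B'(x, y) = B(x, y (z y z⁻¹))`: additive
in both arguments, symmetric (`B(x, z y z⁻¹) = B(z x z⁻¹, y)`), `B'(x, x) = B(x,x) + f(x) = 0` by
`fz`, and `B'(x, c) = 0` for `c ∈ C`.  If `B'(x, y) = 0` for all `y ∈ U`, i.e.
`B(x (z x z⁻¹), y) = 0` for all `y`, then `x (z x z⁻¹) = 1` by `nondeg`, so `x ∈ C`.
`|C| < |U|`: choose `x ∈ U`, `x ∉ C`, and `y ∈ U` with `B'(x, y) = 1`.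
`W = {v ∈ U : B'(x, v) = 0, B'(y, v) = 0}` is a subgroup of index 4 in `U` (the map
`U → (ZMod 2)²`, `v ↦ (B'(x,v), B'(y,v))` is onto: `x ↦ (0,1)`, `y ↦ (1,0)`), `|W| = 16`, `C ≤ W`.
Choose `v ∈ W`, `v ∉ C`.  Every element of `W` is in `C` or `v C` (`|W| = 2 |C|`), so
`B'(v, w) = 0` for `w ∈ W` (`B'(v,v) = 0`).  Also `B'(v, x) = B'(v, y) = 0`, and
`U = W ∪ x W ∪ y W ∪ x y W`.  So `B'(v, ·) = 0`, `v ∈ C`, contradiction.
-/

namespace Pool.Agent.H27.E7

variable {G : Type} [Group G] {M U : Subgroup G} {B : G → G → ZMod 2}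

theorem SyC_conj (c : Cfg M U) {z u : G} (hz : z ∈ M) (hu : u ∈ U) : z * u * z⁻¹ ∈ U :=
  c.nrm z hz u hu

/-- `v (z v z⁻¹)` -/
def SyC_N (z v : G) : G := v * (z * v * z⁻¹)

theorem SyC_N_mem (c : Cfg M U) {z u : G} (hz : z ∈ M) (hu : u ∈ U) : SyC_N z u ∈ U :=
  U.mul_mem hu (SyC_conj c hz hu)

theorem SyC_N_mul (c : Cfg M U) {z u v : G} (hz : z ∈ M) (hu : u ∈ U) (hv : v ∈ U) :
    SyC_N z (u * v) = SyC_N z u * SyC_N z v := by
  unfold SyC_N
  have h1 : z * (u * v) * z⁻¹ = (z * u * z⁻¹) * (z * v * z⁻¹) := by group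
  have h2 := U_comm c hv (SyC_conj c hz hu)
  rw [h1]
  calc u * v * (z * u * z⁻¹ * (z * v * z⁻¹)) = u * (v * (z * u * z⁻¹)) * (z * v * z⁻¹) := by group
    _ = u * ((z * u * z⁻¹) * v) * (z * v * z⁻¹) := by rw [h2]
    _ = u * (z * u * z⁻¹) * (v * (z * v * z⁻¹)) := by group

theorem SyC_mul_right (S : Symp M U B) {u v w : G} (hu : u ∈ U) (hv : v ∈ U) (hw : w ∈ U) :
    B u (v * w) = B u v + B u w := by
  rw [S.symm u hu _ (U.mul_mem hv hw), S.mul_left v hv w hw u hu, S.symm v hv u hu,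
    S.symm w hw u hu]

theorem SyC_one (S : Symp M U B) {u : G} (hu : u ∈ U) : B u 1 = 0 := by
  have h1 := SyC_mul_right S hu U.one_mem U.one_mem
  rw [mul_one] at h1
  exact (left_eq_add.1 h1)

/-- the modified form -/
def SyC_B (B : G → G → ZMod 2) (z x y : G) : ZMod 2 := B x (SyC_N z y)

theorem SyC_B_add (c : Cfg M U) (S : Symp M U B) {z : G} (hz : z ∈ M) {x y y' : G} (hx : x ∈ U)
    (hy : y ∈ U) (hy' : y' ∈ U) : SyC_B B z x (y * y') = SyC_B B z x y + SyC_B B z x y' := by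
  unfold SyC_B
  rw [SyC_N_mul c hz hy hy', SyC_mul_right S hx (SyC_N_mem c hz hy) (SyC_N_mem c hz hy')]

theorem SyC_B_eq (c : Cfg M U) (S : Symp M U B) {z : G} (hz : z ∈ M) {x y : G} (hx : x ∈ U)
    (hy : y ∈ U) : SyC_B B z x y = B x y + B x (z * y * z⁻¹) := by
  unfold SyC_B SyC_N
  exact SyC_mul_right S hx hy (SyC_conj c hz hy)

theorem SyC_B_symm (c : Cfg M U) (S : Symp M U B) {z : G} (hz : z ∈ M) (h2 : z * z = 1) {x y : G}
    (hx : x ∈ U) (hy : y ∈ U) : SyC_B B z x y = SyC_B B z y x := by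
  have hzi : z⁻¹ = z := inv_eq_of_mul_eq_one_right h2
  have h3 : B y (z * x * z⁻¹) = B x (z * y * z⁻¹) := by
    rw [← S.inv z hz y hy _ (SyC_conj c hz hx)]
    have h4 : z * (z * x * z⁻¹) * z⁻¹ = x := by
      rw [hzi]
      calc z * (z * x * z) * z = (z * z) * x * (z * z) := by group
        _ = x := by rw [h2, one_mul, mul_one]
    rw [h4, S.symm _ (SyC_conj c hz hy) x hx]
  rw [SyC_B_eq c S hz hx hy, SyC_B_eq c S hz hy hx, h3, S.symm x hx y hy]

theorem SyC_B_self (c : Cfg M U) (S : Symp M U B) {z : G} (hz : z ∈ M) (g : Good U B z) {x : G}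
    (hx : x ∈ U) : SyC_B B z x x = 0 := by
  rw [SyC_B_eq c S hz hx hx, S.self x hx, g.fz x hx, add_zero]

theorem SyC_B_C (c : Cfg M U) (S : Symp M U B) {z : G} {x y : G} (hx : x ∈ U) (hy : y ∈ U)
    (h : z * y = y * z) : SyC_B B z x y = 0 := by
  unfold SyC_B SyC_N
  have h1 : z * y * z⁻¹ = y := by rw [h, mul_inv_cancel_right]
  rw [h1, c.sq y hy]
  exact SyC_one S hx

theorem SyC_B_nondeg (c : Cfg M U) (S : Symp M U B) {z : G} (hz : z ∈ M) (h2 : z * z = 1) {x : G}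
    (hx : x ∈ U) (h : ∀ y ∈ U, SyC_B B z x y = 0) : z * x = x * z := by
  have h1 : SyC_N z x = 1 := by
    by_contra hne
    obtain ⟨v, hv, hv'⟩ := S.nondeg _ (SyC_N_mem c hz hx) hne
    have h3 := h v hv
    rw [SyC_B_symm c S hz h2 hx hv] at h3
    unfold SyC_B at h3
    rw [S.symm v hv _ (SyC_N_mem c hz hx), hv'] at h3
    exact one_ne_zero h3
  unfold SyC_N at h1
  have h4 : z * x * z⁻¹ = x := by
    have h5 : z * x * z⁻¹ = x⁻¹ := eq_inv_of_mul_eq_one_right h1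
    rw [h5]
    exact inv_eq_of_mul_eq_one_right (c.sq x hx)
  rwa [mul_inv_eq_iff_eq_mul] at h4

theorem SyC_two (a : ZMod 2) : a = 0 ∨ a = 1 := by
  revert a
  decide

theorem no64 [Finite G] (c : Cfg M U) (S : Symp M U B) {z : G} (hz : z ∈ M) (g : Good U B z)
    (h64 : Nat.card U = 64) : False := by
  classical
  have h2 := g.sq
  have hC8 : Nat.card (U ⊓ Subgroup.centralizer {z} : Subgroup G) = 8 := by
    have h3 := card_CU c hz h2 g.cz
    rw [h64] at h3
    have h4 : (64 : ℕ) = 8 ^ 2 := by norm_num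
    rw [h4] at h3
    exact Nat.pow_left_injective (by norm_num) h3
  set C : Subgroup G := U ⊓ Subgroup.centralizer {z} with hCdef
  have hCU : C ≤ U := inf_le_left
  have hCmem : ∀ u, u ∈ C ↔ u ∈ U ∧ z * u = u * z := by
    intro u
    rw [hCdef, Subgroup.mem_inf, Subgroup.mem_centralizer_singleton_iff]
    constructor
    · rintro ⟨a, b⟩
      exact ⟨a, b.symm⟩
    · rintro ⟨a, b⟩
      exact ⟨a, b.symm⟩
  -- the choice of `x` and `y`
  obtain ⟨x, hx, hxC⟩ : ∃ x ∈ U, x ∉ C := by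
    by_contra hcon
    push Not at hcon
    have h3 : U ≤ C := hcon
    have h4 : U = C := le_antisymm h3 hCU
    rw [h4, hC8] at h64
    norm_num at h64
  obtain ⟨y, hy, hxy⟩ : ∃ y ∈ U, SyC_B B z x y = 1 := by
    by_contra hcon
    push Not at hcon
    apply hxC
    rw [hCmem]
    refine ⟨hx, SyC_B_nondeg c S hz h2 hx fun y hy => ?_⟩
    rcases SyC_two (SyC_B B z x y) with h3 | h3
    · exact h3
    · exact absurd h3 (hcon y hy)
  have hyx : SyC_B B z y x = 1 := by rw [SyC_B_symm c S hz h2 hy hx, hxy]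
  have hxx := SyC_B_self c S hz g hx
  have hyy := SyC_B_self c S hz g hy
  -- the homomorphism
  let φ : U →* Multiplicative (ZMod 2 × ZMod 2) :=
    { toFun := fun u => Multiplicative.ofAdd (SyC_B B z x u, SyC_B B z y u)
      map_one' := by
        have h3 : SyC_B B z x ((1 : U) : G) = 0 := SyC_B_C c S hx U.one_mem (by simp)
        have h4 : SyC_B B z y ((1 : U) : G) = 0 := SyC_B_C c S hy U.one_mem (by simp)
        rw [h3, h4]
        rfl
      map_mul' := by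
        rintro ⟨u, hu⟩ ⟨v, hv⟩
        show Multiplicative.ofAdd (SyC_B B z x (u * v), SyC_B B z y (u * v)) = _
        rw [SyC_B_add c S hz hx hu hv, SyC_B_add c S hz hy hu hv]
        rfl }
  have hφ : ∀ u : U, φ u = Multiplicative.ofAdd (SyC_B B z x u, SyC_B B z y u) := fun _ => rfl
  have hsurj : Function.Surjective φ := by
    intro ab
    have key : ∀ a b : ZMod 2, ∃ u : U, SyC_B B z x u = a ∧ SyC_B B z y u = b := by
      intro a b
      have o1 : SyC_B B z x (1 : G) = 0 := SyC_B_C c S hx U.one_mem (by simp)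
      have o2 : SyC_B B z y (1 : G) = 0 := SyC_B_C c S hy U.one_mem (by simp)
      rcases SyC_two a with rfl | rfl <;> rcases SyC_two b with rfl | rfl
      · exact ⟨1, o1, o2⟩
      · exact ⟨⟨x, hx⟩, hxx, hyx⟩
      · exact ⟨⟨y, hy⟩, hxy, hyy⟩
      · refine ⟨⟨y * x, U.mul_mem hy hx⟩, ?_, ?_⟩
        · show SyC_B B z x (y * x) = 1
          rw [SyC_B_add c S hz hx hy hx, hxy, hxx, add_zero]
        · show SyC_B B z y (y * x) = 1
          rw [SyC_B_add c S hz hy hy hx, hyx, hyy, zero_add]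
    obtain ⟨u, h3, h4⟩ := key (Multiplicative.toAdd ab).1 (Multiplicative.toAdd ab).2
    refine ⟨u, ?_⟩
    rw [hφ, h3, h4]
    rfl
  have hker : Nat.card φ.ker = 16 := by
    have h3 := Subgroup.card_mul_index φ.ker
    rw [Subgroup.index_ker, MonoidHom.range_eq_top.2 hsurj, h64] at h3
    have h4 : Nat.card (⊤ : Subgroup (Multiplicative (ZMod 2 × ZMod 2))) = 4 := by
      rw [Subgroup.card_top]
      have h5 : Nat.card (Multiplicative (ZMod 2 × ZMod 2)) = Nat.card (ZMod 2 × ZMod 2) := rfl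
      rw [h5, Nat.card_prod, Nat.card_zmod]
    rw [h4] at h3
    omega
  have hkmem : ∀ u : U, u ∈ φ.ker ↔ SyC_B B z x u = 0 ∧ SyC_B B z y u = 0 := by
    intro u
    rw [MonoidHom.mem_ker, hφ]
    constructor
    · intro h3
      have h4 := congrArg Multiplicative.toAdd h3
      exact ⟨congrArg Prod.fst h4, congrArg Prod.snd h4⟩
    · rintro ⟨h3, h4⟩
      rw [h3, h4]
      rfl
  -- `C` as a subgroup of the kernel
  set D : Subgroup U := C.subgroupOf U with hD
  have hDk : D ≤ φ.ker := by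
    intro u hu
    rw [hkmem]
    have h3 : (u : G) ∈ C := hu
    rw [hCmem] at h3
    exact ⟨SyC_B_C c S hx h3.1 h3.2, SyC_B_C c S hy h3.1 h3.2⟩
  have hDcard : Nat.card D = 8 := by
    rw [hD, Nat.card_congr (Subgroup.subgroupOfEquivOfLe hCU).toEquiv, hC8]
  have hrel : (D.subgroupOf φ.ker).index = 2 := by
    have h3 := Subgroup.card_mul_index (D.subgroupOf φ.ker)
    rw [Nat.card_congr (Subgroup.subgroupOfEquivOfLe hDk).toEquiv, hDcard, hker] at h3
    omega
  obtain ⟨v, hvk, hvD⟩ : ∃ v ∈ φ.ker, v ∉ D := by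
    by_contra hcon
    push Not at hcon
    have h3 : D = φ.ker := le_antisymm hDk hcon
    rw [h3, hker] at hDcard
    norm_num at hDcard
  have hv := v.2
  obtain ⟨hxv, hyv⟩ := (hkmem v).1 hvk
  have hvC : (v : G) ∉ C := hvD
  -- `B'(v, w) = 0` for `w` in the kernel
  have hvw : ∀ w : U, w ∈ φ.ker → SyC_B B z v w = 0 := by
    intro w hw
    by_cases hwD : w ∈ D
    · have h3 : (w : G) ∈ C := hwD
      rw [hCmem] at h3
      exact SyC_B_C c S hv h3.1 h3.2
    · have h3 := Subgroup.mul_mem_iff_of_index_two hrel (a := ⟨v, hvk⟩) (b := ⟨w, hw⟩)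
      have h4 : v * w ∈ D := by
        have h5 : (⟨v, hvk⟩ * ⟨w, hw⟩ : φ.ker) ∈ D.subgroupOf φ.ker := by
          rw [h3]
          exact iff_of_false hvD hwD
        exact h5
      have h6 : ((v * w : U) : G) ∈ C := h4
      rw [hCmem] at h6
      have h7 : SyC_B B z v ((v : G) * (w : G)) = 0 := SyC_B_C c S hv h6.1 h6.2
      rw [SyC_B_add c S hz hv hv w.2, SyC_B_self c S hz g hv, zero_add] at h7
      exact h7
  have hvx : SyC_B B z v x = 0 := by rw [SyC_B_symm c S hz h2 hv hx, hxv]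
  have hvy : SyC_B B z v y = 0 := by rw [SyC_B_symm c S hz h2 hv hy, hyv]
  apply hvC
  rw [hCmem]
  refine ⟨hv, SyC_B_nondeg c S hz h2 hv fun u hu => ?_⟩
  -- correct `u` by `x` and `y`
  have key : ∀ u' ∈ U, SyC_B B z x u' = 0 → SyC_B B z y u' = 0 → SyC_B B z v u' = 0 :=
    fun u' hu' h3 h4 => hvw ⟨u', hu'⟩ ((hkmem _).2 ⟨h3, h4⟩)
  have h11 : (1 : ZMod 2) + 1 = 0 := by decide
  rcases SyC_two (SyC_B B z x u) with h3 | h3 <;> rcases SyC_two (SyC_B B z y u) with h4 | h4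
  · exact key u hu h3 h4
  · have h5 := key (u * x) (U.mul_mem hu hx)
      (by rw [SyC_B_add c S hz hx hu hx, h3, hxx, add_zero])
      (by rw [SyC_B_add c S hz hy hu hx, h4, hyx, h11])
    rwa [SyC_B_add c S hz hv hu hx, hvx, add_zero] at h5
  · have h5 := key (u * y) (U.mul_mem hu hy)
      (by rw [SyC_B_add c S hz hx hu hy, h3, hxy, h11])
      (by rw [SyC_B_add c S hz hy hu hy, h4, hyy, add_zero])
    rwa [SyC_B_add c S hz hv hu hy, hvy, add_zero] at h5
  · have h5 := key (u * y * x) (U.mul_mem (U.mul_mem hu hy) hx)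
      (by rw [SyC_B_add c S hz hx (U.mul_mem hu hy) hx, SyC_B_add c S hz hx hu hy, h3, hxy, hxx,
        h11, add_zero])
      (by rw [SyC_B_add c S hz hy (U.mul_mem hu hy) hx, SyC_B_add c S hz hy hu hy, h4, hyy, hyx,
        add_zero, h11])
    rwa [SyC_B_add c S hz hv (U.mul_mem hu hy) hx, SyC_B_add c S hz hv hu hy, hvy, hvx, add_zero,
      add_zero] at h5

end Pool.Agent.H27.E7
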