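import Pool.Agent.H27.E7.GrpC

/-!
# E7-11: good involutions if `|U| = 16`: no Klein four group, no element of order 4

`C_U(z)` has order 4 for a good `z ∈ M` (`card_CU`).
`no_klein`: `C_U(z) ∪ C_U(z') ∪ C_U(z z')` has at most `1 + 3·3 = 10 < 16` elements; take `x ∈ U`
outside.  `x0 = x`, `x1 = z x z⁻¹`, `x2 = z' x z'⁻¹`, `x3 = (z z') x (z z')⁻¹` are four different
non trivial elements of `U`, and mutually orthogonal, in a non degenerate symplectic space of
dimension 4 over the field with two elements: contradiction.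
`no_cyc`: `z = y y`.  `D(x, x') = B(x (z x z⁻¹), x')` is alternating with radical `C_U(z)`,
`D(x, x^y) = 0`; so `x^y x ∈ C_U(z)` for all `x`, then `c^y = c` for `c ∈ C_U(z)` and
`x^z = x`, contradiction.
-/

namespace Pool.Agent.H27.E7

open Module

section Lin

variable {V : Type} [AddCommGroup V] [Module (ZMod 2) V] [FiniteDimensional (ZMod 2) V]

theorem lin_klein (b : LinearMap.BilinForm (ZMod 2) V) (hd : finrank (ZMod 2) V = 4)
    (halt : ∀ x, b x x = 0) (hsymm : ∀ x y, b x y = b y x) (hnd : b.Nondegenerate)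
    {x0 x1 x2 x3 : V} (h0 : x0 ≠ 0) (h1 : x1 ≠ 0) (h2 : x2 ≠ 0) (h3 : x3 ≠ 0)
    (h01 : x0 ≠ x1) (h02 : x0 ≠ x2) (h03 : x0 ≠ x3) (h12 : x1 ≠ x2) (h13 : x1 ≠ x3)
    (h23 : x2 ≠ x3) (o01 : b x0 x1 = 0) (o02 : b x0 x2 = 0) (o03 : b x0 x3 = 0)
    (o12 : b x1 x2 = 0) (o13 : b x1 x3 = 0) (o23 : b x2 x3 = 0) : False := by
  classical
  set W : Submodule (ZMod 2) V := Submodule.span (ZMod 2) {x0, x1, x2, x3} with hW
  have key : ∀ x ∈ ({x0, x1, x2, x3} : Set V), ∀ y ∈ ({x0, x1, x2, x3} : Set V),
      b x y = 0 := by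
    intro x hx y hy
    simp only [Set.mem_insert_iff, Set.mem_singleton_iff] at hx hy
    rcases hx with rfl | rfl | rfl | rfl <;> rcases hy with rfl | rfl | rfl | rfl <;>
      first
        | exact halt _
        | assumption
        | (rw [hsymm]; assumption)
  have hiso : W ≤ b.orthogonal W := by
    rw [hW, Submodule.span_le]
    intro y hy
    rw [SetLike.mem_coe, LinearMap.BilinForm.mem_orthogonal_iff]
    intro n hn
    have : Submodule.span (ZMod 2) {x0, x1, x2, x3} ≤ LinearMap.ker (b.flip y) := by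
      rw [Submodule.span_le]
      intro x hx
      simpa using key x hx y hy
    simpa using this hn
  have hf := LinearMap.BilinForm.finrank_orthogonal hnd W
  have hle := Submodule.finrank_mono hiso
  have h5 : ({0, x0, x1, x2, x3} : Finset V).card = 5 := by
    rw [Finset.card_insert_of_notMem, Finset.card_insert_of_notMem,
      Finset.card_insert_of_notMem, Finset.card_insert_of_notMem, Finset.card_singleton]
    · simpa using h23
    · simp [h12, h13]
    · simp [h01, h02, h03]
    · simp [h0.symm, h1.symm, h2.symm, h3.symm]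
  have hsub : ((({0, x0, x1, x2, x3} : Finset V) : Set V)) ⊆ (W : Set V) := by
    intro x hx
    simp only [Finset.coe_insert, Finset.coe_singleton, Set.mem_insert_iff,
      Set.mem_singleton_iff] at hx
    rcases hx with rfl | hx
    · exact W.zero_mem
    · exact Submodule.subset_span (by simpa using hx)
  have hfinV : Finite V := Module.finite_of_finite (ZMod 2)
  have hcard : Nat.card W = 2 ^ finrank (ZMod 2) W := by
    have := Module.natCard_eq_pow_finrank (K := ZMod 2) (V := W)
    simpa using this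
  have h6 : 5 ≤ Nat.card W := by
    have := Set.ncard_le_ncard hsub (Set.toFinite _)
    rw [Set.ncard_coe_finset, h5] at this
    exact this
  have h7 : finrank (ZMod 2) W ≤ 2 := by omega
  have h8 : Nat.card W ≤ 2 ^ 2 := by
    rw [hcard]
    exact Nat.pow_le_pow_right (by norm_num) h7
  omega

theorem lin_cyc (b : LinearMap.BilinForm (ZMod 2) V) (hd : finrank (ZMod 2) V = 4)
    (halt : ∀ x, b x x = 0) (hsymm : ∀ x y, b x y = b y x)
    (hnd : ∀ x, (∀ y, b x y = 0) → x = 0) (T : V →ₗ[ZMod 2] V)
    (hT : ∀ x y, b (T x) (T y) = b x y) (hz : ∀ x, b x (T (T x)) = 0)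
    (hzz : ∀ x, T (T (T (T x))) = x)
    (C : Submodule (ZMod 2) V) (hC : ∀ x, x ∈ C ↔ T (T x) = x) (hC2 : finrank (ZMod 2) C = 2)
    (hCim : ∀ x ∈ C, ∃ w, x = w + T (T w)) : False := by
  have h2 : ∀ x : V, x + x = 0 := by
    intro x
    have : (2 : ZMod 2) • x = x + x := two_smul _ x
    rw [← this, show (2 : ZMod 2) = 0 from rfl, zero_smul]
  have hcc : ∀ r : ZMod 2, r + r = 0 := by decide
  -- totally isotropic
  have hiso : ∀ c ∈ C, ∀ c' ∈ C, b c c' = 0 := by
    intro c hc c' hc'
    obtain ⟨w, rfl⟩ := hCim c hc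
    have h3 : b (T (T w)) c' = b w c' := by
      conv_lhs => rw [← (hC c').1 hc']
      rw [hT, hT]
    rw [map_add, LinearMap.add_apply, h3]
    exact hcc _
  have hCT : ∀ x, x ∈ C ↔ T x ∈ C := by
    intro x
    rw [hC, hC]
    constructor
    · intro h
      rw [h]
    · intro h
      have := congrArg (fun v => T (T (T v))) h
      simpa [hzz] using this
  have hnd2 : ∀ x, (∀ y, b (x + T (T x)) y = 0) → x ∈ C := by
    intro x h
    rw [hC]
    have h3 := hnd _ h
    have h4 : T (T x) = x + (x + T (T x)) := by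
      rw [← add_assoc, h2, zero_add]
    rw [h4, h3, add_zero]
  have hDxx : ∀ x, b (x + T (T x)) x = 0 := by
    intro x
    rw [map_add, LinearMap.add_apply, halt, hsymm, hz, add_zero]
  have hDxT : ∀ x, b (x + T (T x)) (T x) = 0 := by
    intro x
    rw [map_add, LinearMap.add_apply, hT, hsymm (T x) x]
    exact hcc _
  have hDc : ∀ x, ∀ c ∈ C, b (x + T (T x)) c = 0 := by
    intro x c hc
    have h3 : b (T (T x)) c = b x c := by
      conv_lhs => rw [← (hC c).1 hc]
      rw [hT, hT]
    rw [map_add, LinearMap.add_apply, h3]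
    exact hcc _
  -- the claim
  have hcl : ∀ x, x + T x ∈ C := by
    intro x
    by_cases hx : x ∈ C
    · exact C.add_mem hx ((hCT x).1 hx)
    by_contra hw
    have hTx : T x ∉ C := fun h => hx ((hCT x).2 h)
    set C1 : Submodule (ZMod 2) V := C ⊔ Submodule.span (ZMod 2) {x} with hC1
    set C2 : Submodule (ZMod 2) V := C1 ⊔ Submodule.span (ZMod 2) {x + T x} with hC2'
    have hmem1 : ∀ v ∈ C1, ∃ c ∈ C, v = c ∨ v = c + x := by
      intro v hv
      rw [hC1, Submodule.mem_sup] at hv
      obtain ⟨c, hc, s, hs, rfl⟩ := hv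
      rw [Submodule.mem_span_singleton] at hs
      obtain ⟨r, rfl⟩ := hs
      refine ⟨c, hc, ?_⟩
      have : r = 0 ∨ r = 1 := by
        revert r; decide
      rcases this with rfl | rfl
      · left; simp
      · right; simp
    have hlt1 : C < C1 := by
      refine lt_of_le_of_ne le_sup_left fun h => hx ?_
      rw [h]
      exact Submodule.mem_sup_right (Submodule.mem_span_singleton_self x)
    have hlt2 : C1 < C2 := by
      refine lt_of_le_of_ne le_sup_left fun h => ?_
      have h3 : x + T x ∈ C1 := by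
        rw [h]
        exact Submodule.mem_sup_right (Submodule.mem_span_singleton_self _)
      obtain ⟨c, hc, h4 | h4⟩ := hmem1 _ h3
      · exact hw (h4 ▸ hc)
      · apply hTx
        have : T x = c := by
          rw [add_comm] at h4
          exact add_right_cancel h4
        rw [this]
        exact hc
    have hr1 := Submodule.finrank_lt_finrank_of_lt hlt1
    have hr2 := Submodule.finrank_lt_finrank_of_lt hlt2
    have hr3 : finrank (ZMod 2) C2 ≤ finrank (ZMod 2) V := Submodule.finrank_le _
    have htop : C2 = ⊤ := Submodule.eq_top_of_finrank_eq (by omega)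
    apply hx
    apply hnd2
    intro v
    have hv : v ∈ C2 := htop ▸ Submodule.mem_top
    have hle : C2 ≤ LinearMap.ker (b (x + T (T x))) := by
      rw [hC2', hC1]
      refine sup_le (sup_le ?_ ?_) ?_
      · intro c hc
        exact hDc x c hc
      · rw [Submodule.span_singleton_le_iff_mem]
        exact hDxx x
      · rw [Submodule.span_singleton_le_iff_mem, LinearMap.mem_ker, map_add, hDxx, hDxT,
          add_zero]
    exact hle hv
  -- `T` fixes `C`
  have hfix : ∀ c ∈ C, T c = c := by
    intro c hc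
    have h3 : c + T c = 0 := by
      apply hnd
      intro v
      have h4 : b (T c) v = b c (T (T (T v))) := by
        conv_lhs => rw [← hzz v]
        rw [hT]
      rw [map_add, LinearMap.add_apply, h4, ← map_add]
      apply hiso c hc
      have h5 := hcl (T (T (T v)))
      rw [hzz] at h5
      rw [add_comm]
      exact h5
    have h4 : T c = c + (c + T c) := by
      rw [← add_assoc, h2, zero_add]
    rw [h4, h3, add_zero]
  have hall : ∀ x, x ∈ C := by
    intro x
    rw [hC]
    have h3 := hfix _ (hcl x)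
    rw [map_add] at h3
    have h4 : T (T x) = T x + (T x + T (T x)) := by
      rw [← add_assoc, h2, zero_add]
    rw [h4, h3, add_comm x (T x), ← add_assoc, h2, zero_add]
  have : C = ⊤ := Submodule.eq_top_iff'.2 hall
  rw [this, finrank_top] at hC2
  omega

end Lin

variable {G : Type} [Group G] {M U : Subgroup G} {B : G → G → ZMod 2}

theorem exists_lin [Finite G] (c : Cfg M U) (S : Symp M U B) (h16 : Nat.card U = 16) :
    ∃ (V : Type) (_ : AddCommGroup V) (_ : Module (ZMod 2) V)
      (_ : FiniteDimensional (ZMod 2) V) (e : V ≃ U) (b : LinearMap.BilinForm (ZMod 2) V),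
      finrank (ZMod 2) V = 4 ∧ (∀ x y, ((e (x + y) : U) : G) = e x * e y) ∧
        ∀ x y, b x y = B (e x) (e y) := by
  have hcomm : ∀ u v : U, u * v = v * u := by
    intro u v
    have h1 := c.sq _ u.2
    have h2 := c.sq _ v.2
    have h3 := c.sq _ (u * v).2
    have i1 : ((u : G))⁻¹ = u := inv_eq_of_mul_eq_one_left h1
    have i2 : ((v : G))⁻¹ = v := inv_eq_of_mul_eq_one_left h2
    have i3 : (((u * v : U) : G))⁻¹ = (u * v : U) := inv_eq_of_mul_eq_one_left h3
    apply Subtype.ext
    rw [← i3]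
    push_cast
    rw [mul_inv_rev, i1, i2]
  let _ : CommGroup U := { (inferInstance : Group U) with mul_comm := hcomm }
  have hB1 : ∀ w ∈ U, B 1 w = 0 := by
    intro w hw
    have := S.mul_left 1 U.one_mem 1 U.one_mem w hw
    rw [mul_one] at this
    exact left_eq_add.1 this
  have hs2 : ∀ x : Additive U, 2 • x = 0 := by
    intro x
    rw [two_nsmul]
    apply Additive.toMul.injective
    apply Subtype.ext
    exact c.sq _ (Additive.toMul x).2
  let _ : Module (ZMod 2) (Additive U) := AddCommGroup.zmodModule hs2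
  have hsm : ∀ (r : ZMod 2) (x : Additive U), r = 0 ∧ r • x = 0 ∨ r = 1 ∧ r • x = x := by
    intro r x
    have : r = 0 ∨ r = 1 := by
      revert r; decide
    rcases this with rfl | rfl
    · left; simp
    · right; simp
  have hfin : Finite (Additive U) := inferInstanceAs (Finite U)
  have hfd : FiniteDimensional (ZMod 2) (Additive U) := Module.Finite.of_finite
  have hmr : ∀ u ∈ U, ∀ v ∈ U, ∀ w ∈ U, B w (u * v) = B w u + B w v := by
    intro u hu v hv w hw
    rw [S.symm w hw (u * v) (U.mul_mem hu hv), S.mul_left u hu v hv w hw, S.symm u hu w hw,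
      S.symm v hv w hw]
  refine ⟨Additive U, inferInstance, inferInstance, hfd, Additive.toMul,
    LinearMap.mk₂ (ZMod 2) (fun x y : Additive U =>
      B ((Additive.toMul x : U) : G) ((Additive.toMul y : U) : G)) ?_ ?_ ?_ ?_, ?_, ?_, ?_⟩
  · intro x x' y
    exact S.mul_left _ (Additive.toMul x).2 _ (Additive.toMul x').2 _ (Additive.toMul y).2
  · intro r x y
    rcases hsm r x with ⟨h, h'⟩ | ⟨h, h'⟩
    · rw [h', h, zero_smul]
      exact hB1 _ (Additive.toMul y).2
    · rw [h', h, one_smul]
  · intro x y y'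
    exact hmr _ (Additive.toMul y).2 _ (Additive.toMul y').2 _ (Additive.toMul x).2
  · intro r x y
    rcases hsm r y with ⟨h, h'⟩ | ⟨h, h'⟩
    · rw [h', h, zero_smul, S.symm _ (Additive.toMul x).2 _ (Additive.toMul (0 : Additive U)).2]
      exact hB1 _ (Additive.toMul x).2
    · rw [h', h, one_smul]
  · have h1 := Module.natCard_eq_pow_finrank (K := ZMod 2) (V := Additive U)
    have h2 : Nat.card (Additive U) = 16 := h16
    rw [h2, Nat.card_zmod] at h1
    exact (Nat.pow_right_injective (le_refl 2) (by simpa using h1)).symm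
  · intro x y
    rfl
  · intro x y
    rfl

theorem exists_conj (c : Cfg M U) {V : Type} [AddCommGroup V] [Module (ZMod 2) V] (e : V ≃ U)
    (he : ∀ x y, ((e (x + y) : U) : G) = e x * e y) {y : G} (hy : y ∈ M) :
    ∃ T : V →ₗ[ZMod 2] V, ∀ x, ((e (T x) : U) : G) = y * e x * y⁻¹ := by
  let f : V → V := fun x => e.symm ⟨y * e x * y⁻¹, c.nrm y hy _ (e x).2⟩
  have hf : ∀ x, ((e (f x) : U) : G) = y * e x * y⁻¹ := by
    intro x
    simp [f]
  have hadd : ∀ x x', f (x + x') = f x + f x' := by
    intro x x'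
    apply e.injective
    apply Subtype.ext
    rw [hf, he, he, hf, hf]
    group
  refine ⟨AddMonoidHom.toZModLinearMap 2 (AddMonoidHom.mk' f hadd), fun x => ?_⟩
  exact hf x

theorem card_cent [Finite G] (c : Cfg M U) {z : G} (hz : z ∈ M) (g : Good U B z)
    (h16 : Nat.card U = 16) : Nat.card (U ⊓ Subgroup.centralizer {z} : Subgroup G) = 4 := by
  have h := card_CU c hz g.sq g.cz
  rw [h16] at h
  have : Nat.card (U ⊓ Subgroup.centralizer {z} : Subgroup G) ^ 2 = 4 ^ 2 := by
    rw [h]; norm_num
  exact Nat.pow_left_injective (n := 2) (by norm_num) this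

theorem no_klein [Finite G] (c : Cfg M U) (S : Symp M U B) {z z' : G} (hz : z ∈ M)
    (hz' : z' ∈ M) (g : Good U B z) (g' : Good U B z') (g'' : Good U B (z * z'))
    (hc : z * z' = z' * z) (h16 : Nat.card U = 16) : False := by
  have k1 := card_cent c hz g h16
  have k2 := card_cent c hz' g' h16
  have k3 := card_cent c (M.mul_mem hz hz') g'' h16
  -- an element outside the three centralisers
  obtain ⟨x, hxU, hx1, hx2, hx3⟩ : ∃ x ∈ U, z * x ≠ x * z ∧ z' * x ≠ x * z' ∧
      (z * z') * x ≠ x * (z * z') := by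
    by_contra hcon
    push Not at hcon
    have hsub : (U : Set G) ⊆ ((U ⊓ Subgroup.centralizer {z} : Subgroup G) : Set G) ∪
        ((U ⊓ Subgroup.centralizer {z'} : Subgroup G) : Set G) ∪
        ((U ⊓ Subgroup.centralizer {z * z'} : Subgroup G) : Set G) := by
      intro x hx
      by_cases h1 : z * x = x * z
      · left; left
        exact ⟨hx, by simpa [Subgroup.mem_centralizer_singleton_iff] using h1.symm⟩
      by_cases h2 : z' * x = x * z'
      · left; right
        exact ⟨hx, by simpa [Subgroup.mem_centralizer_singleton_iff] using h2.symm⟩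
      right
      have h3 := hcon x hx h1 h2
      exact ⟨hx, by simpa [Subgroup.mem_centralizer_singleton_iff] using h3.symm⟩
    have h1 := Set.ncard_le_ncard hsub (Set.toFinite _)
    have h2 := Set.ncard_union_le (((U ⊓ Subgroup.centralizer {z} : Subgroup G) : Set G) ∪
        ((U ⊓ Subgroup.centralizer {z'} : Subgroup G) : Set G))
        ((U ⊓ Subgroup.centralizer {z * z'} : Subgroup G) : Set G)
    have h3 := Set.ncard_union_le ((U ⊓ Subgroup.centralizer {z} : Subgroup G) : Set G)
        ((U ⊓ Subgroup.centralizer {z'} : Subgroup G) : Set G)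
    have e0 : (U : Set G).ncard = 16 := h16
    have e1 : ((U ⊓ Subgroup.centralizer {z} : Subgroup G) : Set G).ncard = 4 := k1
    have e2 : ((U ⊓ Subgroup.centralizer {z'} : Subgroup G) : Set G).ncard = 4 := k2
    have e3 : ((U ⊓ Subgroup.centralizer {z * z'} : Subgroup G) : Set G).ncard = 4 := k3
    omega
  obtain ⟨V, iA, iM, iF, e, b, hd, he, hb⟩ := exists_lin c S h16
  have e0 : ((e 0 : U) : G) = 1 := by
    have := he 0 0
    rw [add_zero] at this
    exact left_eq_mul.1 this
  obtain ⟨T, hT⟩ := exists_conj c e he hz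
  obtain ⟨T', hT'⟩ := exists_conj c e he hz'
  have iz : z⁻¹ = z := inv_eq_of_mul_eq_one_left g.sq
  have iz' : z'⁻¹ = z' := inv_eq_of_mul_eq_one_left g'.sq
  set x0 : V := e.symm ⟨x, hxU⟩ with hx0
  have ex0 : ((e x0 : U) : G) = x := by simp [hx0]
  have ex1 : ((e (T x0) : U) : G) = z * x * z⁻¹ := by rw [hT, ex0]
  have ex2 : ((e (T' x0) : U) : G) = z' * x * z'⁻¹ := by rw [hT', ex0]
  have ex3 : ((e (T (T' x0)) : U) : G) = z * (z' * x * z'⁻¹) * z⁻¹ := by rw [hT, hT', ex0]
  have hne : ∀ v w : V, ((e v : U) : G) ≠ e w → v ≠ w := by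
    rintro v w h rfl
    exact h rfl
  have hx1' : x ≠ 1 := by
    rintro rfl
    exact hx1 (by simp)
  have hw : z * (z' * x * z'⁻¹) * z⁻¹ = (z * z') * x * (z * z')⁻¹ := by group
  have hw2 : z * (z' * x * z'⁻¹) * z⁻¹ = z' * (z * x * z⁻¹) * z'⁻¹ := by
    rw [hw, hc]; group
  have hconj1 : ∀ a : G, a * x * a⁻¹ = 1 → False := by
    intro a ha
    apply hx1'
    rwa [mul_inv_eq_one, mul_eq_left] at ha
  refine lin_klein b hd (fun v => ?_) (fun v w => ?_) ?_ (x0 := x0) (x1 := T x0) (x2 := T' x0)
    (x3 := T (T' x0)) ?_ ?_ ?_ ?_ ?_ ?_ ?_ ?_ ?_ ?_ ?_ ?_ ?_ ?_ ?_ ?_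
  · rw [hb]; exact S.self _ (e v).2
  · rw [hb, hb]; exact S.symm _ (e v).2 _ (e w).2
  · have hl : ∀ v, (∀ w, b v w = 0) → v = 0 := by
      intro v hv
      by_contra hv0
      have hv1 : ((e v : U) : G) ≠ 1 := by
        intro h
        apply hv0
        apply e.injective
        apply Subtype.ext
        rw [h, e0]
      obtain ⟨w, hwU, hw1⟩ := S.nondeg _ (e v).2 hv1
      have := hv (e.symm ⟨w, hwU⟩)
      rw [hb] at this
      simp only [Equiv.apply_symm_apply] at this
      rw [this] at hw1
      exact absurd hw1 (by decide)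
    refine ⟨hl, fun v hv => hl v fun w => ?_⟩
    have := hv w
    rw [hb] at this ⊢
    rw [S.symm _ (e v).2 _ (e w).2]
    exact this
  · apply hne; rw [ex0, e0]; exact hx1'
  · apply hne; rw [ex1, e0]; exact fun h => hconj1 _ h
  · apply hne; rw [ex2, e0]; exact fun h => hconj1 _ h
  · apply hne; rw [ex3, e0, hw]; exact fun h => hconj1 _ h
  · apply hne; rw [ex0, ex1]
    intro h
    apply hx1
    rw [eq_mul_inv_iff_mul_eq] at h
    exact h.symm
  · apply hne; rw [ex0, ex2]
    intro h
    apply hx2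
    rw [eq_mul_inv_iff_mul_eq] at h
    exact h.symm
  · apply hne; rw [ex0, ex3, hw]
    intro h
    apply hx3
    rw [eq_mul_inv_iff_mul_eq] at h
    exact h.symm
  · apply hne; rw [ex1, ex2]
    intro h
    apply hx3
    have h1 : z' * x = z * x * z⁻¹ * z' := by rw [h]; group
    rw [mul_assoc z z' x, h1, iz]
    calc z * (z * x * z * z') = (z * z) * x * z * z' := by group
      _ = x * (z * z') := by rw [g.sq]; group
  · apply hne; rw [ex1, ex3]
    intro h
    apply hx2
    have h1 : x = z' * x * z'⁻¹ := by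
      have := congrArg (fun t => z⁻¹ * t * z) h
      simpa [mul_assoc] using this
    rw [eq_mul_inv_iff_mul_eq] at h1
    exact h1.symm
  · apply hne; rw [ex2, ex3, hw2]
    intro h
    apply hx1
    have h1 : x = z * x * z⁻¹ := by
      have := congrArg (fun t => z'⁻¹ * t * z') h
      simpa [mul_assoc] using this
    rw [eq_mul_inv_iff_mul_eq] at h1
    exact h1.symm
  · rw [hb, ex0, ex1]; exact g.fz x hxU
  · rw [hb, ex0, ex2]; exact g'.fz x hxU
  · rw [hb, ex0, ex3, hw]; exact g''.fz x hxU
  · rw [hb, ex1, ex2]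
    have h1 : z' * x * z'⁻¹ = z * (z * (z' * x * z'⁻¹) * z⁻¹) * z⁻¹ := by
      rw [iz]
      calc z' * x * z'⁻¹ = 1 * (z' * x * z'⁻¹) * 1 := by group
        _ = (z * z) * (z' * x * z'⁻¹) * (z * z) := by rw [g.sq]
        _ = z * (z * (z' * x * z'⁻¹) * z) * z := by group
    rw [h1, S.inv z hz x hxU _ (c.nrm z hz _ (c.nrm z' hz' x hxU)), hw]
    exact g''.fz x hxU
  · rw [hb, ex1, ex3, S.inv z hz x hxU _ (c.nrm z' hz' x hxU)]
    exact g'.fz x hxU
  · rw [hb, ex2, ex3, hw2, S.inv z' hz' x hxU _ (c.nrm z hz x hxU)]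
    exact g.fz x hxU

theorem no_cyc [Finite G] (c : Cfg M U) (S : Symp M U B) {y : G} (hy : y ∈ M)
    (g : Good U B (y * y)) (h16 : Nat.card U = 16) : False := by
  have k1 := card_cent c (M.mul_mem hy hy) g h16
  obtain ⟨V, iA, iM, iF, e, b, hd, he, hb⟩ := exists_lin c S h16
  have e0 : ((e 0 : U) : G) = 1 := by
    have := he 0 0
    rw [add_zero] at this
    exact left_eq_mul.1 this
  obtain ⟨T, hT⟩ := exists_conj c e he hy
  have hTT : ∀ x, ((e (T (T x)) : U) : G) = (y * y) * e x * (y * y)⁻¹ := by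
    intro x
    rw [hT, hT]; group
  have hinj : Function.Injective fun x : V => ((e x : U) : G) :=
    Subtype.val_injective.comp e.injective
  let C : Submodule (ZMod 2) V := LinearMap.ker (T.comp T - LinearMap.id)
  have hC : ∀ x, x ∈ C ↔ T (T x) = x := by
    intro x
    simp [C, sub_eq_zero]
  have hC' : ∀ x, x ∈ C ↔ (y * y) * (e x : G) = e x * (y * y) := by
    intro x
    rw [hC, ← hinj.eq_iff, hTT, mul_inv_eq_iff_eq_mul]
  have hcard : Nat.card C = 4 := by
    have h1 : (fun x : V => ((e x : U) : G)) '' (C : Set V) =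
        ((U ⊓ Subgroup.centralizer {y * y} : Subgroup G) : Set G) := by
      ext w
      constructor
      · rintro ⟨x, hx, rfl⟩
        refine ⟨(e x).2, ?_⟩
        have := (hC' x).1 hx
        exact (by simpa [Subgroup.mem_centralizer_singleton_iff] using this.symm)
      · rintro ⟨hwU, hw⟩
        refine ⟨e.symm ⟨w, hwU⟩, ?_, by simp⟩
        rw [SetLike.mem_coe, hC']
        have h2 := (Subgroup.mem_centralizer_singleton_iff.1 hw)
        simpa using h2.symm
    have h2 := Set.ncard_image_of_injective (C : Set V) hinj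
    rw [h1] at h2
    have h3 : ((U ⊓ Subgroup.centralizer {y * y} : Subgroup G) : Set G).ncard = 4 := k1
    rw [h3] at h2
    exact h2.symm
  have hC2 : finrank (ZMod 2) C = 2 := by
    have h1 := Module.natCard_eq_pow_finrank (K := ZMod 2) (V := C)
    rw [hcard, Nat.card_zmod] at h1
    exact (Nat.pow_right_injective (le_refl 2) (by simpa using h1)).symm
  refine lin_cyc b hd (fun v => ?_) (fun v w => ?_) ?_ T (fun v w => ?_) (fun v => ?_)
    (fun v => ?_) C hC hC2 ?_
  · rw [hb]; exact S.self _ (e v).2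
  · rw [hb, hb]; exact S.symm _ (e v).2 _ (e w).2
  · intro v hv
    by_contra hv0
    have hv1 : ((e v : U) : G) ≠ 1 := by
      intro h
      apply hv0
      apply e.injective
      apply Subtype.ext
      rw [h, e0]
    obtain ⟨w, hwU, hw1⟩ := S.nondeg _ (e v).2 hv1
    have := hv (e.symm ⟨w, hwU⟩)
    rw [hb] at this
    simp only [Equiv.apply_symm_apply] at this
    rw [this] at hw1
    exact absurd hw1 (by decide)
  · rw [hb, hb, hT, hT]
    exact S.inv y hy _ (e v).2 _ (e w).2
  · rw [hb, hTT]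
    exact g.fz _ (e v).2
  · apply hinj
    simp only
    rw [hTT, hTT]
    calc y * y * (y * y * ↑(e v) * (y * y)⁻¹) * (y * y)⁻¹
        = ((y * y) * (y * y)) * ↑(e v) * ((y * y) * (y * y))⁻¹ := by group
      _ = e v := by rw [g.sq]; simp
  · intro v hv
    obtain ⟨w, hwU, hw⟩ := g.cz _ (e v).2 ((hC' v).1 hv)
    refine ⟨e.symm ⟨w, hwU⟩, ?_⟩
    apply hinj
    show ((e v : U) : G) = ((e (e.symm ⟨w, hwU⟩ + T (T (e.symm ⟨w, hwU⟩))) : U) : G)
    rw [he, hTT, hw]
    simp

end Pool.Agent.H27.E7
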