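import Pool.Agent.H27.E7.NA

/-!
# E7-18: elements of `F ⊓ NN` which act trivially on `EE F / Z` (Step 4 of note 1310)

`fixX`: `uu c ∈ Z`.  For `a ∈ PZ F` the weight of `uu c` at `a` is 1, so `ip c a` is even
(`wt_uu`); it is not `±2` (`a = ± c` would give `c ∈ PZ F`, against `n2`), so it is 0 (`ip_cases`).
So `hd c t` has weight `t^0 = 1` on `PZ F` and `hd c t ∈ Z` for all `t : Kˣ` (`t0`, `hd_mem_T1`).
`m (hd c t) m⁻¹ = hd (w c) t` (`NN_conj_hd`) and it is equal to `hd c t` (`CCa_comm`).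
Weights at `c`: `t^(ip c c) = t^(ip (w c) c)`, so `t^(2 - ip (w c) c) = 1` for all `t`; a generator
`t` of `Kˣ` has order `|K| - 1 ≥ 6`, and `0 ≤ 2 - ip (w c) c ≤ 4`; so `ip (w c) c = 2`, `w c = c`
(`eq_of_ip_two`).
`triv_pm`: let `m ∈ F ⊓ NN` act trivially on `EE F / Z`, `w` its permutation (`NN_perm`).
(1) `a ∈ PZ F`: `m (uu a) m⁻¹ = uu (w a)`, so `uu (w a) * uu a ∈ Z` and `w a = ± a` (`n3`).
(2) `c` with `uu c ∈ Z`: `w c = c` (`fixX`).
(3) `g` any other root: `uu g ∉ Z`, so by `n1` `uu g * uu a ∈ Z`, `a ∈ PZ F`, i.e.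
`hd (g + a) (-1) ∈ Z` (`hd_add`).  By `H7.r63` `g + a ∈ Rad2` or `g + a - c ∈ Rad2` for a root `c`.  In
the second case `hd c (-1) = hd (g + a) (-1)` (same weights) is in `Z`.  `w` preserves `ip`, is
additive (`perm_add`), `w (-a) = -w a`: so (first case, `r = g + a`) `w g + w a ∈ Rad2`:
`ip (w g + w a) b = ip (g + a) (w⁻¹ b)` is even; and `w a = ± a ≡ a` modulo `2 ℤ^n`, so
`w g - g = (w g + w a) - (g + a) - (w a - a)` is in `Rad2`; second case: `w g + w a - w c`,
`w c = c`, in the same way `w g - g ∈ Rad2`.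
So for every root `g`: `w g - g ∈ Rad2` (in case (1) `w a - a` is 0 or `-2a`), its norm
`4 - 2 ip (w g) g` is 0 or 6 modulo 8 (`H7.nrm`), and 6 is impossible as then
`ip (w g) g = -1` (`ip_cases`), `ip (w g - g) g = -3` odd.  So `w g = ± g` for all roots.
(4) If `w g = g` and `w g' = - g'` for roots `g, g'`: `ip g g' = ip (w g) (w g') = - ip g g'`, so
`ip g g' = 0` and by `Hyp.rb` there is `y` with `ip y g = 1`, `ip y g' = -1`; `w y = ± y`: `w y = y`
gives `ip y g' = ip (w y) (w g') = - ip y g'`, contradiction, and `w y = - y` gives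
`ip y g = - ip y g`, contradiction.  So `w = 1` (then `m ∈ TT`: `mem_TT_of` or weights) or `w g = - g` for
all `g`, and then there is no `c` with `uu c ∈ Z` by (2).
-/

namespace Pool.Agent.H27.E7

open Pool.Agent.H33.EL

variable {n : ℕ} {C : Matrix (Fin n) (Fin n) ℤ} {K : Type} [Field K] [Fintype (Rt C)]
variable {F : Subgroup (LL C K ≃ₗ[K] LL C K)}

private theorem triv_ip0 (H : Hyp C K) (X : Ctx F) (hb : Big F) {c : Rt C} (hc : uu K c ∈ Zc F)
    {a : Rt C} (ha : a ∈ PZ F) : ip C c.1 a.1 = 0 := by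
  have h1 : Even (ip C c.1 a.1) := (wt_uu H c a).1 (ha _ hc)
  rcases ip_cases H c a with h | h | h | h | h
  · exfalso
    have h2 : ng a ∈ PZ F := PZ_ng H X ha
    rw [h, ng_ng] at h2
    exact n2 H X hb h2 hc
  · rw [h] at h1
    exact absurd h1 (by decide)
  · exact h
  · rw [h] at h1
    exact absurd h1 (by decide)
  · exfalso
    rw [h] at ha
    exact n2 H X hb ha hc

private theorem triv_unit (H : Hyp C K) {j : ℤ} (h0 : 0 ≤ j) (h4 : j ≤ 4)
    (h : ∀ t : Kˣ, t ^ j = 1) : j = 0 := by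
  have hcard : 7 ≤ Nat.card K := by rcases H.card with h | h | h <;> omega
  haveI : Finite K := Nat.finite_of_card_ne_zero (by omega)
  haveI : Fintype K := Fintype.ofFinite K
  obtain ⟨t, ht⟩ := IsCyclic.exists_ofOrder_eq_natCard (α := Kˣ)
  have h1 : Nat.card Kˣ = Nat.card K - 1 := Nat.card_units K
  have h2 : orderOf t = Nat.card K - 1 := by rw [ht, h1]
  have h3 : ((orderOf t : ℕ) : ℤ) ∣ j := orderOf_dvd_iff_zpow_eq_one.2 (h t)
  rw [h2] at h3
  by_contra hj
  have h5 := Int.le_of_dvd (by omega) h3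
  omega

theorem fixX (H : Hyp C K) (X : Ctx F) (hb : Big F) {c : Rt C} (hc : uu K c ∈ Zc F)
    {m : LL C K ≃ₗ[K] LL C K} (hm : m ∈ F) (hN : m ∈ NN C K) :
    ∃ k : K, m (e K c) = k • e K c := by
  obtain ⟨w, k, hk, hw, hip, hng, hhh⟩ := NN_perm H hN
  have hz : ∀ t : Kˣ, (hd C c.1 t : LL C K ≃ₗ[K] LL C K) ∈ Zc F := by
    intro t
    refine t0 H X (X.hT (hd_mem_T1 H _ _)) (hd_mem_TT H _ _) fun a ha => ?_
    rw [wt_hd, triv_ip0 H X hb hc ha, zpow_zero, Units.val_one]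
  have heq : ∀ t : Kˣ, (hd C c.1 t : LL C K ≃ₗ[K] LL C K) = hd C (w c).1 t := by
    intro t
    have h1 := NN_conj_hd H hN (hw c) (hk c) t
    rw [CCa_comm (hz t) hm, mul_assoc, mul_inv_cancel, mul_one] at h1
    exact h1
  have hone : ∀ t : Kˣ, t ^ (2 - ip C (w c).1 c.1) = 1 := by
    intro t
    have h1 : wt (hd C c.1 t : LL C K ≃ₗ[K] LL C K) c = wt (hd C (w c).1 t) c := by
      rw [heq t]
    rw [wt_hd, wt_hd] at h1
    have h2 : t ^ (ip C c.1 c.1) = t ^ (ip C (w c).1 c.1) := Units.ext h1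
    rw [c.2] at h2
    rw [zpow_sub, h2, mul_inv_cancel]
  have h2 := triv_unit H (j := 2 - ip C (w c).1 c.1)
    (by have := ip_le_two H (w c) c; omega) (by have := neg_two_le_ip H (w c) c; omega) hone
  have h3 : w c = c := eq_of_ip_two H (by omega)
  refine ⟨k c, ?_⟩
  rw [hw c, h3]

private theorem triv_rad_w (H : Hyp C K) (w : Equiv.Perm (Rt C))
    (hip : ∀ a b, ip C (w a).1 (w b).1 = ip C a.1 b.1) {a b : Rt C}
    (h : a.1 + b.1 ∈ Rad2 C) : (w a).1 + (w b).1 ∈ Rad2 C := by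
  intro g
  have h1 := h (w.symm g)
  rw [ip_add_left] at h1 ⊢
  have e1 : ip C (w a).1 g.1 = ip C a.1 (w.symm g).1 := by
    have h2 := hip a (w.symm g)
    rw [w.apply_symm_apply] at h2
    exact h2
  have e2 : ip C (w b).1 g.1 = ip C b.1 (w.symm g).1 := by
    have h2 := hip b (w.symm g)
    rw [w.apply_symm_apply] at h2
    exact h2
  rw [e1, e2]
  exact h1

private theorem triv_rad_w3 (H : Hyp C K) (w : Equiv.Perm (Rt C))
    (hip : ∀ a b, ip C (w a).1 (w b).1 = ip C a.1 b.1) {a b c : Rt C}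
    (h : a.1 + b.1 - c.1 ∈ Rad2 C) : (w a).1 + (w b).1 - (w c).1 ∈ Rad2 C := by
  intro g
  have h1 := h (w.symm g)
  rw [ip_sub_left, ip_add_left] at h1 ⊢
  have e : ∀ x : Rt C, ip C (w x).1 g.1 = ip C x.1 (w.symm g).1 := by
    intro x
    have h2 := hip x (w.symm g)
    rw [w.apply_symm_apply] at h2
    exact h2
  rw [e a, e b, e c]
  exact h1

private theorem triv_pm_rad (H : Hyp C K) {a b : Rt C} (h : b = a ∨ b = ng a) :
    b.1 - a.1 ∈ Rad2 C := by
  rcases h with h | h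
  · rw [h, sub_self]
    exact (Rad2 C).zero_mem
  · intro g
    rw [h, ng_val, ip_sub_left, ip_neg_left]
    exact ⟨-ip C a.1 g.1, by ring⟩

private theorem triv_uu_eq (H : Hyp C K) {y z : Fin n → ℤ} (h : y - z ∈ Rad2 C) :
    (hd C y (-1) : LL C K ≃ₗ[K] LL C K) = hd C z (-1) := by
  refine TT_ext H (hd_mem_TT H _ _) (hd_mem_TT H _ _) fun b => ?_
  rw [wt_hd, wt_hd]
  congr 1
  have h1 : Even (ip C (y - z) b.1) := h b
  rw [ip_sub_left] at h1
  have h2 : ip C y b.1 = (ip C y b.1 - ip C z b.1) + ip C z b.1 := by ring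
  rw [h2, zpow_add, h1.neg_one_zpow, one_mul]

theorem triv_pm (H : Hyp C K) (X : Ctx F) (hb : Big F) (h7 : H7 C)
    {m : LL C K ≃ₗ[K] LL C K} (hm : m ∈ F) (hN : m ∈ NN C K)
    (ht : ∀ s ∈ EE F, m * s * m⁻¹ * s⁻¹ ∈ Zc F) :
    m ∈ TT C K ∨ ((∀ a : Rt C, ∃ k : K, m (e K a) = k • e K (ng a)) ∧
      ∀ c : Rt C, uu K c ∉ Zc F) := by
  obtain ⟨w, k, hk, hw, hip, hng, hhh⟩ := NN_perm H hN
  -- (1)
  have s1 : ∀ a ∈ PZ F, w a = a ∨ w a = ng a := by
    intro a ha
    have h1 := ht _ (uu_EE H X a)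
    rw [uu_conj H hN (hw a)] at h1
    have h2 : (uu K a)⁻¹ = uu K a := inv_eq_of_mul_eq_one_left (uu_sq H a)
    rw [h2] at h1
    rcases n3 H X hb ((PZ_perm H X hm (hw a)).1 ha) ha h1 with h | h
    · exact Or.inl h.symm
    · right
      have h3 : ng a = ng (ng (w a)) := congrArg ng h
      rw [ng_ng] at h3
      exact h3.symm
  -- (2)
  have s2 : ∀ c : Rt C, uu K c ∈ Zc F → w c = c := by
    intro c hc
    obtain ⟨k', hk'⟩ := fixX H X hb hc hm hN
    exact nor_root_eq (hk c) ((hw c).symm.trans hk')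
  -- (3)
  have s3 : ∀ g : Rt C, (w g).1 - g.1 ∈ Rad2 C := by
    intro g
    by_cases hg : uu K g ∈ Zc F
    · exact triv_pm_rad H (Or.inl (s2 g hg))
    obtain ⟨a, ha, hz⟩ := n1 H X hb (uu_EE H X g) hg
    have hz2 : (hd C (g.1 + a.1) (-1) : LL C K ≃ₗ[K] LL C K) ∈ Zc F := by
      rw [hd_add]
      exact hz
    have ha2 : (w a).1 - a.1 ∈ Rad2 C := triv_pm_rad H (s1 a ha)
    rcases h7.r63 (g.1 + a.1) with hr | ⟨c, hr⟩
    · have h3 := triv_rad_w H w hip hr
      have h4 : (w g).1 - g.1 = ((w g).1 + (w a).1) - (g.1 + a.1) - ((w a).1 - a.1) := by abel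
      rw [h4]
      exact sub_mem (sub_mem h3 hr) ha2
    · have h3 := triv_rad_w3 H w hip hr
      have hc : uu K c ∈ Zc F := by
        have h5 := triv_uu_eq H hr
        show (hd C c.1 (-1) : LL C K ≃ₗ[K] LL C K) ∈ Zc F
        rw [← h5]
        exact hz2
      have h6 := s2 c hc
      rw [h6] at h3
      have h4 : (w g).1 - g.1 =
          ((w g).1 + (w a).1 - c.1) - (g.1 + a.1 - c.1) - ((w a).1 - a.1) := by abel
      rw [h4]
      exact sub_mem (sub_mem h3 hr) ha2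
  have s4 : ∀ g : Rt C, w g = g ∨ w g = ng g := by
    intro g
    have h1 : Even (ip C ((w g).1 - g.1) g.1) := s3 g g
    have h2 := h7.nrm _ (s3 g)
    rw [Ip_norm_sub H (w g) g] at h2
    rw [ip_sub_left, g.2] at h1
    rcases ip_cases H (w g) g with h | h | h | h | h
    · right
      have h3 : ng g = ng (ng (w g)) := congrArg ng h
      rw [ng_ng] at h3
      exact h3.symm
    · rw [h] at h1
      exact absurd h1 (by decide)
    · rw [h] at h2
      omega
    · rw [h] at h1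
      exact absurd h1 (by decide)
    · exact Or.inl h.symm
  -- (4)
  have s5 : ∀ g g' : Rt C, w g = g → w g' = ng g' → False := by
    intro g g' h1 h2
    have h3 : ip C g.1 g'.1 = 0 := by
      have h4 := hip g g'
      rw [h1, h2, ng_val, ip_neg_right] at h4
      omega
    obtain ⟨y, hy1, hy2⟩ := H.rb g g' h3
    rcases s4 y with h5 | h5
    · have h4 := hip y g'
      rw [h5, h2, ng_val, ip_neg_right] at h4
      omega
    · have h4 := hip y g
      rw [h5, h1, ng_val, ip_neg_left] at h4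
      omega
  by_cases hall : ∀ g, w g = g
  · left
    exact mem_TT_of H (NN_le_GG hN) fun a => ⟨k a, by rw [hw a, hall a]⟩
  · right
    obtain ⟨g0, hg0⟩ := not_forall.1 hall
    have h0 : w g0 = ng g0 := (s4 g0).resolve_left hg0
    have hall2 : ∀ g, w g = ng g := fun g => (s4 g).resolve_left fun h => s5 g g0 h h0
    refine ⟨fun a => ⟨k a, by rw [hw a, hall2 a]⟩, fun c hc => ?_⟩
    have h1 := s2 c hc
    rw [hall2 c] at h1
    exact ng_ne H c h1

end Pool.Agent.H27.E7
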