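import Pool.Agent.H27.E7.CardU
import Pool.Agent.H27.E7.Triv
import Pool.Agent.H27.E7.SyB
import Pool.Agent.H27.E7.SyC
import Pool.Agent.H27.E7.SyD
import Pool.Agent.H27.E7.Grp2

/-!
# E7-19: involutions and 2-subgroups of `M ∩ x M x⁻¹` (Steps 5, 6 of note 1310)

`inv_dich`.  `M = MQ F`, `U = UQ H F`, `z ∈ M`, `x⁻¹ z x ∈ M`, `x ∉ M`, `z z = 1`, `z ≠ 1`.
If some `u ∈ U` does not commute with `z` then `z` is good (`good_of` with `card8`, `cfg`, `symp`) and
`|U| ≠ 64` by `no64`, so `|U| = 16` (`cardU`).  Otherwise write `z = cl m` (`cl_surj`), `m ∈ NN`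
(`cl_MQ`); `triv_pm`: if `m ∈ TT` then `m ∈ EE F` (`z z = 1` says `m m ∈ Z`), so `z ∈ U`, `z ≠ 1`,
and `x⁻¹ z x ∈ M` gives `x⁻¹ ∈ M` by `Cfg.star`, contradiction.  Otherwise the second alternative of
`triv_pm` and `|U| = 64` by `cardU64`.
`two_part`.  Suppose `|P| > 2`; `two_grp` (for the group `QF F`).
* `|U| = 16`: all involutions of `P` are good, contradiction by `no_klein` or `no_cyc`.
* `|U| = 64`, two commuting involutions `z = cl m ≠ z' = cl m'`: `z z'` is an involution of `P`,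
  `z z' = cl (m m')`, and `m m'` maps `e_a` to a multiple of `e_a`; by `inv_dich` for
  `z z'` it is also `cl m''` with `m'' e_a ∈ K e_(-a)`, `m'' = m m' ζ`, `ζ ∈ Z ≤ TT`
  (`TT_e`), contradiction (`nor_root_eq`, `ng_ne`).
* `|U| = 64`, `y ∈ P` of order 4: `y = cl g`, `y y = cl m`, `g g = m ζ`, `ζ ∈ Z ≤ TT`.  `g ∈ NN`
  preserves `L0`; let `D : K^n → K^n` be the linear map with `g (hh h) = hh (D h)`.  `m (hh (zk a)) =
  hh (zk (-a))` (`NN_perm`: `m (hh a) = hh (w a)` and `w a = - a`, see its last clauses) for all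
  roots `a`, the simple roots span `K^n`, so `m = -1` on `L0`, `ζ = 1` on `L0`, `D² = -1`,
  `det(D)² = det(-1) = (-1)^n = -1` (`H7.odd`).  But `-1` is not a square in `K` as `|K|` is 7 or 11
  (`FiniteField.isSquare_neg_one_iff`).
-/

namespace Pool.Agent.H27.E7

open Pool.Agent.H33.EL

variable {n : ℕ} {C : Matrix (Fin n) (Fin n) ℤ} {K : Type} [Field K] [Fintype (Rt C)]
variable {F : Subgroup (LL C K ≃ₗ[K] LL C K)}

theorem inv_dich (H : Hyp C K) (X : Ctx F) (hb : Big F) (h7 : H7 C) {x z : QF F}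
    (hx : x ∉ MQ F) (hz : z ∈ MQ F) (hz' : x⁻¹ * z * x ∈ MQ F) (h2 : z * z = 1) (h1 : z ≠ 1) :
    (Nat.card (UQ H F) = 16 ∧ Good (UQ H F) (BQ F) z) ∨
    (Nat.card (UQ H F) = 64 ∧ ∃ (m : LL C K ≃ₗ[K] LL C K) (hm : m ∈ F), z = cl hm ∧
      m ∈ NN C K ∧ ∀ a : Rt C, ∃ k : K, m (e K a) = k • e K (ng a)) := by
  have := QF_finite H F
  have c := cfg H X hb.ind
  have S := symp H X hb
  by_cases hne : ∃ u ∈ UQ H F, z * u ≠ u * z
  · have g := good_of c S hx hz hz' h2 (card8 H X hb.ind) hne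
    rcases cardU H X hb h7 with h | h
    · exact Or.inl ⟨h, g⟩
    · exact (no64 c S hz g h).elim
  · push Not at hne
    obtain ⟨m, hm, rfl⟩ := cl_surj z
    have hN : m ∈ NN C K := (cl_MQ H X hm).1 hz
    have ht : ∀ s ∈ EE F, m * s * m⁻¹ * s⁻¹ ∈ Zc F := by
      intro s hs
      have h3 := hne (cl hs.1) ((cl_UQ H X hs.1).2 hs)
      rw [cl_mul, cl_mul, cl_eq_iff] at h3
      have h4 : m * s * m⁻¹ * s⁻¹ = m * s * (s * m)⁻¹ := by group
      rw [h4]
      exact h3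
    have hmm : m * m ∈ Zc F := by
      rw [cl_mul, cl_one_iff] at h2
      exact h2
    rcases triv_pm H X hb h7 hm hN ht with hT | ⟨h3, h4⟩
    · exfalso
      have hE : m ∈ EE F := ⟨hm, hT, hmm⟩
      have hU : cl hm ∈ UQ H F := (cl_UQ H X hm).2 hE
      have h5 := c.star _ hU h1 x⁻¹ (by rw [inv_inv]; exact hz')
      exact hx (by rw [← inv_inv x]; exact inv_mem h5)
    · exact Or.inr ⟨(cardU64 H X hb h7).2 h4, m, hm, rfl, hN, h3⟩

private theorem inv2_ne {m : LL C K ≃ₗ[K] LL C K} {a b : Rt C} {k : K}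
    (h : m (e K a) = k • e K b) : k ≠ 0 := by
  rintro rfl
  rw [zero_smul] at h
  have h1 : (e K a : LL C K) = 0 := m.injective (by rw [h, map_zero])
  exact e_ne_zero a h1

private theorem inv2_klein (H : Hyp C K) (X : Ctx F) {m m' m'' : LL C K ≃ₗ[K] LL C K}
    (h : m * m' * m''⁻¹ ∈ Zc F) (h1 : ∀ a : Rt C, ∃ k : K, m (e K a) = k • e K (ng a))
    (h2 : ∀ a : Rt C, ∃ k : K, m' (e K a) = k • e K (ng a))
    (h3 : ∀ a : Rt C, ∃ k : K, m'' (e K a) = k • e K (ng a)) : False := by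
  obtain ⟨a, -⟩ := PZ_nonempty H X
  obtain ⟨k2, hk2⟩ := h2 a
  obtain ⟨k1, hk1⟩ := h1 (ng a)
  obtain ⟨k3, hk3⟩ := h3 a
  have hT := Zc_le_TT H X h
  have e1 : (m * m') (e K a) = (k2 * k1) • e K a := by
    rw [LinearEquiv.mul_apply, hk2, map_smul, hk1, smul_smul, ng_ng]
  have e2 : (m * m') (e K a) =
      (k3 * wt (m * m' * m''⁻¹) (ng a)) • e K (ng a) := by
    have e3 : m * m' = (m * m' * m''⁻¹) * m'' := by group
    rw [e3, LinearEquiv.mul_apply, hk3, map_smul, TT_e H hT, smul_smul, ← e3]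
  exact ng_ne H a (nor_root_eq (inv2_ne e1) (e1.symm.trans e2)).symm

private theorem inv2_sq (H : Hyp C K) (hodd : Odd n) (D : (Fin n → K) →ₗ[K] (Fin n → K))
    (hD : ∀ a : Rt C, D (D (zk a.1)) = -zk a.1) : IsSquare (-1 : K) := by
  have h1 : D.comp D = (-1 : K) • LinearMap.id := by
    refine LinearMap.ext fun h => ?_
    refine Submodule.span_induction (p := fun h _ => D.comp D h = ((-1 : K) • LinearMap.id) h)
      ?_ ?_ ?_ ?_ (zk_span H h)
    · rintro _ ⟨a, rfl⟩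
      rw [LinearMap.comp_apply, hD]
      simp
    · simp
    · intro u v _ _ hu hv
      rw [map_add, map_add, hu, hv]
    · intro t u _ hu
      rw [map_smul, map_smul, hu]
  refine ⟨LinearMap.det D, ?_⟩
  rw [← LinearMap.det_comp, h1, LinearMap.det_smul, Module.finrank_fin_fun, LinearMap.det_id,
    mul_one, hodd.neg_one_pow]

private theorem inv2_cyc (H : Hyp C K) (X : Ctx F) (h7 : H7 C)
    (hK : Nat.card K = 7 ∨ Nat.card K = 11) {g m : LL C K ≃ₗ[K] LL C K} (hg : g ∈ NN C K)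
    (hm : m ∈ NN C K) (h : g * g * m⁻¹ ∈ Zc F)
    (h1 : ∀ a : Rt C, ∃ k : K, m (e K a) = k • e K (ng a)) : False := by
  have hT := Zc_le_TT H X h
  obtain ⟨w, k, hk, hw1, -, -, hw⟩ := NN_perm H hm
  have hwa : ∀ a, w a = ng a := by
    intro a
    obtain ⟨l, hl⟩ := h1 a
    exact nor_root_eq (hk a) ((hw1 a).symm.trans hl)
  have hgg : ∀ a : Rt C, g (g (hh C (zk a.1))) = -hh C (zk a.1) := by
    intro a
    have e3 : g * g = (g * g * m⁻¹) * m := by group
    have e4 : g (g (hh C (zk a.1))) = (g * g * m⁻¹) (m (hh C (zk a.1))) := by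
      rw [← LinearEquiv.mul_apply, ← LinearEquiv.mul_apply, ← e3]
    rw [e4, hw a, hT.2 _ (hh_mem_L0 _), hwa a, ng_val, zk_neg]
    refine Prod.ext rfl ?_
    simp [hh]
  let D : (Fin n → K) →ₗ[K] (Fin n → K) :=
    (LinearMap.fst K (Fin n → K) (Rt C → K)).comp
      ((g : LL C K →ₗ[K] LL C K).comp (LinearMap.inl K (Fin n → K) (Rt C → K)))
  have hDh : ∀ h : Fin n → K, D h = (g (hh C h)).1 := fun h => rfl
  have hgD : ∀ h : Fin n → K, g (hh C h) = hh C (D h) := by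
    intro h
    rw [hDh]
    exact eq_hh_of_mem ((hg.2 _).2 (hh_mem_L0 h))
  have hD : ∀ a : Rt C, D (D (zk a.1)) = -zk a.1 := by
    intro a
    rw [hDh (D (zk a.1)), ← hgD, hgg a]
    rfl
  have hs := inv2_sq H h7.odd D hD
  have hfin : Finite K := Nat.finite_of_card_ne_zero (by rcases hK with h | h <;> omega)
  have := Fintype.ofFinite K
  rw [FiniteField.isSquare_neg_one_iff] at hs
  rw [Nat.card_eq_fintype_card] at hK
  rcases hK with h | h <;> rw [h] at hs <;> exact hs rfl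

theorem two_part (H : Hyp C K) (X : Ctx F) (hb : Big F) (h7 : H7 C)
    (hK : Nat.card K = 7 ∨ Nat.card K = 11) {x : QF F} (hx : x ∉ MQ F) (P : Subgroup (QF F))
    (hP : IsPGroup 2 P) (hM : ∀ p ∈ P, p ∈ MQ F ∧ x⁻¹ * p * x ∈ MQ F) : Nat.card P ≤ 2 := by
  by_contra hcon
  have := QF_finite H F
  have c := cfg H X hb.ind
  have S := symp H X hb
  have hd : ∀ z ∈ P, z * z = 1 → z ≠ 1 →
      (Nat.card (UQ H F) = 16 ∧ Good (UQ H F) (BQ F) z) ∨
      (Nat.card (UQ H F) = 64 ∧ ∃ (m : LL C K ≃ₗ[K] LL C K) (hm : m ∈ F), z = cl hm ∧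
        m ∈ NN C K ∧ ∀ a : Rt C, ∃ k : K, m (e K a) = k • e K (ng a)) :=
    fun z hz h2 h1 => inv_dich H X hb h7 hx (hM z hz).1 (hM z hz).2 h2 h1
  rcases two_grp P hP (not_le.1 hcon) with ⟨y, hy, h1, h2⟩ | ⟨z, hz, z', hz', h1, h2, h3, h4, h5, h6⟩
  · rcases hd (y * y) (mul_mem hy hy) h2 h1 with ⟨h16, g⟩ | ⟨h64, m, hm, hym, hmN, hma⟩
    · exact no_cyc c S (hM y hy).1 g h16
    · obtain ⟨g, hg, rfl⟩ := cl_surj y
      have hgN : g ∈ NN C K := (cl_MQ H X hg).1 (hM _ hy).1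
      rw [cl_mul, cl_eq_iff] at hym
      exact inv2_cyc H X h7 hK hgN hmN hym hma
  · have h7' : z * z' ≠ 1 := by
      intro h
      apply h5
      calc z = z * (z' * z') := by rw [h2, mul_one]
        _ = z * z' * z' := by rw [mul_assoc]
        _ = z' := by rw [h, one_mul]
    have h8 : (z * z') * (z * z') = 1 := by
      calc (z * z') * (z * z') = (z * z') * (z' * z) := by rw [h6]
        _ = z * (z' * z') * z := by group
        _ = 1 := by rw [h2, mul_one, h1]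
    rcases hd z hz h1 h3 with ⟨h16, g⟩ | ⟨h64, m, hm, hym, hmN, hma⟩
    · rcases hd z' hz' h2 h4 with ⟨-, g'⟩ | ⟨h64, -⟩
      · rcases hd (z * z') (mul_mem hz hz') h8 h7' with ⟨-, g''⟩ | ⟨h64, -⟩
        · exact no_klein c S (hM z hz).1 (hM z' hz').1 g g' g'' h6 h16
        · omega
      · omega
    · rcases hd z' hz' h2 h4 with ⟨h16, -⟩ | ⟨-, m', hm', hym', hmN', hma'⟩
      · omega
      · rcases hd (z * z') (mul_mem hz hz') h8 h7' with ⟨h16, -⟩ | ⟨-, m'', hm'', hym'', hmN'', hma''⟩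
        · omega
        · rw [hym, hym', cl_mul, cl_eq_iff] at hym''
          exact inv2_klein H X hym'' hma hma' hma''

end Pool.Agent.H27.E7
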