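import Pool.Agent.H27.E7.GrpA

/-!
# E7-08: a group of odd order is not transitive on the non zero vectors (LEMMA L1 of note 1310)

`n = |N|` odd, `q = |U|`, `8 ∣ q`.  Choose an injection `φ : N → ℕ` (finite group) and
`P = {g ∈ N : φ g < φ g⁻¹}`, so `N - {1}` is the disjoint union of `P` and `P⁻¹`
(`g = g⁻¹` means `g² = 1`, `g = 1` as the order is odd).
`f(x) = ∑_(g ∈ P) B(g x g⁻¹, x)` for `x ∈ U`.
(1) `B(g x g⁻¹, x) = B(x, g⁻¹ x g) = B(g⁻¹ x g, x)` (invariance under `g⁻¹`, symmetry), so for
`x ≠ 1`: `2 * #{g ∈ P : B(g x g⁻¹, x) = 1} = #{g ∈ N : B(g x g⁻¹, x) = 1}` (`B(x,x) = 0`).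
The right side: `N` is transitive on `U# = U - {1}`, so every `y ∈ U#` is `g x g⁻¹` for exactly
`s = n / (q - 1)` elements `g ∈ N` (orbit stabiliser; all fibres of `g ↦ g x g⁻¹` are cosets of the
same stabiliser), and `#{y ∈ U : B(y, x) = 1} = q / 2` (translation by a `v` with `B(v, x) = 1`
exchanges the two values).  So the right side is `s q / 2`, and `#{g ∈ P : ...} = s q / 4` is even:
`f(x) = 0` for all `x ∈ U` (`x = 1` too).
(2) `f(x y) = f(x) + f(y) + ∑_(g ∈ P) (B(g x g⁻¹, y) + B(g y g⁻¹, x))`, the sum is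
`∑_(g ∈ P) (B(g x g⁻¹, y) + B(g⁻¹ x g, y)) = ∑_(g ∈ N, g ≠ 1) B(g x g⁻¹, y)
= B(∏_(g ∈ N) g x g⁻¹, y) - B(x, y)`, and `∏_(g ∈ N) g x g⁻¹ = 1`: it is fixed by
conjugation with `N`, and `N` is transitive on `U#`, which has more than one element.
So `B(x, y) = 0` for all `x, y ∈ U`, contradiction to `nondeg` (and `Cfg.ne`).
-/

namespace Pool.Agent.H27.E7

variable {G : Type} [Group G] {M U : Subgroup G} {B : G → G → ZMod 2}

private theorem pair_sum {N : Type} [Group N] [Fintype N] (ho : Odd (Fintype.card N)) :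
    ∃ P : Finset N, ∀ (A : Type) [AddCommMonoid A] (F : N → A),
      ∑ g, F g = F 1 + ∑ g ∈ P, (F g + F g⁻¹) := by
  classical
  have hodd : ∀ g : N, g⁻¹ = g → g = 1 := by
    intro g hg
    have h1 : g ^ 2 = 1 := by
      rw [pow_two]
      nth_rw 1 [← hg]
      simp
    have h2 : orderOf g ∣ Nat.gcd 2 (Fintype.card N) :=
      Nat.dvd_gcd (orderOf_dvd_of_pow_eq_one h1) orderOf_dvd_card
    rw [(Nat.coprime_two_left.mpr ho)] at h2
    exact orderOf_eq_one_iff.mp (Nat.dvd_one.mp h2)
  let φ : N → ℕ := fun g => ((Fintype.equivFin N g : Fin _) : ℕ)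
  have hφ : ∀ a b : N, φ a = φ b → a = b := by
    intro a b h
    exact (Fintype.equivFin N).injective (Fin.ext h)
  refine ⟨Finset.univ.filter (fun g => φ g < φ g⁻¹), fun A _ F => ?_⟩
  have h1 := (Finset.sum_filter_add_sum_filter_not (Finset.univ : Finset N)
    (fun g => φ g < φ g⁻¹) F).symm
  have h2 : Finset.univ.filter (fun g : N => ¬ φ g < φ g⁻¹)
      = insert 1 (Finset.univ.filter (fun g : N => φ g⁻¹ < φ g)) := by
    ext g
    simp only [Finset.mem_filter, Finset.mem_univ, true_and, Finset.mem_insert]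
    constructor
    · intro h
      rcases lt_or_eq_of_le (not_lt.mp h) with h' | h'
      · exact Or.inr h'
      · exact Or.inl (hodd g (hφ _ _ h'))
    · rintro (h | h)
      · subst h; simp
      · exact not_lt.mpr h.le
  have h3 : (1 : N) ∉ Finset.univ.filter (fun g : N => φ g⁻¹ < φ g) := by simp
  have h4 : ∑ g ∈ Finset.univ.filter (fun g : N => φ g⁻¹ < φ g), F g
      = ∑ g ∈ Finset.univ.filter (fun g : N => φ g < φ g⁻¹), F g⁻¹ := by
    refine Finset.sum_nbij' (fun g => g⁻¹) (fun g => g⁻¹) ?_ ?_ ?_ ?_ ?_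
    · intro g hg
      simpa using hg
    · intro g hg
      simpa using hg
    · intro g _; simp
    · intro g _; simp
    · intro g _; simp
  rw [h1, h2, Finset.sum_insert h3, h4, Finset.sum_add_distrib]
  abel

theorem no_odd [Finite G] (c : Cfg M U) (S : Symp M U B) (N : Subgroup G) (hN : N ≤ M)
    (ho : Odd (Nat.card N)) (h8 : 8 ∣ Nat.card U)
    (ht : ∀ u ∈ U, u ≠ 1 → ∀ u' ∈ U, u' ≠ 1 → ∃ h ∈ N, h * u * h⁻¹ = u') : False := by
  classical
  have : Fintype G := Fintype.ofFinite G
  have hcN : ∀ g ∈ N, ∀ u ∈ U, g * u * g⁻¹ ∈ U := fun g hg u hu => c.nrm g (hN hg) u hu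
  have hinv : ∀ g ∈ N, ∀ u ∈ U, ∀ v ∈ U, B (g * u * g⁻¹) v = B (g⁻¹ * v * g) u := by
    intro g hg u hu v hv
    have hv' : g⁻¹ * v * g ∈ U := by
      have := hcN g⁻¹ (N.inv_mem hg) v hv
      simpa using this
    have h1 := S.inv g (hN hg) u hu (g⁻¹ * v * g) hv'
    have h2 : g * (g⁻¹ * v * g) * g⁻¹ = v := by group
    rw [h2] at h1
    rw [h1, S.symm u hu _ hv']
  have hr : ∀ u ∈ U, ∀ v ∈ U, ∀ w ∈ U, B u (v * w) = B u v + B u w := by
    intro u hu v hv w hw
    rw [S.symm u hu _ (U.mul_mem hv hw), S.mul_left v hv w hw u hu, S.symm v hv u hu,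
      S.symm w hw u hu]
  have ho' : Odd (Fintype.card N) := by rwa [Nat.card_eq_fintype_card] at ho
  obtain ⟨P, hP⟩ := pair_sum ho'
  have hcardU : Nat.card U = (Finset.univ.filter (fun y : G => y ∈ U)).card := by
    rw [Nat.card_eq_fintype_card, Fintype.card_subtype]
  -- step 1
  have hf : ∀ x ∈ U, ∑ g ∈ P, B ((g : G) * x * (g : G)⁻¹) x = 0 := by
    intro x hx
    by_cases hx1 : x = 1
    · subst hx1
      refine Finset.sum_eq_zero fun g _ => ?_
      simpa using S.self 1 U.one_mem
    let h : N → ℕ := fun g => if B ((g : G) * x * (g : G)⁻¹) x = 1 then 1 else 0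
    have hh1 : h 1 = 0 := by
      have : B x x = 0 := S.self x hx
      simp [h, this]
    have hhinv : ∀ g : N, h g⁻¹ = h g := by
      intro g
      have e1 : B (((g⁻¹ : N) : G) * x * ((g⁻¹ : N) : G)⁻¹) x = B ((g : G) * x * (g : G)⁻¹) x := by
        have := hinv (g : G) g.2 x hx x hx
        rw [this]
        simp
      simp only [h]
      rw [e1]
    have hsum : ∑ g, h g = 2 * ∑ g ∈ P, h g := by
      rw [hP ℕ h, hh1, zero_add, Finset.mul_sum]
      refine Finset.sum_congr rfl fun g _ => ?_
      rw [hhinv g]; ring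
    -- the count
    have hcount : 4 ∣ ∑ g, h g := by
      have e1 : ∑ g, h g
          = (Finset.univ.filter (fun g : N => B ((g : G) * x * (g : G)⁻¹) x = 1)).card := by
        rw [Finset.card_filter]
      rw [e1]
      let A1 : Finset G := Finset.univ.filter (fun y : G => y ∈ U ∧ B y x = 1)
      let A0 : Finset G := Finset.univ.filter (fun y : G => y ∈ U ∧ ¬ B y x = 1)
      have hmaps : ∀ g ∈ Finset.univ.filter (fun g : N => B ((g : G) * x * (g : G)⁻¹) x = 1),
          (g : G) * x * (g : G)⁻¹ ∈ A1 := by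
        intro g hg
        simp only [Finset.mem_filter, Finset.mem_univ, true_and] at hg
        simp only [A1, Finset.mem_filter, Finset.mem_univ, true_and]
        exact ⟨hcN g g.2 x hx, hg⟩
      rw [Finset.card_eq_sum_card_fiberwise (f := fun g : N => (g : G) * x * (g : G)⁻¹) hmaps]
      have hfib : ∀ y ∈ A1, (Finset.filter (fun g : N => (g : G) * x * (g : G)⁻¹ = y)
          (Finset.univ.filter (fun g : N => B ((g : G) * x * (g : G)⁻¹) x = 1))).card
          = (Finset.univ.filter (fun g : N => (g : G) * x * (g : G)⁻¹ = x)).card := by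
        intro y hy
        simp only [A1, Finset.mem_filter, Finset.mem_univ, true_and] at hy
        have hy1 : y ≠ 1 := by
          rintro rfl
          have h0 : B (1 * 1) x = B 1 x + B 1 x := S.mul_left 1 U.one_mem 1 U.one_mem x hx
          rw [mul_one, hy.2] at h0
          revert h0; decide
        obtain ⟨k, hk, hkx⟩ := ht x hx hx1 y hy.1 hy1
        have e2 : Finset.filter (fun g : N => (g : G) * x * (g : G)⁻¹ = y)
            (Finset.univ.filter (fun g : N => B ((g : G) * x * (g : G)⁻¹) x = 1))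
            = Finset.univ.filter (fun g : N => (g : G) * x * (g : G)⁻¹ = y) := by
          ext g
          simp only [Finset.mem_filter, Finset.mem_univ, true_and]
          constructor
          · exact fun h => h.2
          · intro h
            exact ⟨by rw [h]; exact hy.2, h⟩
        rw [e2]
        refine Finset.card_nbij' (fun g => (⟨k, hk⟩ : N)⁻¹ * g) (fun g => (⟨k, hk⟩ : N) * g)
          ?_ ?_ ?_ ?_
        · intro g hg
          simp only [Finset.coe_filter, Finset.mem_univ, true_and, Set.mem_ofPred_eq] at hg ⊢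
          simp only [Subgroup.coe_mul, Subgroup.coe_inv]
          have : k⁻¹ * (g : G) * x * (k⁻¹ * (g : G))⁻¹ = k⁻¹ * ((g : G) * x * (g : G)⁻¹) * k := by
            group
          rw [this, hg, ← hkx]; group
        · intro g hg
          simp only [Finset.coe_filter, Finset.mem_univ, true_and, Set.mem_ofPred_eq] at hg ⊢
          simp only [Subgroup.coe_mul]
          have : k * (g : G) * x * (k * (g : G))⁻¹ = k * ((g : G) * x * (g : G)⁻¹) * k⁻¹ := by
            group
          rw [this, hg, hkx]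
        · intro g _; simp
        · intro g _; simp
      rw [Finset.sum_congr rfl hfib, Finset.sum_const, smul_eq_mul]
      refine Dvd.dvd.mul_right ?_ _
      -- `4 ∣ |A1|`
      obtain ⟨v, hv, hxv⟩ := S.nondeg x hx hx1
      have hvx : B v x = 1 := by rw [S.symm v hv x hx]; exact hxv
      have hvv : v * v = 1 := c.sq v hv
      have hA : A1.card = A0.card := by
        refine Finset.card_nbij' (fun y => y * v) (fun y => y * v) ?_ ?_ ?_ ?_
        · intro y hy
          simp only [A1, A0, Finset.coe_filter, Finset.mem_univ, true_and, Set.mem_ofPred_eq]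
            at hy ⊢
          refine ⟨U.mul_mem hy.1 hv, ?_⟩
          rw [S.mul_left y hy.1 v hv x hx, hvx, hy.2]
          decide
        · intro y hy
          simp only [A1, A0, Finset.coe_filter, Finset.mem_univ, true_and, Set.mem_ofPred_eq]
            at hy ⊢
          refine ⟨U.mul_mem hy.1 hv, ?_⟩
          rw [S.mul_left y hy.1 v hv x hx, hvx]
          have : ∀ z : ZMod 2, ¬ z = 1 → z + 1 = 1 := by decide
          exact this _ hy.2
        · intro y _; simp [mul_assoc, hvv]
        · intro y _; simp [mul_assoc, hvv]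
      have hU : Nat.card U = A1.card + A0.card := by
        rw [hcardU]
        have := Finset.card_filter_add_card_filter_not (s := Finset.univ.filter (fun y : G => y ∈ U))
          (fun y => B y x = 1)
        rw [← this]
        congr 1
        · congr 1; ext y; simp [A1]
        · congr 1; ext y; simp [A0]
      omega
    have h2 : 2 ∣ ∑ g ∈ P, h g := by omega
    have e3 : ∑ g ∈ P, B ((g : G) * x * (g : G)⁻¹) x = ((∑ g ∈ P, h g : ℕ) : ZMod 2) := by
      rw [Nat.cast_sum]
      refine Finset.sum_congr rfl fun g _ => ?_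
      have : ∀ z : ZMod 2, z = (((if z = 1 then 1 else 0 : ℕ)) : ZMod 2) := by decide
      exact this _
    rw [e3]
    exact (ZMod.natCast_eq_zero_iff _ _).mpr h2
  -- step 2
  let L : G → G → ZMod 2 := fun x y => ∑ g : N, B ((g : G) * x * (g : G)⁻¹) y
  have hLB : ∀ x ∈ U, ∀ y ∈ U, B x y = L x y := by
    intro x hx y hy
    have h1 := hf (x * y) (U.mul_mem hx hy)
    have h2 : ∀ g ∈ P, B ((g : G) * (x * y) * (g : G)⁻¹) (x * y)
        = B ((g : G) * x * (g : G)⁻¹) x + B ((g : G) * y * (g : G)⁻¹) y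
          + (B ((g : G) * x * (g : G)⁻¹) y + B (((g⁻¹ : N) : G) * x * ((g⁻¹ : N) : G)⁻¹) y) := by
      intro g _
      have hgx := hcN g g.2 x hx
      have hgy := hcN g g.2 y hy
      have e1 : (g : G) * (x * y) * (g : G)⁻¹
          = ((g : G) * x * (g : G)⁻¹) * ((g : G) * y * (g : G)⁻¹) := by group
      have e2 : B ((g : G) * y * (g : G)⁻¹) x
          = B (((g⁻¹ : N) : G) * x * ((g⁻¹ : N) : G)⁻¹) y := by
        rw [hinv g g.2 y hy x hx]; simp
      rw [e1, S.mul_left _ hgx _ hgy _ (U.mul_mem hx hy), hr _ hgx x hx y hy,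
        hr _ hgy x hx y hy, e2]
      ring
    rw [Finset.sum_congr rfl h2, Finset.sum_add_distrib, Finset.sum_add_distrib, hf x hx,
      hf y hy, zero_add, zero_add] at h1
    have h3 := hP (ZMod 2) (fun g : N => B ((g : G) * x * (g : G)⁻¹) y)
    rw [h1, add_zero] at h3
    simp only [L]
    rw [h3]
    simp
  have hL0 : ∀ x ∈ U, x ≠ 1 → ∀ y ∈ U, L x y = 0 := by
    intro x hx hx1 y hy
    have hconst : ∀ k ∈ N, L (k * x * k⁻¹) y = L x y := by
      intro k hk
      simp only [L]
      refine Fintype.sum_equiv (Equiv.mulRight (⟨k, hk⟩ : N)) _ _ fun g => ?_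
      simp only [Equiv.coe_mulRight, Subgroup.coe_mul]
      congr 1
      group
    have hadd : ∀ u ∈ U, ∀ w ∈ U, L (u * w) y = L u y + L w y := by
      intro u hu w hw
      simp only [L]
      rw [← Finset.sum_add_distrib]
      refine Finset.sum_congr rfl fun g _ => ?_
      have e1 : (g : G) * (u * w) * (g : G)⁻¹
          = ((g : G) * u * (g : G)⁻¹) * ((g : G) * w * (g : G)⁻¹) := by group
      rw [e1, S.mul_left _ (hcN g g.2 u hu) _ (hcN g g.2 w hw) y hy]
    obtain ⟨v, hv, hxv⟩ := S.nondeg x hx hx1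
    have hv1 : v ≠ 1 := by
      rintro rfl
      have h0 := hr x hx 1 U.one_mem 1 U.one_mem
      rw [mul_one, hxv] at h0
      revert h0; decide
    have hxv1 : x * v ≠ 1 := by
      intro h0
      have : x = v := by
        have h1 : x * v * v = v := by rw [h0, one_mul]
        rwa [mul_assoc, c.sq v hv, mul_one] at h1
      subst this
      rw [S.self x hx] at hxv
      revert hxv; decide
    obtain ⟨k, hk, hkx⟩ := ht x hx hx1 v hv hv1
    obtain ⟨l, hl, hlx⟩ := ht x hx hx1 (x * v) (U.mul_mem hx hv) hxv1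
    have a1 := hconst k hk
    have a2 := hconst l hl
    rw [hkx] at a1
    rw [hlx, hadd x hx v hv, a1] at a2
    have : ∀ z : ZMod 2, z + z = z → z = 0 := by decide
    exact this _ a2
  obtain ⟨u, hu, hu1⟩ := c.ne
  obtain ⟨v, hv, huv⟩ := S.nondeg u hu hu1
  have h1 := hLB u hu v hv
  rw [hL0 u hu hu1 v hv, huv] at h1
  revert h1; decide

end Pool.Agent.H27.E7
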