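import Pool.Agent.H27.E7.GrpO
import Pool.Agent.H27.E7.GrpN
import Pool.Agent.H27.E7.GrpK

/-!
# E7-05: Theorem B

Take `e` from `exists_big`, `J = {i ∈ II U : e i ∈ M}`.  Fix `u ∈ U`, `u ≠ 1`.  For `i ∈ J`:
`i e = (e i)⁻¹ ∈ M` (`II_inv`), so `(i e) u (i e)⁻¹ ∈ U`, and it is `≠ 1`.  This map `J → U#` is
injective: let `i, i' ∈ J` have the same image, `v = e u e`: `i v i = i' v i'` (inverses are
trivial), so `k = i' i` commutes with `v`; `w = i v i = (i e) u (i e)⁻¹ ∈ U`, `w ≠ 1`; conjugating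
by `i`: `i k i = i i' = k⁻¹` commutes with `w`.  So `k` commutes with `w`.  `k = (i' e)(e i) ∈ M`;
`i' ∉ M` (since `e i' ∈ M`, `e ∉ M`), so `k` has odd order by `oddO` (for `i', i`), and
`i k i = k⁻¹`.  `propN` for `e := i`, `h := k`, `u := w`: `k = 1`, `i' = i⁻¹ = i`.
As `|U#| ≤ |J|` the map is also surjective, and for `u'` in `U#` there is `i ∈ J` with
`h u h⁻¹ = u'`, `h = i e`; `e h e = e i ∈ M`; `h = (e i)⁻¹` has odd order by `oddO`.
-/

namespace Pool.Agent.H27.E7

variable {G : Type} [Group G] {M U : Subgroup G}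

theorem thmB [Finite G] (c : Cfg M U) (hB : Star2 M U) :
    ∃ e ∈ II U, e ∉ M ∧ ∀ u ∈ U, u ≠ 1 → ∀ u' ∈ U, u' ≠ 1 →
      ∃ h ∈ M, e * h * e ∈ M ∧ Odd (orderOf h) ∧ h * u * h⁻¹ = u' := by
  obtain ⟨e, he, heM, hcard⟩ := exists_big c
  refine ⟨e, he, heM, ?_⟩
  intro u hu hu1 u' hu' hu1'
  have hee : e * e = 1 := II_sq c he
  have hinv : ∀ i ∈ II U, (i * e)⁻¹ = e * i := by
    intro i hi
    rw [mul_inv_rev, II_inv c hi, II_inv c he]
  have hieM : ∀ i ∈ II U, e * i ∈ M → i * e ∈ M := by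
    intro i hi h
    have h1 := M.inv_mem h
    rwa [mul_inv_rev, II_inv c hi, II_inv c he] at h1
  have hval : ∀ i : {i : G // i ∈ II U ∧ e * i ∈ M},
      (i.1 * e) * u * (i.1 * e)⁻¹ ∈ U ∧ (i.1 * e) * u * (i.1 * e)⁻¹ ≠ 1 := by
    rintro ⟨i, hi, hei⟩
    refine ⟨c.nrm _ (hieM i hi hei) u hu, ?_⟩
    intro h
    apply hu1
    exact conj_eq_one_iff.1 h
  let f : {i : G // i ∈ II U ∧ e * i ∈ M} → {u : G // u ∈ U ∧ u ≠ 1} :=
    fun i => ⟨(i.1 * e) * u * (i.1 * e)⁻¹, hval i⟩
  have hinj : Function.Injective f := by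
    rintro ⟨i, hi, hei⟩ ⟨i', hi', hei'⟩ hff
    have h0 : (i * e) * u * (i * e)⁻¹ = (i' * e) * u * (i' * e)⁻¹ := congrArg Subtype.val hff
    rw [hinv i hi, hinv i' hi'] at h0
    have hii : i * i = 1 := II_sq c hi
    have hii' : i' * i' = 1 := II_sq c hi'
    have hw := hval ⟨i, hi, hei⟩
    change (i * e) * u * (i * e)⁻¹ ∈ U ∧ (i * e) * u * (i * e)⁻¹ ≠ 1 at hw
    rw [hinv i hi] at hw
    obtain ⟨w, hwdef⟩ : ∃ w, w = i * e * u * (e * i) := ⟨_, rfl⟩
    obtain ⟨v, hv⟩ : ∃ v, v = e * u * e := ⟨_, rfl⟩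
    have hw1 : w = i * v * i := by rw [hwdef, hv]; group
    have hw2 : w = i' * v * i' := by rw [hwdef, h0, hv]; group
    rw [← hwdef] at hw
    have hiM : i ∉ M := by
      intro h
      apply heM
      have h1 := M.mul_mem hei (M.inv_mem h)
      rwa [mul_inv_cancel_right] at h1
    have hiM' : i' ∉ M := by
      intro h
      apply heM
      have h1 := M.mul_mem hei' (M.inv_mem h)
      rwa [mul_inv_cancel_right] at h1
    have hkM : i' * i ∈ M := by
      have h1 := M.mul_mem (hieM i' hi' hei') hei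
      have h2 : i' * e * (e * i) = i' * i := by
        calc i' * e * (e * i) = i' * (e * e) * i := by group
          _ = i' * i := by rw [hee, mul_one]
      rwa [h2] at h1
    have hodd : Odd (orderOf (i' * i)) := oddO c hi' hi hiM' hkM
    have hik : i * (i' * i) * i = (i' * i)⁻¹ := by
      rw [mul_inv_rev, II_inv c hi, II_inv c hi']
      calc i * (i' * i) * i = i * i' * (i * i) := by group
        _ = i * i' := by rw [hii, mul_one]
    have hcomm : w * (i' * i) = (i' * i) * w := by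
      have h1 : w * (i' * i) = i' * v * i := by
        rw [hw2]
        calc i' * v * i' * (i' * i) = i' * v * (i' * i') * i := by group
          _ = i' * v * i := by rw [hii', mul_one]
      have h2 : (i' * i) * w = i' * v * i := by
        rw [hw1]
        calc i' * i * (i * v * i) = i' * (i * i) * v * i := by group
          _ = i' * v * i := by rw [hii, mul_one]
      rw [h1, h2]
    have hk := propN c hB hi hiM hkM hodd hik hw.1 hw.2 hcomm
    have h3 : i' = i := by
      have h4 := eq_inv_of_mul_eq_one_left hk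
      rw [h4, II_inv c hi]
    exact Subtype.ext h3.symm
  have hsurj := (hinj.bijective_of_nat_card_le hcard).2
  obtain ⟨⟨i, hi, hei⟩, hfi⟩ := hsurj ⟨u', hu', hu1'⟩
  have h0 : (i * e) * u * (i * e)⁻¹ = u' := congrArg Subtype.val hfi
  refine ⟨i * e, hieM i hi hei, ?_, ?_, h0⟩
  · have h2 : e * (i * e) * e = e * i := by
      calc e * (i * e) * e = e * i * (e * e) := by group
        _ = e * i := by rw [hee, mul_one]
    rw [h2]
    exact hei
  · have h1 : Odd (orderOf (e * i)) := oddO c he hi heM hei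
    have h2 : i * e = (e * i)⁻¹ := by rw [← hinv i hi, inv_inv]
    rw [h2, orderOf_inv]
    exact h1

end Pool.Agent.H27.E7
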