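import Pool.Agent.H27.E7.St2
import Pool.Agent.H27.E7.ThmB
import Pool.Agent.H27.E7.SyA

/-!
# E7-21: the big case is impossible

`thmB` with `cfg`, `star2` gives `e`.  `Y = {y ∈ MQ : e⁻¹ y e ∈ MQ}`, a subgroup (`MQ ⊓ MQ.map conj`).
Every 2-subgroup of `Y` has at most 2 elements (`two_part` with `x := e`, applied to the image in
`QF F`), so `oddcore` gives `N ≤ Y` of odd order which contains all elements of odd order of `Y`.
`no_odd` for the image of `N` in `QF F` (8 divides `|U|` by `cardU`; transitivity from `thmB`: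
`e h e = e⁻¹ h e` by `II_inv`).
-/

namespace Pool.Agent.H27.E7

open Pool.Agent.H33.EL

variable {n : ℕ} {C : Matrix (Fin n) (Fin n) ℤ} {K : Type} [Field K] [Fintype (Rt C)]
variable {F : Subgroup (LL C K ≃ₗ[K] LL C K)}

theorem NoBig_abs {G : Type} [Group G] [Finite G] {M U : Subgroup G} {B : G → G → ZMod 2}
    (c : Cfg M U) (S : Symp M U B) (h8 : 8 ∣ Nat.card U) (hS : Star2 M U)
    (h2 : ∀ x : G, x ∉ M → ∀ P : Subgroup G, IsPGroup 2 P →
      (∀ p ∈ P, p ∈ M ∧ x⁻¹ * p * x ∈ M) → Nat.card P ≤ 2) : False := by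
  obtain ⟨e, he, heM, hT⟩ := thmB c hS
  have hee : e⁻¹ = e := II_inv c he
  let Y : Subgroup G := M ⊓ M.map (MulAut.conj e).toMonoidHom
  have hY : ∀ y, y ∈ Y ↔ y ∈ M ∧ e⁻¹ * y * e ∈ M := by
    intro y
    constructor
    · rintro ⟨h1, m, hm, h3⟩
      refine ⟨h1, ?_⟩
      have h4 : e * m * e⁻¹ = y := h3
      rw [← h4]
      have h5 : e⁻¹ * (e * m * e⁻¹) * e = m := by group
      rw [h5]
      exact hm
    · rintro ⟨h1, h3⟩
      refine ⟨h1, e⁻¹ * y * e, h3, ?_⟩
      show e * (e⁻¹ * y * e) * e⁻¹ = y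
      group
  have hP : ∀ P : Subgroup Y, IsPGroup 2 P → Nat.card P ≤ 2 := by
    intro P hP
    have h3 : Nat.card (P.map Y.subtype) ≤ 2 := by
      apply h2 e heM (P.map Y.subtype) (hP.map Y.subtype)
      rintro p ⟨q, hq, rfl⟩
      exact (hY _).1 q.2
    have h4 : Nat.card (P.map Y.subtype) = Nat.card P :=
      Nat.card_congr (P.equivMapOfInjective Y.subtype Y.subtype_injective).symm.toEquiv
    rwa [h4] at h3
  obtain ⟨N, hN, hN2⟩ := oddcore (H := Y) hP
  have hc : Nat.card (N.map Y.subtype) = Nat.card N :=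
    Nat.card_congr (N.equivMapOfInjective Y.subtype Y.subtype_injective).symm.toEquiv
  refine no_odd c S (N.map Y.subtype) ?_ (by rw [hc]; exact hN) h8 ?_
  · rintro p ⟨q, hq, rfl⟩
    exact ((hY _).1 q.2).1
  · intro u hu hu1 u' hu' hu1'
    obtain ⟨h, hM, hM2, ho, h3⟩ := hT u hu hu1 u' hu' hu1'
    have hYh : h ∈ Y := by
      rw [hY]
      rw [hee]
      exact ⟨hM, hM2⟩
    refine ⟨h, ⟨⟨h, hYh⟩, hN2 _ ?_, rfl⟩, h3⟩
    have h5 : orderOf (⟨h, hYh⟩ : Y) = orderOf h := by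
      rw [← orderOf_injective Y.subtype Y.subtype_injective]
      rfl
    rw [h5]
    exact ho

theorem no_big (H : Hyp C K) (X : Ctx F) (hb : Big F) (h7 : H7 C)
    (hK : Nat.card K = 7 ∨ Nat.card K = 11) : False := by
  haveI := QF_finite H F
  have h8 : 8 ∣ Nat.card (UQ H F) := by
    rcases cardU H X hb h7 with h | h
    · rw [h]; norm_num
    · rw [h]; norm_num
  exact NoBig_abs (cfg H X hb.ind) (symp H X hb) h8 (star2 H X hb h7)
    (fun x hx P hP hM => two_part H X hb h7 hK hx P hP hM)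

end Pool.Agent.H27.E7
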