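import Pool.Agent.H33.EL.CCf
import Pool.Agent.H33.EL.CCg

/-!
# E7-22: the case that all roots of `PZ F` are orthogonal (Step 1 of note 1310)

Generalisation of `case1`, `case2` in `H33/EL/CCg.lean` (copy from there; the private lemmas of that file
have to be copied too).
`him`: for `f ∈ F`, `c ∈ PZ F`: `f (e c) ∈ S2 K d` for some `d ∈ PZ F`: `ext_root_coord` gives `d` with
`(f (e c)).2 (ng d) ≠ 0`, `ng d ∈ PZ F` (`mZ_inv`), so `d ∈ PZ F`; `xd`: `f (e c) = t • r (e (ng d))`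
with root groups `xr b' s`, `ip b' d = 1`, `d' = b' - d` in the support, so `d' ∈ PZ F`, and
`ip d' d = -1`, impossible; so only `X_d` is used and `f (e c) ∈ S2 K d` (see `case2`).
The same `d` (up to sign) for `ng c`: the images of `S2 c`, i.e. `f (e c) ∈ S2 d`,
`f (e (ng c)) ∈ S2 d'` and `fm (f (e c)) (f (e (ng c))) = -1 ≠ 0`; `S2 d ⊥ S2 d'` if `ip d d' = 0`
(`g_orth`), so `d' = ± d`, `S2 d' = S2 d`.
So every `f ∈ F` maps `S2 c` into `S2 d` (`g_map`).  Let
`F' = {f ∈ F : ∀ c ∈ PZ F, f (e c) ∈ S2 K c}` (then also `f (e (ng c)) ∈ S2 K c`).  It is a subgroup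
(finite group: closed under products suffices, or use inverses: if `f (e c) ∈ S2 c` for all `c` and
`f⁻¹ (e c) ∈ S2 d` then `e c ∈ f (S2 d) ⊆ S2 d` so `d = ± c`), contains `T1` (`TT_e`), and is normal in
`F` (an element `g ∈ F` maps `S2 c` onto `S2 d` (into, and equal dimensions or use `g⁻¹`)).  By
`no_normal` `F' = F`.  Then `rank1` applies to every `a ∈ PZ F`, and `mem_NN_of_lines` as in `case1`
gives `F ≤ NN`, contradiction to `X.hN`.
-/

namespace Pool.Agent.H27.E7

open Pool.Agent.H33.EL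

variable {n : ℕ} {C : Matrix (Fin n) (Fin n) ℤ} {K : Type} [Field K] [Fintype (Rt C)]
variable {F : Subgroup (LL C K ≃ₗ[K] LL C K)}

private theorem g_e_mem (a : Rt C) : e K a ∈ S2 K a :=
  Submodule.subset_span (by simp)

private theorem g_eng_mem (a : Rt C) : e K (ng a) ∈ S2 K a :=
  Submodule.subset_span (by simp)

private theorem g_hh_mem (a : Rt C) : hh C (zk a.1) ∈ S2 K a :=
  Submodule.subset_span (by simp)

private theorem g_S2_ng (a : Rt C) : S2 K (ng a) ≤ S2 K a := by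
  unfold S2
  rw [Submodule.span_le]
  intro x hx
  simp only [Set.mem_insert_iff, Set.mem_singleton_iff] at hx
  rcases hx with h | h | h
  · rw [h]; exact g_eng_mem a
  · rw [h, ng_ng]; exact g_e_mem a
  · rw [h, ng_val, zk_neg, hh_neg]
    exact Submodule.neg_mem _ (g_hh_mem a)

private theorem g_xr_mem (H : Hyp C K) (a : Rt C) (k t : K) :
    k • xr a t (e K (ng a)) ∈ S2 K a := by
  rw [xr_e_ng H]
  exact Submodule.smul_mem _ _ (Submodule.add_mem _ (Submodule.sub_mem _ (g_eng_mem a)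
    (Submodule.smul_mem _ _ (g_hh_mem a))) (Submodule.smul_mem _ _ (g_e_mem a)))

/-- coordinates of the elements of `S2` -/
private theorem g_coord (a : Rt C) {x : LL C K} (hx : x ∈ S2 K a) :
    (∃ c : K, x.1 = c • zk a.1) ∧ ∀ d, d ≠ a → d ≠ ng a → x.2 d = 0 := by
  unfold S2 at hx
  induction hx using Submodule.span_induction with
  | mem y hy =>
    simp only [Set.mem_insert_iff, Set.mem_singleton_iff] at hy
    rcases hy with h | h | h
    · rw [h]
      exact ⟨⟨0, by rw [e_fst, zero_smul]⟩, fun d h1 _ => e_snd_ne h1⟩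
    · rw [h]
      exact ⟨⟨0, by rw [e_fst, zero_smul]⟩, fun d _ h2 => e_snd_ne h2⟩
    · rw [h]
      exact ⟨⟨1, by rw [hh_fst, one_smul]⟩, fun d _ _ => hh_snd _ _⟩
  | zero => exact ⟨⟨0, by rw [zero_smul]; rfl⟩, fun d _ _ => rfl⟩
  | add y z _ _ hy hz =>
    obtain ⟨⟨c, hc⟩, h1⟩ := hy
    obtain ⟨⟨c', hc'⟩, h2⟩ := hz
    refine ⟨⟨c + c', by rw [Prod.fst_add, hc, hc', add_smul]⟩, fun d h3 h4 => ?_⟩
    show y.2 d + z.2 d = 0
    rw [h1 d h3 h4, h2 d h3 h4, add_zero]
  | smul k y _ hy =>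
    obtain ⟨⟨c, hc⟩, h1⟩ := hy
    refine ⟨⟨k * c, by rw [Prod.smul_fst, hc, smul_smul]⟩, fun d h3 h4 => ?_⟩
    show k * y.2 d = 0
    rw [h1 d h3 h4, mul_zero]

private theorem g_br_gen (H : Hyp C K) (a : Rt C) {x y : LL C K}
    (hx : x ∈ ({e K a, e K (ng a), hh C (zk a.1)} : Set (LL C K)))
    (hy : y ∈ ({e K a, e K (ng a), hh C (zk a.1)} : Set (LL C K))) : br x y ∈ S2 K a := by
  simp only [Set.mem_insert_iff, Set.mem_singleton_iff] at hx hy
  have e1 : br (e K (ng a)) (e K a) = hh C (zk a.1) := by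
    rw [br_skew H, br_e_ng H, neg_neg]
  rcases hx with h | h | h <;> rcases hy with h' | h' | h' <;> rw [h, h']
  · rw [br_self H]; exact Submodule.zero_mem _
  · rw [br_e_ng H]; exact Submodule.neg_mem _ (g_hh_mem a)
  · rw [br_e_hh]; exact Submodule.smul_mem _ _ (g_e_mem a)
  · rw [e1]; exact g_hh_mem a
  · rw [br_self H]; exact Submodule.zero_mem _
  · rw [br_e_hh]; exact Submodule.smul_mem _ _ (g_eng_mem a)
  · rw [br_hh_e]; exact Submodule.smul_mem _ _ (g_e_mem a)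
  · rw [br_hh_e]; exact Submodule.smul_mem _ _ (g_eng_mem a)
  · rw [br_hh_hh]; exact Submodule.zero_mem _

private theorem g_br (H : Hyp C K) (a : Rt C) {x y : LL C K} (hx : x ∈ S2 K a)
    (hy : y ∈ S2 K a) : br x y ∈ S2 K a := by
  have h1 : ∀ x ∈ ({e K a, e K (ng a), hh C (zk a.1)} : Set (LL C K)), br x y ∈ S2 K a := by
    intro x hx
    unfold S2 at hy
    induction hy using Submodule.span_induction with
    | mem y hy => exact g_br_gen H a hx hy
    | zero => rw [map_zero]; exact Submodule.zero_mem _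
    | add y z _ _ hy hz => rw [map_add]; exact Submodule.add_mem _ hy hz
    | smul k y _ hy => rw [map_smul]; exact Submodule.smul_mem _ _ hy
  unfold S2 at hx
  induction hx using Submodule.span_induction with
  | mem x hx => exact h1 x hx
  | zero => rw [map_zero, LinearMap.zero_apply]; exact Submodule.zero_mem _
  | add x z _ _ hx hz => rw [map_add, LinearMap.add_apply]; exact Submodule.add_mem _ hx hz
  | smul k x _ hx => rw [map_smul, LinearMap.smul_apply]; exact Submodule.smul_mem _ _ hx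

/-- an automorphism which maps `e_c`, `e_(-c)` into `S2 d` maps `S2 c` into `S2 d` -/
private theorem g_map (H : Hyp C K) {f : LL C K ≃ₗ[K] LL C K} (hf : f ∈ GG C K) {c d : Rt C}
    (h1 : f (e K c) ∈ S2 K d) (h2 : f (e K (ng c)) ∈ S2 K d) : ∀ x ∈ S2 K c, f x ∈ S2 K d := by
  intro x hx
  unfold S2 at hx
  induction hx using Submodule.span_induction with
  | mem x hx =>
    simp only [Set.mem_insert_iff, Set.mem_singleton_iff] at hx
    rcases hx with h | h | h
    · rw [h]; exact h1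
    · rw [h]; exact h2
    · have h3 : hh C (zk c.1 : Fin n → K) = -br (e K c) (e K (ng c)) := by
        rw [br_e_ng H, neg_neg]
      rw [h, h3, map_neg, hf.1]
      exact Submodule.neg_mem _ (g_br H d h1 h2)
  | zero => rw [map_zero]; exact Submodule.zero_mem _
  | add x z _ _ hx hz => rw [map_add]; exact Submodule.add_mem _ hx hz
  | smul k x _ hx => rw [map_smul]; exact Submodule.smul_mem _ _ hx

private theorem g_ne (H : Hyp C K) {a b : Rt C} (hab : ip C a.1 b.1 = 0) :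
    b ≠ a ∧ b ≠ ng a ∧ a ≠ b ∧ a ≠ ng b ∧ ng b ≠ a ∧ ng a ≠ b ∧ ng a ≠ ng b := by
  have h1 : ip C a.1 a.1 = 2 := a.2
  have h2 : ip C b.1 b.1 = 2 := b.2
  have hba : ip C b.1 a.1 = 0 := by rw [ip_comm H.symm, hab]
  refine ⟨?_, ?_, ?_, ?_, ?_, ?_, ?_⟩
  · rintro rfl
    omega
  · rintro rfl
    rw [ng_val, ip_neg_right, h1] at hab
    norm_num at hab
  · rintro rfl
    omega
  · rintro rfl
    rw [ng_val, ip_neg_left, h2] at hab
    norm_num at hab
  · rintro rfl
    rw [ng_val, ip_neg_left, h2] at hab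
    norm_num at hab
  · rintro rfl
    rw [ng_val, ip_neg_right, h1] at hab
    norm_num at hab
  · intro h
    have h3 : a = b := by
      rw [← ng_ng a, h, ng_ng]
    rw [h3] at hab
    omega

/-- `S2 a` and `S2 b` are orthogonal if `a` and `b` are -/
private theorem g_orth (H : Hyp C K) {a b : Rt C} (hab : ip C a.1 b.1 = 0) {x y : LL C K}
    (hx : x ∈ S2 K a) (hy : y ∈ S2 K b) : fm x y = 0 := by
  obtain ⟨n1, n2, n3, n4, n5, n6, n7⟩ := g_ne H hab
  obtain ⟨⟨c, hc⟩, h1⟩ := g_coord a hx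
  unfold S2 at hy
  induction hy using Submodule.span_induction with
  | mem y hy =>
    simp only [Set.mem_insert_iff, Set.mem_singleton_iff] at hy
    rcases hy with h | h | h
    · rw [h, fm_e_right, h1 (ng b) n5 (fun h => n7 h.symm), neg_zero]
    · rw [h, fm_e_right, ng_ng, h1 b n1 n2, neg_zero]
    · rw [h, fm_hh_right, hc, fk_smul_left, fk_zk_zk, hab, Int.cast_zero, mul_zero]
  | zero => rw [map_zero]
  | add y z _ _ hy hz => rw [map_add, hy, hz, add_zero]
  | smul k y _ hy => rw [map_smul, hy, smul_zero]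

theorem case_orth (H : Hyp C K) {p : ℕ} [Fact p.Prime] [CharP K p] (X : Ctx F)
    (h : ∀ a ∈ PZ F, ∀ b ∈ PZ F, ip C a.1 b.1 ≠ -1) : False := by
  -- the images of root vectors
  have him : ∀ f ∈ F, ∀ c ∈ PZ F, ∃ d ∈ PZ F, f (e K c) ∈ S2 K d := by
    intro f hf c hc
    have h1 : IsExt (f (e K c)) := (isExt_e H c).map (X.hF hf)
    have h2 : f (e K c) ≠ 0 := fun h => e_ne_zero (K := K) c ((LinearEquiv.map_eq_zero_iff f).1 h)
    have h3 := mZ_inv H X hf (x := e K c) (fun d hd => e_snd_ne (by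
      rintro rfl
      exact hd hc))
    obtain ⟨d, hd⟩ := ext_root_coord H h1 h2
    have hnd : ng d ∈ PZ F := by
      by_contra hcon
      exact hd (h3 _ hcon)
    have hdP : d ∈ PZ F := by
      have := PZ_ng H X hnd
      rwa [ng_ng] at this
    obtain ⟨r, hr, t, ht⟩ := xd H h1 d hd
    have h5 : {g : LL C K ≃ₗ[K] LL C K | ∃ (b' d' : Rt C) (s : K),
        ip C b'.1 d.1 = 1 ∧ d'.1 = b'.1 - d.1 ∧ (f (e K c)).2 d' ≠ 0 ∧ g = xr b' s} = ∅ := by
      rw [Set.eq_empty_iff_forall_notMem]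
      rintro g ⟨b', d', s, hb', hd', hv, -⟩
      have h6 : d' ∈ PZ F := by
        by_contra hcon
        exact hv (h3 _ hcon)
      refine h d' h6 d hdP ?_
      rw [hd', ip_sub_left, hb', (d.2 : ip C d.1 d.1 = 2)]
      norm_num
    rw [h5, Subgroup.closure_empty, Subgroup.mem_bot] at hr
    refine ⟨d, hdP, ?_⟩
    rw [ht, hr]
    exact g_xr_mem H d _ t
  -- `S2 c` is mapped to some `S2 d`
  have hmap : ∀ f ∈ F, ∀ c ∈ PZ F, ∃ d ∈ PZ F, ∀ x ∈ S2 K c, f x ∈ S2 K d := by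
    intro f hf c hc
    have hnc : ng c ∈ PZ F := PZ_ng H X hc
    have hfm : fm (f (e K c)) (f (e K (ng c))) ≠ 0 := by
      rw [(X.hF hf).2, fm_e_left, e_snd_self]
      exact neg_ne_zero.2 one_ne_zero
    obtain ⟨d, hd, h1⟩ := him f hf c hc
    obtain ⟨d', hd', h2⟩ := him f hf (ng c) hnc
    refine ⟨d, hd, g_map H (X.hF hf) h1 ?_⟩
    rcases ip_cases H d d' with h3 | h3 | h3 | h3 | h3
    · rw [h3] at h2
      exact g_S2_ng d h2
    · exact absurd h3 (h d hd d' hd')
    · exact absurd (g_orth H h3 h1 h2) hfm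
    · exfalso
      refine h (ng d) (PZ_ng H X hd) d' hd' ?_
      rw [ng_val, ip_neg_left, h3]
    · rw [h3] at h2
      exact h2
  -- `e c` lies only in `S2 c`
  have hS : ∀ c d : Rt C, e K c ∈ S2 K d → S2 K d ≤ S2 K c ∧ S2 K c ≤ S2 K d := by
    intro c d hcd
    by_cases h1 : c = d
    · rw [h1]
      exact ⟨le_rfl, le_rfl⟩
    · by_cases h2 : c = ng d
      · rw [h2]
        refine ⟨?_, g_S2_ng d⟩
        have h3 := g_S2_ng (K := K) (ng d)
        rwa [ng_ng] at h3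
      · exfalso
        have h3 := (g_coord d hcd).2 c h1 h2
        rw [e_snd_self] at h3
        exact one_ne_zero h3
  have happ : ∀ (f : LL C K ≃ₗ[K] LL C K) (x : LL C K), f (f⁻¹ x) = x := nor_inv_apply
  let F' : Subgroup (LL C K ≃ₗ[K] LL C K) :=
    { carrier := {f | f ∈ F ∧ ∀ c ∈ PZ F, ∀ x ∈ S2 K c, f x ∈ S2 K c}
      one_mem' := ⟨one_mem _, fun c _ x hx => hx⟩
      mul_mem' := by
        rintro f g ⟨hf, hf'⟩ ⟨hg, hg'⟩
        exact ⟨mul_mem hf hg, fun c hc x hx => hf' c hc _ (hg' c hc _ hx)⟩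
      inv_mem' := by
        rintro f ⟨hf, hf'⟩
        refine ⟨inv_mem hf, fun c hc x hx => ?_⟩
        obtain ⟨d, hd, h1⟩ := hmap f⁻¹ (inv_mem hf) c hc
        have h2 : e K c ∈ S2 K d := by
          have h3 := hf' d hd _ (h1 _ (g_e_mem c))
          rwa [happ] at h3
        exact (hS c d h2).1 (h1 x hx) }
  have hF' : F' = F := by
    apply no_normal H X F' (fun f hf => hf.1)
    · intro t ht
      refine ⟨X.hT ht, fun c _ => g_map H (T1_le_TT H ht).1 ?_ ?_⟩
      · rw [TT_e H (T1_le_TT H ht)]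
        exact Submodule.smul_mem _ _ (g_e_mem c)
      · rw [TT_e H (T1_le_TT H ht)]
        exact Submodule.smul_mem _ _ (g_eng_mem c)
    · rintro f hf u ⟨hu, hu'⟩
      refine ⟨mul_mem (mul_mem hf hu) (inv_mem hf), fun c hc x hx => ?_⟩
      show f (u (f⁻¹ x)) ∈ S2 K c
      obtain ⟨d, hd, h1⟩ := hmap f⁻¹ (inv_mem hf) c hc
      obtain ⟨d', hd', h2⟩ := hmap f hf d hd
      have h3 : e K c ∈ S2 K d' := by
        have h4 := h2 _ (h1 _ (g_e_mem c))
        rwa [happ] at h4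
      exact (hS c d' h3).1 (h2 _ (hu' d hd _ (h1 x hx)))
  have hFc : ∀ f ∈ F, ∀ c ∈ PZ F, ∀ x ∈ S2 K c, f x ∈ S2 K c := by
    intro f hf
    rw [← hF'] at hf
    exact hf.2
  apply X.hN
  intro f hf
  refine mem_NN_of_lines H (X.hF hf) (PZ F) (fun b hb => PZ_ng H X hb)
    (fun x hx => mZ_inv H X hf hx) ?_
  intro d hd
  rcases rank1 H (p := p) X hd
    (fun f hf => ⟨hFc f hf d hd _ (g_e_mem d), hFc f hf d hd _ (g_eng_mem d)⟩) f hf with
    ⟨⟨k, hk⟩, -⟩ | ⟨-, ⟨k, hk⟩⟩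
  · exact ⟨d, hd, k, hk⟩
  · exact ⟨ng d, PZ_ng H X hd, k, hk⟩

end Pool.Agent.H27.E7
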