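import Pool.Agent.H27.E7.GrpC

/-!
# E7-12: a good involution does not invert elements of odd order with fixed points, `|U| = 16`

`C = C_U(z)`, `|C| = 4` (`card_CU`), `C` is totally isotropic: `c = w (z w z⁻¹)` by `cz`,
`B(c, c') = B(w, c') + B(z w z⁻¹, c') = B(w,c') + B(w, z c' z⁻¹) = 0`.
`W = C_U(h)`, a `z`-invariant subgroup (`z` inverts `h`).  For `u ∈ W`, `u ≠ 1` there is `v ∈ W`
with `B(u, v) = 1`: take `v0 ∈ U` with `B(u, v0) = 1` and `v = ∏_(i < o(h)) h^i v0 h^(-i)`, which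
commutes with `h` and `B(u, v) = ∑_i B(h^(-i) u h^i, v0) = o(h) B(u, v0) = 1`.
`z` does not centralise `W`: otherwise `W ≤ C` and `B(u, v) = 0`.  So there is `x ∈ W` with
`k = x (z x z⁻¹) ≠ 1`, `k ∈ W ∩ C`, and `v ∈ W` with `B(k, v) = 1`.  `d = v (z v z⁻¹) ∈ W ∩ C` has
`B(x, d) = B(x,v) + B(x, z v z⁻¹) = B(x,v) + B(z x z⁻¹, v) = B(k, v) = 1`, and
`B(x, k) = B(x,x) + B(x, z x z⁻¹) = 0` by `fz`.  So `k, d, k d` are different from 1 and from each
other, and `C = {1, k, d, k d} ≤ W`.  The map `U → C`, `y ↦ y (z y z⁻¹)` is a homomorphism with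
kernel `C` and it maps `x, v` to `k, d`; so every `y ∈ U` is in `C ∪ x C ∪ v C ∪ x v C ≤ W`.  So
`h` centralises `U`, contradiction to `hne`.
-/

namespace Pool.Agent.H27.E7

variable {G : Type} [Group G] {M U : Subgroup G} {B : G → G → ZMod 2}

/-- partial products of the conjugates of `v` under the powers of `h` -/
def syePP (h v : G) : ℕ → G
  | 0 => 1
  | k + 1 => syePP h v k * (h ^ k * v * (h ^ k)⁻¹)

theorem syePP_mem {h v : G} (hU : ∀ y ∈ U, ∀ k : ℕ, h ^ k * y * (h ^ k)⁻¹ ∈ U) (hv : v ∈ U)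
    (k : ℕ) : syePP h v k ∈ U := by
  induction k with
  | zero => exact U.one_mem
  | succ k ih => exact U.mul_mem ih (hU v hv k)

theorem syePP_shift {h v : G} (k : ℕ) :
    v * (h * syePP h v k * h⁻¹) = syePP h v (k + 1) := by
  induction k with
  | zero => simp [syePP]
  | succ k ih =>
    have e1 : v * (h * syePP h v (k + 1) * h⁻¹)
        = v * (h * syePP h v k * h⁻¹) * (h ^ (k + 1) * v * (h ^ (k + 1))⁻¹) := by
      rw [syePP, pow_succ']
      group
    rw [e1, ih]
    rfl

theorem syeB_one (S : Symp M U B) {u : G} (hu : u ∈ U) : B u 1 = 0 := by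
  rw [S.symm u hu 1 U.one_mem]
  have h1 := S.mul_left 1 U.one_mem 1 U.one_mem u hu
  rw [one_mul] at h1
  have h2 : B 1 u + B 1 u = 0 := CharTwo.add_self_eq_zero _
  rw [h1]
  exact h2

theorem syeB_mul (S : Symp M U B) {u v w : G} (hu : u ∈ U) (hv : v ∈ U) (hw : w ∈ U) :
    B u (v * w) = B u v + B u w := by
  rw [S.symm u hu _ (U.mul_mem hv hw), S.mul_left v hv w hw u hu, S.symm v hv u hu,
    S.symm w hw u hu]

theorem syePP_B (c : Cfg M U) (S : Symp M U B) {h u v : G} (hh : h ∈ M) (hu : u ∈ U)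
    (hv : v ∈ U) (huh : h * u = u * h) (k : ℕ) :
    B u (syePP h v k) = (k : ZMod 2) * B u v := by
  have hU : ∀ y ∈ U, ∀ k : ℕ, h ^ k * y * (h ^ k)⁻¹ ∈ U :=
    fun y hy k => c.nrm _ (M.pow_mem hh k) y hy
  induction k with
  | zero => simp [syePP, syeB_one S hu]
  | succ k ih =>
    have hc : Commute (h ^ k) u := Commute.pow_left huh k
    have e1 : B u (h ^ k * v * (h ^ k)⁻¹) = B u v := by
      have e2 := S.inv (h ^ k) (M.pow_mem hh k) u hu v hv
      rw [hc.eq, mul_inv_cancel_right] at e2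
      exact e2
    rw [syePP, syeB_mul S hu (syePP_mem hU hv k) (hU v hv k), ih, e1]
    push_cast
    ring

theorem syeW (c : Cfg M U) (S : Symp M U B) {h : G} (hh : h ∈ M) (ho : Odd (orderOf h))
    {u : G} (hu : u ∈ U) (h1 : u ≠ 1) (huh : h * u = u * h) :
    ∃ v ∈ U, h * v = v * h ∧ B u v = 1 := by
  have hU : ∀ y ∈ U, ∀ k : ℕ, h ^ k * y * (h ^ k)⁻¹ ∈ U :=
    fun y hy k => c.nrm _ (M.pow_mem hh k) y hy
  obtain ⟨v, hv, hB⟩ := S.nondeg u hu h1
  refine ⟨syePP h v (orderOf h), syePP_mem hU hv _, ?_, ?_⟩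
  · have e1 := syePP_shift (h := h) (v := v) (orderOf h)
    rw [syePP, pow_orderOf_eq_one] at e1
    have e2 : syePP h v (orderOf h) * (1 * v * 1⁻¹) = v * syePP h v (orderOf h) := by
      rw [one_mul, inv_one, mul_one]
      exact U_comm c (syePP_mem hU hv _) hv
    rw [e2] at e1
    have e3 := mul_left_cancel e1
    rw [mul_inv_eq_iff_eq_mul] at e3
    exact e3
  · rw [syePP_B c S hh hu hv huh, hB, mul_one]
    obtain ⟨m, hm⟩ := ho
    rw [hm]
    push_cast
    have : (2 : ZMod 2) = 0 := rfl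
    rw [this]
    ring

theorem no_fix [Finite G] (c : Cfg M U) (S : Symp M U B) {z h : G} (hz : z ∈ M) (hh : h ∈ M)
    (g : Good U B z) (h16 : Nat.card U = 16) (ho : Odd (orderOf h)) (hi : z * h * z = h⁻¹)
    (hne : ∃ u ∈ U, h * u ≠ u * h) (hf : ∃ u ∈ U, u ≠ 1 ∧ h * u = u * h) : False := by
  classical
  have zi : z⁻¹ = z := inv_eq_of_mul_eq_one_left g.sq
  -- the conjugation by z
  set τ : G ≃* G := MulAut.conj z with hτ
  have tau : ∀ y, τ y = z * y * z⁻¹ := fun y => rfl
  have tt : ∀ y, τ (τ y) = y := by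
    intro y
    have : τ (τ y) = (z * z) * y * (z * z)⁻¹ := by
      rw [tau, tau]
      group
    rw [this, g.sq]
    simp
  have tU : ∀ y ∈ U, τ y ∈ U := fun y hy => c.nrm z hz y hy
  have tB : ∀ x ∈ U, ∀ y ∈ U, B (τ x) (τ y) = B x y := fun x hx y hy => S.inv z hz x hx y hy
  have tB2 : ∀ x ∈ U, ∀ y ∈ U, B x (τ y) = B (τ x) y := by
    intro x hx y hy
    rw [← tB x hx (τ y) (tU y hy), tt]
  have tf : ∀ y, τ y = y → z * y = y * z := by
    intro y hy
    rw [tau, mul_inv_eq_iff_eq_mul] at hy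
    exact hy
  have tf2 : ∀ y, z * y = y * z → τ y = y := by
    intro y hy
    rw [tau, mul_inv_eq_iff_eq_mul]
    exact hy
  have tphi : ∀ y ∈ U, τ (y * τ y) = y * τ y := by
    intro y hy
    rw [map_mul, tt]
    exact U_comm c (tU y hy) hy
  -- z acts on C_U(h)
  have hz1 : h * z = z * h⁻¹ := by
    rw [← hi, ← mul_assoc, ← mul_assoc, g.sq, one_mul]
  have hz2 : h⁻¹ * z⁻¹ = z⁻¹ * h := by
    rw [zi, ← hi, mul_assoc, g.sq, mul_one]
  have tW : ∀ y, h * y = y * h → h * τ y = τ y * h := by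
    intro y hy
    have hy' : h⁻¹ * y = y * h⁻¹ := by
      rw [inv_mul_eq_iff_eq_mul, ← mul_assoc, hy, mul_assoc, mul_inv_cancel, mul_one]
    rw [tau]
    calc h * (z * y * z⁻¹) = (h * z) * y * z⁻¹ := by group
      _ = z * (h⁻¹ * y) * z⁻¹ := by rw [hz1]; group
      _ = z * y * (h⁻¹ * z⁻¹) := by rw [hy']; group
      _ = z * y * z⁻¹ * h := by rw [hz2]; group
  have iso : ∀ x ∈ U, ∀ y ∈ U, z * x = x * z → z * y = y * z → B x y = 0 := by
    intro x hx y hy h1 h2
    obtain ⟨w, hw, rfl⟩ := g.cz x hx h1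
    have e1 : B (w * (z * w * z⁻¹)) y = B w y + B (τ w) y :=
      S.mul_left w hw (τ w) (tU w hw) y hy
    rw [e1, ← tB2 w hw y hy, tf2 y h2]
    exact CharTwo.add_self_eq_zero _
  -- an element of C_U(h) which is moved by z
  obtain ⟨x, hx, hxh, hxz⟩ : ∃ x ∈ U, h * x = x * h ∧ z * x ≠ x * z := by
    by_contra hcon
    push Not at hcon
    obtain ⟨u, hu, h1, hu2⟩ := hf
    obtain ⟨v, hv, hv2, hB⟩ := syeW c S hh ho hu h1 hu2
    have := iso u hu v hv (hcon u hu hu2) (hcon v hv hv2)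
    rw [this] at hB
    exact zero_ne_one hB
  have tx := tU x hx
  have kU : x * τ x ∈ U := U.mul_mem hx tx
  have kh : h * (x * τ x) = x * τ x * h := Commute.mul_right hxh (tW x hxh)
  have k1 : x * τ x ≠ 1 := by
    intro h1
    apply hxz
    apply tf
    have h2 : τ x = x⁻¹ := eq_inv_of_mul_eq_one_right h1
    rw [h2]
    exact inv_eq_of_mul_eq_one_left (c.sq x hx)
  obtain ⟨v, hv, hvh, hB⟩ := syeW c S hh ho kU k1 kh
  have tv := tU v hv
  have dU : v * τ v ∈ U := U.mul_mem hv tv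
  have dh : h * (v * τ v) = v * τ v * h := Commute.mul_right hvh (tW v hvh)
  have Bd : B x (v * τ v) = 1 := by
    rw [syeB_mul S hx hv tv, tB2 x hx v hv, ← S.mul_left x hx (τ x) tx v hv]
    exact hB
  have Bk : B x (x * τ x) = 0 := by
    rw [syeB_mul S hx hx tx, S.self x hx, zero_add]
    exact g.fz x hx
  have B1 : B x 1 = 0 := syeB_one S hx
  have d1 : v * τ v ≠ 1 := by
    intro h1
    rw [h1, B1] at Bd
    exact zero_ne_one Bd
  have kd : x * τ x ≠ v * τ v := by
    intro h1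
    rw [← h1, Bk] at Bd
    exact zero_ne_one Bd
  have kd1 : x * τ x * (v * τ v) ≠ 1 := by
    intro h1
    apply kd
    rw [eq_inv_of_mul_eq_one_left h1]
    exact inv_eq_of_mul_eq_one_left (c.sq _ dU)
  -- the centraliser of z has four elements
  have hC4 : Nat.card (U ⊓ Subgroup.centralizer {z} : Subgroup G) = 4 := by
    have h1 := card_CU c hz g.sq g.cz
    rw [h16] at h1
    have h2 : Nat.card (U ⊓ Subgroup.centralizer {z} : Subgroup G) ^ 2 = 4 ^ 2 := by
      rw [h1]
      norm_num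
    exact Nat.pow_left_injective (by norm_num : (2 : ℕ) ≠ 0) h2
  have memC : ∀ y, y ∈ (U ⊓ Subgroup.centralizer {z} : Subgroup G) ↔ y ∈ U ∧ z * y = y * z := by
    intro y
    rw [Subgroup.mem_inf, Subgroup.mem_centralizer_singleton_iff]
    constructor
    · rintro ⟨h1, h2⟩
      exact ⟨h1, h2.symm⟩
    · rintro ⟨h1, h2⟩
      exact ⟨h1, h2.symm⟩
  have kC : z * (x * τ x) = x * τ x * z := tf _ (tphi x hx)
  have dC : z * (v * τ v) = v * τ v * z := tf _ (tphi v hv)
  have all4 : ∀ y ∈ U, z * y = y * z →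
      y = 1 ∨ y = x * τ x ∨ y = v * τ v ∨ y = x * τ x * (v * τ v) := by
    let s : Finset G := {1, x * τ x, v * τ v, x * τ x * (v * τ v)}
    have hs : s.card = 4 := by
      have n1 : (1 : G) ∉ ({x * τ x, v * τ v, x * τ x * (v * τ v)} : Finset G) := by
        simp only [Finset.mem_insert, Finset.mem_singleton, not_or]
        exact ⟨Ne.symm k1, Ne.symm d1, Ne.symm kd1⟩
      have n2 : x * τ x ∉ ({v * τ v, x * τ x * (v * τ v)} : Finset G) := by
        simp only [Finset.mem_insert, Finset.mem_singleton, not_or]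
        refine ⟨kd, fun h1 => d1 ?_⟩
        exact left_eq_mul.1 h1
      have n3 : v * τ v ∉ ({x * τ x * (v * τ v)} : Finset G) := by
        simp only [Finset.mem_singleton]
        intro h1
        exact k1 (right_eq_mul.1 h1)
      change Finset.card (insert 1 (insert (x * τ x) (insert (v * τ v)
        {x * τ x * (v * τ v)}))) = 4
      rw [Finset.card_insert_of_notMem n1, Finset.card_insert_of_notMem n2,
        Finset.card_insert_of_notMem n3, Finset.card_singleton]
    have hsub : (s : Set G) ⊆ ((U ⊓ Subgroup.centralizer {z} : Subgroup G) : Set G) := by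
      intro y hy
      simp only [s, Finset.coe_insert, Finset.coe_singleton, Set.mem_insert_iff,
        Set.mem_singleton_iff] at hy
      rw [SetLike.mem_coe, memC]
      rcases hy with rfl | rfl | rfl | rfl
      · exact ⟨U.one_mem, by simp⟩
      · exact ⟨kU, kC⟩
      · exact ⟨dU, dC⟩
      · exact ⟨U.mul_mem kU dU, Commute.mul_right kC dC⟩
    have heq : (s : Set G) = ((U ⊓ Subgroup.centralizer {z} : Subgroup G) : Set G) := by
      apply Set.eq_of_subset_of_ncard_le hsub _ (Set.toFinite _)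
      rw [Set.ncard_coe_finset, hs]
      exact le_of_eq hC4
    intro y hy hyz
    have hy' : y ∈ (s : Set G) := by
      rw [heq, SetLike.mem_coe, memC]
      exact ⟨hy, hyz⟩
    simpa only [s, Finset.coe_insert, Finset.coe_singleton, Set.mem_insert_iff,
        Set.mem_singleton_iff] using hy'
  have CW : ∀ y ∈ U, z * y = y * z → h * y = y * h := by
    intro y hy hyz
    rcases all4 y hy hyz with rfl | rfl | rfl | rfl
    · simp
    · exact kh
    · exact dh
    · exact Commute.mul_right kh dh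
  -- every element of U commutes with h
  have key : ∀ y ∈ U, ∀ w ∈ U, h * w = w * h → y * τ y = w * τ w → h * y = y * h := by
    intro y hy w hw hwh he
    have h1 : z * (y * w) = y * w * z := by
      apply tf
      rw [map_mul]
      have e1 : y * w * (τ y * τ w) = 1 := by
        have : y * w * (τ y * τ w) = (y * τ y) * (w * τ w) := by
          rw [mul_assoc, mul_assoc, ← mul_assoc w, U_comm c hw (tU y hy), mul_assoc]
        rw [this, he]
        exact c.sq _ (U.mul_mem hw (tU w hw))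
      rw [eq_inv_of_mul_eq_one_right e1]
      exact inv_eq_of_mul_eq_one_left (c.sq _ (U.mul_mem hy hw))
    have h2 := CW _ (U.mul_mem hy hw) h1
    have h3 : y = y * w * w := by rw [mul_assoc, c.sq w hw, mul_one]
    rw [h3]
    exact Commute.mul_right h2 hwh
  obtain ⟨y, hy, hyh⟩ := hne
  apply hyh
  rcases all4 (y * τ y) (U.mul_mem hy (tU y hy)) (tf _ (tphi y hy)) with h1 | h1 | h1 | h1
  · exact key y hy 1 U.one_mem (by simp) (by rw [h1]; simp)
  · exact key y hy x hx hxh h1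
  · exact key y hy v hv hvh h1
  · refine key y hy (x * v) (U.mul_mem hx hv) (Commute.mul_right hxh hvh) ?_
    rw [h1, map_mul, mul_assoc, mul_assoc, ← mul_assoc (τ x), U_comm c tx hv, mul_assoc]

end Pool.Agent.H27.E7
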