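import Pool.Agent.H27.E7.Inv2
import Pool.Agent.H27.E7.SyE

/-!
# E7-20: the exceptional situation of Theorem B does not occur (Step 8 of note 1310)

Given `e, z, h, u` as in `Star2` for `M = MQ F`, `U = UQ H F`.  `e e = 1` (`II_sq` with `cfg`).
`inv_dich` for `x := e`: `e⁻¹ z e = z ∈ M` (`z e = e z`).  Write `h = cl g`, `g ∈ NN` (`cl_surj`,
`cl_MQ`), `e = cl f`, `f ∉ NN`.
(1) `g ∉ TT`: otherwise `e⁻¹ h e = e h e = h⁻¹` says `f⁻¹ g f ∈ g⁻¹ Z ⊆ TT` and `c1` gives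
`g ∈ Z`, `h = 1`, contradiction.
(2) Case `|U| = 64`, `z = cl m`, `m e_a ∈ K e_(-a)` for all `a`.  Let `w` be the permutation of `g`
(`NN_perm`).  `m g m⁻¹` maps `e_a` to a multiple of `e_(w a)` (`m⁻¹ e_a ∈ K e_(-a)`,
`w (-a) = - w a`), and `z h z⁻¹ = h⁻¹` says `m g m⁻¹ ∈ g⁻¹ Z`, which maps `e_a` to a multiple of
`e_(w⁻¹ a)`.  So `w w = 1` and `g g ∈ TT` (`mem_TT_of` or `mem_TT_of_comm`).  `h` has odd order `2 k + 1`: `h = (h h)^(k+1)`,
so `g ∈ (g g)^(k+1) Z ⊆ TT`, contradiction to (1).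
(3) Case `|U| = 16`, `z` good: `no_fix` gives the contradiction; its hypothesis `hne`: if `h`
commutes with all of `U` then `triv_pm` applies to `g` (`g s g⁻¹ s⁻¹ ∈ Z` for `s ∈ EE F`):
`g ∈ TT` contradicts (1) and the second alternative gives `|U| = 64` by `cardU64`.
-/

namespace Pool.Agent.H27.E7

open Pool.Agent.H33.EL

variable {n : ℕ} {C : Matrix (Fin n) (Fin n) ℤ} {K : Type} [Field K] [Fintype (Rt C)]
variable {F : Subgroup (LL C K ≃ₗ[K] LL C K)}

private theorem St2_gnotT (H : Hyp C K) (X : Ctx F) {f g : LL C K ≃ₗ[K] LL C K} (hf : f ∈ F)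
    (hg : g ∈ F) (hfN : f ∉ NN C K) (hg1 : cl hg ≠ 1) (he2 : cl hf * cl hf = 1)
    (h : cl hf * cl hg * cl hf = (cl hg)⁻¹) : g ∉ TT C K := by
  intro hgT
  apply hg1
  rw [cl_one_iff]
  refine c1 H X hf hfN hg hgT ?_
  have e1 : (cl hf)⁻¹ = cl hf := inv_eq_of_mul_eq_one_left he2
  have h1 : (cl hf)⁻¹ * cl hg * cl hf = (cl hg)⁻¹ := by rw [e1, h]
  rw [cl_inv hf, cl_inv hg, cl_mul (inv_mem hf) hg, cl_mul (mul_mem (inv_mem hf) hg) hf,
    cl_eq_iff] at h1
  have h2 := mul_mem (Zc_le_TT H X h1) (inv_mem hgT)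
  simpa [mul_assoc] using h2

private theorem St2_inv (H : Hyp C K) (X : Ctx F) {m g : LL C K ≃ₗ[K] LL C K}
    (hg : g ∈ F) (hgN : g ∈ NN C K)
    (hme : ∀ a : Rt C, ∃ k : K, m (e K a) = k • e K (ng a))
    (hi : m * g * m⁻¹ * g ∈ Zc F) : g * g ∈ TT C K := by
  obtain ⟨w, k, hk0, hw1, -, hw3, -⟩ := NN_perm H hgN
  have hmi : ∀ a : Rt C, ∃ l : K, l ≠ 0 ∧ m⁻¹ (e K a) = l • e K (ng a) := by
    intro a
    obtain ⟨l, hl⟩ := hme (ng a)
    rw [ng_ng] at hl
    have hl0 : l ≠ 0 := by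
      rintro rfl
      rw [zero_smul] at hl
      have h1 : e K (ng a) = 0 := by
        apply m.injective
        rw [hl, map_zero]
      have h2 : (e K (ng a)).2 (ng a) = 0 := by rw [h1]; rfl
      rw [e_snd_self] at h2
      exact one_ne_zero h2
    refine ⟨l⁻¹, inv_ne_zero hl0, ?_⟩
    apply m.injective
    have h3 : m (m⁻¹ (e K a)) = e K a := m.apply_symm_apply _
    rw [h3, map_smul, hl, smul_smul, inv_mul_cancel₀ hl0, one_smul]
  have hww : ∀ a : Rt C, w (w a) = a := by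
    intro a
    have hz := TT_e H (Zc_le_TT H X hi) a
    have h1 : (m * g * m⁻¹ * g) (e K a) = m (g (m⁻¹ (g (e K a)))) := rfl
    rw [h1, hw1] at hz
    obtain ⟨l, hl0, hl⟩ := hmi (w a)
    obtain ⟨l', hl'⟩ := hme (ng (w (w a)))
    simp only [map_smul, hl, hw1, hw3, hl', ng_ng, smul_smul] at hz
    by_contra hne
    have hl'0 : l' ≠ 0 := by
      rintro rfl
      rw [zero_smul] at hl'
      have h1 : e K (ng (w (w a))) = 0 := by
        apply m.injective
        rw [hl', map_zero]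
      have h2 : (e K (ng (w (w a)))).2 (ng (w (w a))) = 0 := by rw [h1]; rfl
      rw [e_snd_self] at h2
      exact one_ne_zero h2
    refine hne (nor_root_eq ?_ hz)
    simp [hk0, hl0, hl'0]
  refine mem_TT_of H (mul_mem (X.hF hg) (X.hF hg)) fun a => ⟨k a * k (w a), ?_⟩
  have h1 : (g * g) (e K a) = g (g (e K a)) := rfl
  rw [h1, hw1, map_smul, hw1, hww, smul_smul]

theorem star2 (H : Hyp C K) (X : Ctx F) (hb : Big F) (h7 : H7 C) :
    Star2 (MQ F) (UQ H F) := by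
  intro e he heM z hz h hh hz2 hz1 hze hh1 ho heh hzh u hu hu1 huh
  have c := cfg H X hb.ind
  have := QF_finite H F
  have he2 := II_sq c he
  have hei : e⁻¹ = e := inv_eq_of_mul_eq_one_left he2
  have hz' : e⁻¹ * z * e ∈ MQ F := by
    have h1 : e⁻¹ * z * e = z := by rw [mul_assoc, hze, ← mul_assoc, inv_mul_cancel, one_mul]
    rw [h1]
    exact hz
  obtain ⟨f, hf, rfl⟩ := cl_surj e
  obtain ⟨g, hg, rfl⟩ := cl_surj h
  have hfN : f ∉ NN C K := fun h1 => heM ((cl_MQ H X hf).2 h1)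
  have hgN : g ∈ NN C K := (cl_MQ H X hg).1 hh
  have hgT : g ∉ TT C K := St2_gnotT H X hf hg hfN hh1 he2 heh
  rcases inv_dich H X hb h7 heM hz hz' hz2 hz1 with ⟨h16, hgood⟩ | ⟨-, m, hm, rfl, hmN, hme⟩
  · refine no_fix c (symp H X hb) hz hh hgood h16 ho hzh ?_ ⟨u, hu, hu1, huh.symm⟩
    by_contra hall
    push Not at hall
    have hcm : ∀ s ∈ EE F, g * s * g⁻¹ * s⁻¹ ∈ Zc F := by
      intro s hs
      have h3 := hall (cl hs.1) ((cl_UQ H X hs.1).2 hs)
      rw [cl_mul, cl_mul, cl_eq_iff] at h3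
      simpa [mul_assoc] using h3
    rcases triv_pm H X hb h7 hg hgN hcm with h1 | ⟨-, h1⟩
    · exact hgT h1
    · have h2 := (cardU64 H X hb h7).2 h1
      omega
  · have hzi : (cl hm)⁻¹ = cl hm := inv_eq_of_mul_eq_one_left hz2
    have h1 : cl hm * cl hg * (cl hm)⁻¹ = (cl hg)⁻¹ := by rw [hzi, hzh]
    rw [cl_inv hm, cl_inv hg, cl_mul hm hg, cl_mul (mul_mem hm hg) (inv_mem hm), cl_eq_iff,
      inv_inv] at h1
    have hgg := St2_inv H X hg hgN hme h1
    apply hgT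
    obtain ⟨k, hk⟩ := ho
    have h2 : ((cl hg : QF F) * cl hg) ^ (k + 1) = cl hg := by
      have h3 : (cl hg : QF F) ^ (2 * k + 1) = 1 := by rw [← hk]; exact pow_orderOf_eq_one _
      calc ((cl hg : QF F) * cl hg) ^ (k + 1) = cl hg ^ (2 * k + 1) * cl hg := by
            rw [← pow_two, ← pow_mul, ← pow_succ]; congr 1
        _ = cl hg := by rw [h3, one_mul]
    have hpow : ∀ j : ℕ, ∀ hj : (g * g) ^ j ∈ F, ((cl hg : QF F) * cl hg) ^ j = cl hj := by
      intro j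
      induction j with
      | zero =>
        intro hj
        rw [pow_zero]
        symm
        rw [cl_one_iff]
        simp only [pow_zero]
        exact one_mem _
      | succ j ih =>
        intro hj
        have hj' : (g * g) ^ j ∈ F := pow_mem (mul_mem hg hg) j
        rw [pow_succ, ih hj', cl_mul hg hg, cl_mul hj' (mul_mem hg hg)]
        rfl
    have hj : (g * g) ^ (k + 1) ∈ F := pow_mem (mul_mem hg hg) _
    rw [hpow (k + 1) hj, cl_eq_iff] at h2
    have h4 := mul_mem (inv_mem (Zc_le_TT H X h2)) (pow_mem hgg (k + 1))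
    simpa [mul_assoc] using h4

end Pool.Agent.H27.E7
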