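import Pool.Agent.H27.E7.NA

/-!
# E7-16: the symplectic form on `EE F / Z`

`BQ q r = 1` if `q = cl s`, `r = cl (uu a)` with `s ∈ EE F`, `a ∈ PZ F`, `wt s a = -1`, and 0
otherwise.  `BQ_eval`: `BQ (cl s) (cl (uu a))` is 0 if `wt s a = 1` and 1 otherwise
(`wt s a = ±1`: `CCe_pm`): if also `cl s = cl s'` then `wt s a = wt s' a` as `a ∈ PZ F`;
`cl (uu a) = cl (uu b)` gives `b = ± a` (`n3`), and `wt s (ng a) = wt s a` (`CCe_ng`).
`symp`: every `r ∈ UQ`, `r ≠ 1`, is `cl (uu a)` with `a ∈ PZ F` (`n1`; `uu a` has square 1) and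
`BQ q 1 = 0` (`uu a ∉ Z` by `n2`).  `mul_left`: `wt_mul`.  `BQ (cl (uu a)) (cl (uu b)) =
ip a b mod 2` (`wt_uu`), symmetric, and 0 for `a = b`.  `nondeg`: for `s ∉ Z` some `a ∈ PZ F` has
`wt s a = -1` (`CCe_exists_neg`).  `inv`: for `m ∈ F ⊓ NN` with permutation `w` (`NN_perm`)
`wt (m s m⁻¹) (w a) = wt s a` (`wt_conj`) and `m (uu a) m⁻¹ = uu (w a)`, `w a ∈ PZ F`.
-/

namespace Pool.Agent.H27.E7

open Pool.Agent.H33.EL

variable {n : ℕ} {C : Matrix (Fin n) (Fin n) ℤ} {K : Type} [Field K] [Fintype (Rt C)]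
variable {F : Subgroup (LL C K ≃ₗ[K] LL C K)}

open Classical in
/-- the form -/
noncomputable def BQ (F : Subgroup (LL C K ≃ₗ[K] LL C K)) (q r : QF F) : ZMod 2 :=
  if ∃ (s : LL C K ≃ₗ[K] LL C K) (hs : s ∈ F) (a : Rt C) (ha : uu K a ∈ F),
    s ∈ EE F ∧ a ∈ PZ F ∧ q = cl hs ∧ r = cl ha ∧ wt s a = -1 then 1 else 0

theorem SyQ_uu_inv (H : Hyp C K) (a : Rt C) : (uu K a)⁻¹ = uu K a :=
  inv_eq_of_mul_eq_one_left (uu_sq H a)

theorem SyQ_cl_congr {f g : LL C K ≃ₗ[K] LL C K} (h : f = g) (hf : f ∈ F) (hg : g ∈ F) :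
    cl hf = cl hg := by
  subst h
  rfl

theorem SyQ_wt_eq (H : Hyp C K) {s t : LL C K ≃ₗ[K] LL C K} (hs : s ∈ EE F)
    (ht : t ∈ EE F) {a : Rt C} (ha : a ∈ PZ F) (h : s * t⁻¹ ∈ Zc F) : wt s a = wt t a := by
  have h1 := ha _ h
  rw [wt_mul H hs.2.1 (inv_mem ht.2.1), wt_inv H ht.2.1] at h1
  have h2 := wt_ne_zero H ht.2.1 a
  field_simp at h1
  exact h1

open Classical in
theorem BQ_eval (H : Hyp C K) (X : Ctx F) (hb : Big F) {s : LL C K ≃ₗ[K] LL C K} (hs : s ∈ EE F)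
    {a : Rt C} (ha : a ∈ PZ F) :
    BQ F (cl hs.1) (cl (uu_EE H X a).1) = if wt s a = 1 then 0 else 1 := by
  unfold BQ
  by_cases h : wt s a = 1
  · rw [if_pos h, if_neg]
    rintro ⟨s', hs', a', ha', hsE, haP, h1, h2, h3⟩
    have h4 : wt s a = wt s' a := SyQ_wt_eq H hs hsE ha ((cl_eq_iff hs.1 hs').mp h1)
    have h5 := (cl_eq_iff (uu_EE H X a).1 ha').mp h2
    rw [SyQ_uu_inv H] at h5
    have h6 : wt s' a' = wt s' a := by
      rcases n3 H X hb ha haP h5 with rfl | rfl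
      · rfl
      · exact CCe_ng H hsE ha
    rw [← h4, h, h3] at h6
    exact CCe_ne H h6
  · rw [if_neg h, if_pos]
    exact ⟨s, hs.1, a, (uu_EE H X a).1, hs, ha, rfl, rfl, (CCe_pm H hs ha).resolve_left h⟩

theorem SyQ_BQ_one (H : Hyp C K) (X : Ctx F) (hb : Big F) (q : QF F) : BQ F q 1 = 0 := by
  unfold BQ
  rw [if_neg]
  rintro ⟨s', hs', a', ha', hsE, haP, h1, h2, h3⟩
  exact n2 H X hb haP ((cl_one_iff ha').mp h2.symm)

theorem SyQ_rep (H : Hyp C K) (X : Ctx F) {q : QF F} (hq : q ∈ UQ H F) :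
    ∃ (s : LL C K ≃ₗ[K] LL C K) (hs : s ∈ EE F), q = cl hs.1 := by
  obtain ⟨s, hs, rfl⟩ := cl_surj q
  exact ⟨s, (cl_UQ H X hs).mp hq, rfl⟩

theorem SyQ_uu (H : Hyp C K) (X : Ctx F) (hb : Big F) {q : QF F} (hq : q ∈ UQ H F)
    (h1 : q ≠ 1) : ∃ a ∈ PZ F, q = cl (uu_EE H X a).1 := by
  obtain ⟨s, hs, rfl⟩ := SyQ_rep H X hq
  have hsZ : s ∉ Zc F := fun h => h1 ((cl_one_iff hs.1).mpr h)
  obtain ⟨a, ha, haZ⟩ := n1 H X hb hs hsZ
  refine ⟨a, ha, (cl_eq_iff hs.1 (uu_EE H X a).1).mpr ?_⟩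
  rw [SyQ_uu_inv H]
  exact haZ

theorem SyQ_mul_left (H : Hyp C K) (X : Ctx F) (hb : Big F) : ∀ u ∈ UQ H F, ∀ v ∈ UQ H F,
    ∀ w ∈ UQ H F, BQ F (u * v) w = BQ F u w + BQ F v w := by
  classical
  intro u hu v hv w hw
  by_cases hw1 : w = 1
  · rw [hw1, SyQ_BQ_one H X hb, SyQ_BQ_one H X hb, SyQ_BQ_one H X hb, add_zero]
  · obtain ⟨a, ha, rfl⟩ := SyQ_uu H X hb hw hw1
    obtain ⟨s, hs, rfl⟩ := SyQ_rep H X hu
    obtain ⟨t, ht, rfl⟩ := SyQ_rep H X hv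
    have h1 : (cl hs.1 * cl ht.1 : QF F) = cl (CCe_mul H hs ht).1 := cl_mul hs.1 ht.1
    rw [h1, BQ_eval H X hb hs ha, BQ_eval H X hb ht ha, BQ_eval H X hb (CCe_mul H hs ht) ha,
      CCe_wt_mul H hs ht]
    have hne := CCe_ne H (C := C)
    rcases CCe_pm H hs ha with h2 | h2 <;> rcases CCe_pm H ht ha with h3 | h3 <;>
      rw [h2, h3]
    · simp
    · simp [hne]
    · simp [hne]
    · rw [if_neg hne, if_pos (by ring)]
      decide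

theorem SyQ_one_left (H : Hyp C K) (X : Ctx F) (hb : Big F) {w : QF F} (hw : w ∈ UQ H F) :
    BQ F 1 w = 0 := by
  have h1 := SyQ_mul_left H X hb 1 (one_mem _) 1 (one_mem _) w hw
  rw [mul_one] at h1
  exact left_eq_add.mp h1

theorem symp (H : Hyp C K) (X : Ctx F) (hb : Big F) : Symp (MQ F) (UQ H F) (BQ F) := by
  classical
  refine ⟨SyQ_mul_left H X hb, ?_, ?_, ?_, ?_⟩
  · intro u hu v hv
    by_cases hu1 : u = 1
    · rw [hu1, SyQ_one_left H X hb hv, SyQ_BQ_one H X hb]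
    by_cases hv1 : v = 1
    · rw [hv1, SyQ_one_left H X hb hu, SyQ_BQ_one H X hb]
    obtain ⟨a, ha, rfl⟩ := SyQ_uu H X hb hu hu1
    obtain ⟨b, hb', rfl⟩ := SyQ_uu H X hb hv hv1
    rw [BQ_eval H X hb (uu_EE H X a) hb', BQ_eval H X hb (uu_EE H X b) ha]
    have h1 : wt (uu K a) b = 1 ↔ wt (uu K b) a = 1 := by
      rw [wt_uu H, wt_uu H, ip_comm H.symm]
    by_cases h2 : wt (uu K a) b = 1
    · rw [if_pos h2, if_pos (h1.mp h2)]
    · rw [if_neg h2, if_neg (fun h => h2 (h1.mpr h))]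
  · intro u hu
    by_cases hu1 : u = 1
    · rw [hu1, SyQ_BQ_one H X hb]
    obtain ⟨a, ha, rfl⟩ := SyQ_uu H X hb hu hu1
    rw [BQ_eval H X hb (uu_EE H X a) ha, if_pos]
    rw [wt_uu H, (a.2 : ip C a.1 a.1 = 2)]
    exact even_two
  · intro u hu hu1
    obtain ⟨s, hs, rfl⟩ := SyQ_rep H X hu
    have hsZ : s ∉ Zc F := fun h => hu1 ((cl_one_iff hs.1).mpr h)
    obtain ⟨a, ha, haw⟩ := CCe_exists_neg H X hs hsZ
    refine ⟨cl (uu_EE H X a).1, (cl_UQ H X _).mpr (uu_EE H X a), ?_⟩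
    rw [BQ_eval H X hb hs ha, if_neg]
    rw [haw]
    exact CCe_ne H
  · intro m hm u hu v hv
    by_cases hv1 : v = 1
    · rw [hv1, mul_one, mul_inv_cancel, SyQ_BQ_one H X hb, SyQ_BQ_one H X hb]
    obtain ⟨a, ha, rfl⟩ := SyQ_uu H X hb hv hv1
    have hmu := (cfg H X hb.ind).nrm m hm u hu
    obtain ⟨s, hs, rfl⟩ := SyQ_rep H X hu
    obtain ⟨m', hm', rfl⟩ := cl_surj m
    have hmN : m' ∈ NN C K := (cl_MQ H X hm').mp hm
    obtain ⟨w, k, hk, hw, -⟩ := NN_perm H hmN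
    have h1 : (cl hm' * cl hs.1 * (cl hm')⁻¹ : QF F) =
        cl (mul_mem (mul_mem hm' hs.1) (inv_mem hm')) := by
      rw [cl_inv, cl_mul, cl_mul]
    rw [h1] at hmu
    have hsE : m' * s * m'⁻¹ ∈ EE F := (cl_UQ H X _).mp hmu
    have hwa : w a ∈ PZ F := (PZ_perm H X hm' (hw a)).mp ha
    have h2 : (cl hm' * cl (uu_EE H X a).1 * (cl hm')⁻¹ : QF F) = cl (uu_EE H X (w a)).1 := by
      rw [cl_inv, cl_mul, cl_mul]
      exact SyQ_cl_congr (uu_conj H hmN (hw a)) _ _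
    rw [h1, h2]
    have h3 := BQ_eval H X hb hsE hwa
    have h4 : cl hsE.1 = cl (mul_mem (mul_mem hm' hs.1) (inv_mem hm')) := rfl
    rw [h4] at h3
    rw [h3, BQ_eval H X hb hs ha, wt_conj H hmN hs.2.1 (hw a)]

end Pool.Agent.H27.E7
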